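import Pool.Agent.JGC.A7
import Pool.Agent.JZR.Count

/-!
# [JGC-A8] at least `76` per cent of all sixth-power-free `D` are in the class `ClG`
-/

set_option autoImplicit false

namespace JGC

open CM27 CU JZ JC
open scoped Classical

theorem count_clG : ∃ X₀ : ℕ, ∀ X : ℕ, X₀ ≤ X →
    76 * JZR.count (fun _ => True) X ≤ 100 * JZR.count (fun D => JG.ClG D) X := by
  obtain ⟨X1, h1⟩ := count_clG'
  obtain ⟨X2, h2⟩ := count_all
  refine ⟨X1 + X2, fun X hX => ?_⟩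
  obtain ⟨f1, n1⟩ := h1 X (by omega)
  obtain ⟨f2, n2⟩ := h2 X (by omega)
  have a2 : JZR.count (fun _ => True) X ≤ {D : Eis | D ≠ 0 ∧ D.norm ≤ X}.ncard :=
    Set.ncard_le_ncard (fun D hD => ⟨hD.1.1, hD.2.1⟩) f2
  have a1 : {D : Eis | JG.ClG D ∧ D.norm ≤ X}.ncard ≤ JZR.count (fun D => JG.ClG D) X := by
    refine Set.ncard_le_ncard (fun D hD => ⟨⟨?_, hD.1.free⟩, hD.2, hD.1⟩) (JZR.finite_le _ X)
    rintro rfl
    exact hD.1.nsq ⟨0, by ring⟩
  omega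

end JGC
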