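import Pool.Agent.JGC.Z
import Pool.Agent.JGC.A8
import Pool.Agent.JZR.CountX

/-!
# [JGC] the proportions
-/

set_option autoImplicit false

open Filter Topology
open scoped Classical

namespace JGC

open CM27 JZ JC JX JXC
open JZR (count SixthPowerFree spf finite_le)

/-- the main estimate -/
theorem main_count (P : Eis → Prop) (hP : ∀ D, ClX D → ¬ IsUnit D → GX D → P D) :
    ∃ X₀ : ℕ, ∀ X : ℕ, X₀ ≤ X →
      76 * count (fun _ => True) X ≤ 100 * count (fun D => JG.ClG D) X ∧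
      198 * count (fun _ => True) X ≤ 1000 * count (fun D => ClX D ∧ P D) X := by
  obtain ⟨X1, h1⟩ := count_goodH
  obtain ⟨X2, h2⟩ := count_clG
  obtain ⟨X4, h4⟩ := JC.count_all
  refine ⟨X1 + X2 + X4 + 100000, fun X hX => ⟨h2 X (by omega), ?_⟩⟩
  obtain ⟨f1, n1⟩ := h1 X (by omega)
  obtain ⟨f4, n4⟩ := h4 X (by omega)
  have a2 : count (fun _ => True) X ≤ {D : Eis | D ≠ 0 ∧ D.norm ≤ X}.ncard :=
    Set.ncard_le_ncard (fun D hD => ⟨hD.1.1, hD.2.1⟩) f4
  have hU : {D : Eis | IsUnit D}.Finite ∧ {D : Eis | IsUnit D}.ncard ≤ 6 := by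
    have hs : {D : Eis | IsUnit D} ⊆ (({1, -1, CU.om, -CU.om, CU.om ^ 2, -CU.om ^ 2} : Finset Eis) : Set Eis) := by
      intro D hD
      rcases JC.unit_cases hD with h | h | h | h | h | h <;> rw [h] <;> simp
    have hf : ((({1, -1, CU.om, -CU.om, CU.om ^ 2, -CU.om ^ 2} : Finset Eis) : Set Eis)).Finite :=
      Finset.finite_toSet _
    refine ⟨hf.subset hs, ?_⟩
    refine (Set.ncard_le_ncard hs hf).trans ?_
    rw [Set.ncard_coe_finset]
    exact Finset.card_le_six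
  have a3 : {D : Eis | GX D ∧ D.norm ≤ X}.ncard ≤ count (fun D => ClX D ∧ P D) X + 6 := by
    have hsub : {D : Eis | GX D ∧ D.norm ≤ X} ⊆
        {D : Eis | SixthPowerFree D ∧ D.norm ≤ X ∧ ClX D ∧ P D} ∪ {D : Eis | IsUnit D} := by
      rintro D ⟨hD1, hD2⟩
      by_cases h4 : IsUnit D
      · exact Or.inr h4
      · have hc : ClX D := (clX_iff D).2 (hD1.imp (fun h => h.1) (fun h => h.1))
        exact Or.inl ⟨spf hc.1, hD2, hc, hP D hc h4 hD1⟩
    have hf := finite_le (fun D => ClX D ∧ P D) X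
    refine (Set.ncard_le_ncard hsub (hf.union hU.1)).trans ?_
    exact (Set.ncard_union_le _ _).trans (Nat.add_le_add_left hU.2 _)
  omega

end JGC
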