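import Pool.Agent.JGC.Base

/-!
# [JGC-A1a] the residues modulo `27`
-/

set_option autoImplicit false
set_option linter.unusedSimpArgs false

namespace JGC

open CM27 CU JZ JC
open scoped Classical

theorem a1_la_of (x : Eis) (h : (3 : ℤ) ∣ x.re + x.im) : la ∣ x := by
  have e0 : (la : Eis) = ⟨1, -1⟩ := by decide
  rw [e0]
  obtain ⟨k, hk⟩ := h
  refine ⟨⟨x.re - k, k⟩, ?_⟩
  apply QuadraticAlgebra.ext
  · rw [QuadraticAlgebra.re_mul]
    dsimp only
    linarith
  · rw [QuadraticAlgebra.im_mul]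
    dsimp only
    linarith

theorem a1_cases (D : Eis) (h : res 27 D ∈ F27) :
    (¬ (3 : ℤ) ∣ D.re + D.im ∧ ¬ (D.re % 3 = 1 ∧ D.im % 3 = 0 ∧ (D.re + D.im + 2) % 9 = 0) ∧
        ¬ (D.re % 3 = 2 ∧ D.im % 3 = 0 ∧ (D.re + D.im + 4) % 9 = 0)) ∨
      ((3 : ℤ) ∣ D.re + D.im ∧ ¬ (D.re % 3 = 0 ∧ D.im % 3 = 0)) ∨
      (D.re % 3 = 0 ∧ D.im % 3 = 0 ∧ (D.re + D.im) % 9 = 3) ∨
      (D.re % 3 = 0 ∧ D.im % 3 = 0 ∧ (D.re + D.im) % 9 = 0 ∧ ¬ (D.re % 9 = 0 ∧ D.im % 9 = 0) ∧
        ¬ ((2 * D.re - D.im) % 27 = 18 ∧ ((D.re - 2 * D.im) % 27 = 18 ∨ (D.re - 2 * D.im) % 27 = 0))) ∨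
      (D.re % 9 = 0 ∧ D.im % 9 = 0 ∧ (D.re + D.im) % 27 = 18) ∨
      (D.re % 9 = 0 ∧ D.im % 9 = 0 ∧ (D.re + D.im) % 27 = 0 ∧ D.re % 27 ≠ 0) := by
  have h1 : (((res 27 D).1.val : ℕ) : ℤ) = D.re % 27 := by
    show (((D.re : ZMod 27).val : ℕ) : ℤ) = _
    rw [ZMod.val_intCast]
    rfl
  have h2 : (((res 27 D).2.val : ℕ) : ℤ) = D.im % 27 := by
    show (((D.im : ZMod 27).val : ℕ) : ℤ) = _
    rw [ZMod.val_intCast]
    rfl
  rw [F27, Finset.mem_filter] at h
  have h := h.2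
  generalize (res 27 D).1.val = u at h h1
  generalize (res 27 D).2.val = v at h h2
  unfold ok27 at h
  split_ifs at h with a1 a2 a3 a4 a5
  · simp only [bne_iff_ne, ne_eq, Bool.and_eq_true, beq_iff_eq, Bool.not_eq_eq_eq_not, Bool.not_true,
      Bool.and_eq_false_iff, beq_eq_false_iff_ne] at a1 h
    left
    omega
  · simp only [bne_iff_ne, ne_eq, Bool.and_eq_true, beq_iff_eq, Bool.not_eq_eq_eq_not, Bool.not_true,
      Bool.and_eq_false_iff, beq_eq_false_iff_ne, not_not] at a1 a2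
    right; left
    omega
  · simp only [bne_iff_ne, ne_eq, Bool.and_eq_true, beq_iff_eq, Bool.not_eq_eq_eq_not, Bool.not_true,
      Bool.and_eq_false_iff, beq_eq_false_iff_ne, not_not, not_or] at a1 a2 a3 h
    right; right; left
    omega
  · simp only [bne_iff_ne, ne_eq, Bool.and_eq_true, beq_iff_eq, Bool.not_eq_eq_eq_not, Bool.not_true,
      Bool.and_eq_false_iff, beq_eq_false_iff_ne, not_not, not_or, Bool.or_eq_false_iff] at a1 a2 a3 a4 h
    right; right; right; left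
    omega
  · simp only [bne_iff_ne, ne_eq, Bool.and_eq_true, beq_iff_eq, Bool.not_eq_eq_eq_not, Bool.not_true,
      Bool.and_eq_false_iff, beq_eq_false_iff_ne, not_not, not_or] at a1 a2 a3 a4 a5 h
    right; right; right; right; left
    omega
  · simp only [bne_iff_ne, ne_eq, Bool.and_eq_true, beq_iff_eq, Bool.not_eq_eq_eq_not, Bool.not_true,
      Bool.and_eq_false_iff, beq_eq_false_iff_ne, not_not, not_or] at a1 a2 a3 a4 a5 h
    right; right; right; right; right
    omega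

theorem F27_la (D : Eis) (h : res 27 D ∈ F27) : CLa D := by
  have H := a1_cases D h
  clear h
  have e1 : (1 : Eis).re = 1 := rfl
  have e2 : (1 : Eis).im = 0 := rfl
  have e3 : (-1 : Eis).re = -1 := rfl
  have e4 : (-1 : Eis).im = 0 := rfl
  have l1 : (la : Eis) = ⟨1, -1⟩ := by decide
  have l2 : (la : Eis) ^ 2 = ⟨0, -3⟩ := by decide
  have l3 : (la : Eis) ^ 3 = ⟨-3, -6⟩ := by decide
  have l4 : (la : Eis) ^ 4 = ⟨-9, -9⟩ := by decide
  have l6 : (la : Eis) ^ 6 = ⟨-27, 0⟩ := by decide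
  refine ⟨?_, ?_, ?_, ?_⟩
  · rw [l6]
    rintro ⟨k, hk⟩
    have k1 := congrArg QuadraticAlgebra.re hk
    have k2 := congrArg QuadraticAlgebra.im hk
    rw [QuadraticAlgebra.re_mul] at k1
    rw [QuadraticAlgebra.im_mul] at k2
    dsimp only at k1 k2
    omega
  · intro h0 η hη h3
    have h0' : ¬ (3 : ℤ) ∣ D.re + D.im := fun h => h0 (a1_la_of D h)
    rw [la3_dvd_iff, l2] at h3
    rcases hη with rfl | rfl
    · simp only [QuadraticAlgebra.re_sub, QuadraticAlgebra.im_sub, e1, e2] at h3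
      omega
    · simp only [QuadraticAlgebra.re_sub, QuadraticAlgebra.im_sub, e3, e4] at h3
      omega
  · intro c hc hD
    have hc' : ¬ (3 : ℤ) ∣ c.re + c.im := fun h => hc (a1_la_of c h)
    apply a1_la_of
    rw [QuadraticAlgebra.re_add, QuadraticAlgebra.im_add, e1, e2]
    rcases hD with hD | hD
    · rw [l2] at hD
      have k1 := congrArg QuadraticAlgebra.re hD
      have k2 := congrArg QuadraticAlgebra.im hD
      rw [QuadraticAlgebra.re_mul] at k1
      rw [QuadraticAlgebra.im_mul] at k2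
      dsimp only at k1 k2
      omega
    · rw [l4] at hD
      have k1 := congrArg QuadraticAlgebra.re hD
      have k2 := congrArg QuadraticAlgebra.im hD
      rw [QuadraticAlgebra.re_mul] at k1
      rw [QuadraticAlgebra.im_mul] at k2
      dsimp only at k1 k2
      omega
  · intro c hc hD η hη h3
    have hc' : ¬ (3 : ℤ) ∣ c.re + c.im := fun h => hc (a1_la_of c h)
    rw [l3] at hD
    have k1 := congrArg QuadraticAlgebra.re hD
    have k2 := congrArg QuadraticAlgebra.im hD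
    rw [QuadraticAlgebra.re_mul] at k1
    rw [QuadraticAlgebra.im_mul] at k2
    dsimp only at k1 k2
    rw [l2, l1] at h3
    obtain ⟨m, hm⟩ := h3
    have m1 := congrArg QuadraticAlgebra.re hm
    have m2 := congrArg QuadraticAlgebra.im hm
    rw [QuadraticAlgebra.re_mul, QuadraticAlgebra.re_sub, QuadraticAlgebra.re_add] at m1
    rw [QuadraticAlgebra.im_mul, QuadraticAlgebra.im_sub, QuadraticAlgebra.im_add] at m2
    dsimp only at m1 m2
    rcases hη with rfl | rfl
    · rw [e1] at m1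
      rw [e2] at m2
      omega
    · rw [e3] at m1
      rw [e4] at m2
      omega

end JGC
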