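import Pool.Agent.JGC.Base

/-!
# [JGC-A1b] the residues modulo `32`

Proof. `u = (res 32 D).1.val`, `v = (res 32 D).2.val` satisfy `(u : ℤ) = D.re % 32`, `(v : ℤ) = D.im % 32` (see `JC.mem_F36` in Pool/Agent/JC/C3.lean).
`six`: `64 ∣ re, im` is excluded. `two`: let `c` be prime to `2` (`c.re` or `c.im` odd), `D = c` or `D = 4 c`, and `8 ∣ c - x ^ 2`. Then `x.re` or `x.im` is odd, `x ^ 2 = (a ^ 2 - b ^ 2, 2 a b - b ^ 2)` for `x = (a, b)`; modulo `8` this is one of the six pairs of `sq8` (`decide` over `ZMod 8 × ZMod 8`, or write `a = 8 k + i`, `b = 8 l + j`), so `sq8 (c.re % 8) (c.im % 8)`, against `ok32` (for `D = 4 c`: `u / 4` is congruent to `c.re` modulo `8`).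
-/

set_option autoImplicit false

namespace JGC

open CM27 CU JZ JC
open scoped Classical

theorem sq8_dec : ∀ a b : ZMod 8,
    ((a * a - b * b).val % 2 = 0 ∧ (2 * a * b - b * b).val % 2 = 0) ∨
    ((a * a - b * b).val = 0 ∧ (2 * a * b - b * b).val = 1) ∨
    ((a * a - b * b).val = 0 ∧ (2 * a * b - b * b).val = 5) ∨
    ((a * a - b * b).val = 1 ∧ (2 * a * b - b * b).val = 0) ∨
    ((a * a - b * b).val = 3 ∧ (2 * a * b - b * b).val = 3) ∨
    ((a * a - b * b).val = 5 ∧ (2 * a * b - b * b).val = 0) ∨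
    ((a * a - b * b).val = 7 ∧ (2 * a * b - b * b).val = 7) := by
  decide +kernel

theorem sq8_core (c x : Eis) (h : (8 : Eis) ∣ c - x ^ 2) :
    (c.re % 2 = 0 ∧ c.im % 2 = 0) ∨ (c.re % 8 = 0 ∧ c.im % 8 = 1) ∨ (c.re % 8 = 0 ∧ c.im % 8 = 5) ∨
    (c.re % 8 = 1 ∧ c.im % 8 = 0) ∨ (c.re % 8 = 3 ∧ c.im % 8 = 3) ∨ (c.re % 8 = 5 ∧ c.im % 8 = 0) ∨
    (c.re % 8 = 7 ∧ c.im % 8 = 7) := by
  have e1 : (8 : Eis).re = 8 := rfl
  have e2 : (8 : Eis).im = 0 := rfl
  have h8 : (8 : ZMod 8) = 0 := by decide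
  obtain ⟨k, hk⟩ := h
  have h1 := congrArg QuadraticAlgebra.re hk
  have h2 := congrArg QuadraticAlgebra.im hk
  rw [sq, QuadraticAlgebra.re_sub, QuadraticAlgebra.re_mul, QuadraticAlgebra.re_mul, e1, e2] at h1
  rw [sq, QuadraticAlgebra.im_sub, QuadraticAlgebra.im_mul, QuadraticAlgebra.im_mul, e1, e2] at h2
  have h1' : c.re = x.re * x.re - x.im * x.im + 8 * k.re := by linarith
  have h2' : c.im = 2 * x.re * x.im - x.im * x.im + 8 * k.im := by linarith
  have g1 : ((c.re : ℤ) : ZMod 8) = (x.re : ZMod 8) * x.re - x.im * x.im := by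
    rw [h1']
    push_cast
    rw [h8]
    ring
  have g2 : ((c.im : ℤ) : ZMod 8) = 2 * (x.re : ZMod 8) * x.im - x.im * x.im := by
    rw [h2']
    push_cast
    rw [h8]
    ring
  have key := sq8_dec (x.re : ZMod 8) (x.im : ZMod 8)
  rw [← g1, ← g2] at key
  have f1 : (((c.re : ZMod 8).val : ℕ) : ℤ) = c.re % 8 := by
    rw [ZMod.val_intCast]
    rfl
  have f2 : (((c.im : ZMod 8).val : ℕ) : ℤ) = c.im % 8 := by
    rw [ZMod.val_intCast]
    rfl
  rcases key with ⟨p, q⟩ | key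
  · exact Or.inl ⟨by omega, by omega⟩
  rcases key with ⟨p, q⟩ | ⟨p, q⟩ | ⟨p, q⟩ | ⟨p, q⟩ | ⟨p, q⟩ | ⟨p, q⟩ <;>
    (rw [p] at f1; rw [q] at f2)
  · exact Or.inr (Or.inl ⟨f1.symm, f2.symm⟩)
  · exact Or.inr (Or.inr (Or.inl ⟨f1.symm, f2.symm⟩))
  · exact Or.inr (Or.inr (Or.inr (Or.inl ⟨f1.symm, f2.symm⟩)))
  · exact Or.inr (Or.inr (Or.inr (Or.inr (Or.inl ⟨f1.symm, f2.symm⟩))))
  · exact Or.inr (Or.inr (Or.inr (Or.inr (Or.inr (Or.inl ⟨f1.symm, f2.symm⟩)))))
  · exact Or.inr (Or.inr (Or.inr (Or.inr (Or.inr (Or.inr ⟨f1.symm, f2.symm⟩)))))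

theorem sq8_of (u v : ℕ) (a b : ℤ) (ha : (u : ℤ) % 8 = a % 8) (hb : (v : ℤ) % 8 = b % 8)
    (h : (a % 8 = 0 ∧ b % 8 = 1) ∨ (a % 8 = 0 ∧ b % 8 = 5) ∨ (a % 8 = 1 ∧ b % 8 = 0) ∨
      (a % 8 = 3 ∧ b % 8 = 3) ∨ (a % 8 = 5 ∧ b % 8 = 0) ∨ (a % 8 = 7 ∧ b % 8 = 7)) :
    sq8 u v = true := by
  have key : ∀ m n : ℕ, u % 8 = m → v % 8 = n → m < 8 → n < 8 → sq8 m n = true → sq8 u v = true := by
    intro m n hm hn hm8 hn8 hs
    have e1 : m % 8 = m := Nat.mod_eq_of_lt hm8
    have e2 : n % 8 = n := Nat.mod_eq_of_lt hn8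
    rw [sq8, e1, e2] at hs
    rw [sq8, hm, hn]
    exact hs
  rcases h with ⟨p, q⟩ | ⟨p, q⟩ | ⟨p, q⟩ | ⟨p, q⟩ | ⟨p, q⟩ | ⟨p, q⟩
  · exact key 0 1 (by omega) (by omega) (by decide) (by decide) (by decide)
  · exact key 0 5 (by omega) (by omega) (by decide) (by decide) (by decide)
  · exact key 1 0 (by omega) (by omega) (by decide) (by decide) (by decide)
  · exact key 3 3 (by omega) (by omega) (by decide) (by decide) (by decide)
  · exact key 5 0 (by omega) (by omega) (by decide) (by decide) (by decide)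
  · exact key 7 7 (by omega) (by omega) (by decide) (by decide) (by decide)

theorem F32_two (D : Eis) (h : res 32 D ∈ F32) : CTwo D := by
  have h1 : (((res 32 D).1.val : ℕ) : ℤ) = D.re % 32 := by
    show (((D.re : ZMod 32).val : ℕ) : ℤ) = _
    rw [ZMod.val_intCast]
    rfl
  have h2 : (((res 32 D).2.val : ℕ) : ℤ) = D.im % 32 := by
    show (((D.im : ZMod 32).val : ℕ) : ℤ) = _
    rw [ZMod.val_intCast]
    rfl
  rw [F32, Finset.mem_filter] at h
  have h := h.2
  generalize (res 32 D).1.val = u at h h1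
  generalize (res 32 D).2.val = v at h h2
  have a0 : (0 : Eis).re = 0 := rfl
  constructor
  · have e0 : (2 : Eis) ^ 6 = ⟨64, 0⟩ := by decide
    rw [e0]
    rintro ⟨k, hk⟩
    have k1 := congrArg QuadraticAlgebra.re hk
    have k2 := congrArg QuadraticAlgebra.im hk
    rw [QuadraticAlgebra.re_mul] at k1
    rw [QuadraticAlgebra.im_mul] at k2
    dsimp only at k1 k2
    have u0 : u = 0 := by omega
    have v0 : v = 0 := by omega
    rw [u0, v0] at h
    exact absurd h (by decide)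
  · intro c hc hD x hx
    have key := sq8_core c x hx
    have hc2 : ¬ (c.re % 2 = 0 ∧ c.im % 2 = 0) := by
      rintro ⟨p, q⟩
      apply hc
      refine ⟨⟨c.re / 2, c.im / 2⟩, ?_⟩
      have e1 : (2 : Eis).re = 2 := rfl
      have e2 : (2 : Eis).im = 0 := rfl
      apply QuadraticAlgebra.ext
      · rw [QuadraticAlgebra.re_mul, e1, e2]
        dsimp only
        omega
      · rw [QuadraticAlgebra.im_mul, e1, e2]
        dsimp only
        omega
    have key2 := key.resolve_left hc2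
    rcases hD with hD | hD
    · rw [hD] at h1 h2
      have g : sq8 u v = true := sq8_of u v c.re c.im (by omega) (by omega) key2
      have m1 : (u : ℤ) % 2 = c.re % 2 := by omega
      have m2 : (v : ℤ) % 2 = c.im % 2 := by omega
      have g2 : (u % 2 != 0 || v % 2 != 0) = true := by
        simp only [Bool.or_eq_true, bne_iff_ne, ne_eq]
        clear key key2
        omega
      simp only [ok32, g2, if_true, g, Bool.not_true] at h
      exact absurd h (by decide)
    · have e0 : (2 : Eis) ^ 2 = ⟨4, 0⟩ := by decide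
      have k1 := congrArg QuadraticAlgebra.re hD
      have k2 := congrArg QuadraticAlgebra.im hD
      rw [e0, QuadraticAlgebra.re_mul] at k1
      rw [e0, QuadraticAlgebra.im_mul] at k2
      dsimp only at k1 k2
      have g : sq8 (u / 4) (v / 4) = true :=
        sq8_of _ _ c.re c.im (by clear key key2; omega) (by clear key key2; omega) key2
      clear key key2
      have g2 : (u % 2 != 0 || v % 2 != 0) = false := by
        simp only [Bool.or_eq_false_iff, bne_eq_false_iff_eq]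
        omega
      have g3 : (u % 4 == 0 && v % 4 == 0) = true := by
        simp only [Bool.and_eq_true, beq_iff_eq]
        omega
      simp only [ok32, g2, g3, if_true, g, Bool.not_true, Bool.and_false, Bool.false_eq_true,
        if_false] at h

end JGC
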