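import Pool.Agent.JGC.Base

/-!
# [JGC-A2] counting a residue class

Proof. `count_class`: as `JC.count_res` (Pool/Agent/JC/C2.lean): the set is the image of `{y : ‖emb y - κ‖ ≤ R}` under `y ↦ r + M y`, `κ = - emb r / emb M`, `R = √X / ‖emb M‖`; `JC.disc_count`.
`crt`: `m` is prime to `864`; `AG_card`: sum over the `638 * 921` pairs of classes.
-/

set_option autoImplicit false

namespace JGC

open CM27 CU JZ JC
open scoped Classical

theorem count_class (M r : Eis) (hM : M ≠ 0) (X : ℕ) :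
    |({x : Eis | M ∣ x - r ∧ x.norm ≤ X}.ncard : ℝ) - 2 * Real.pi / √3 * X / M.norm| ≤ 10 * (√X + 1) := by
  have hdom := eis_isDomain
  have hem : emb M ≠ 0 := fun h => hM (emb_injective (by rw [h, map_zero]))
  have hm1 : 0 < ‖emb M‖ := norm_pos_iff.2 hem
  have hmN := norm_one_le hM
  set κ : ℂ := -emb r / emb M with hκ
  set R : ℝ := √X / ‖emb M‖ with hR
  have hR0 : 0 ≤ R := by positivity
  have hR2 : R ^ 2 = X / M.norm := by
    rw [hR, div_pow, norm_emb_sq, Real.sq_sqrt (Nat.cast_nonneg _)]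
  have hset : {x : Eis | M ∣ x - r ∧ x.norm ≤ X} =
      (fun y => r + M * y) '' {y : Eis | ‖emb y - κ‖ ≤ R} := by
    have hnorm : ∀ y : Eis, ‖emb (r + M * y)‖ = ‖emb M‖ * ‖emb y - κ‖ := fun y => by
      have : emb (r + M * y) = emb M * (emb y - κ) := by
        rw [hκ, map_add, map_mul]
        field_simp
        ring
      rw [this, norm_mul]
    ext x
    constructor
    · rintro ⟨⟨y, hy⟩, h3⟩
      have e : x = r + M * y := by rw [← hy]; ring
      refine ⟨y, ?_, e.symm⟩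
      rw [norm_le_iff, e, hnorm] at h3
      show ‖emb y - κ‖ ≤ R
      rw [hR, le_div_iff₀ hm1, mul_comm]
      exact h3
    · rintro ⟨y, hy, rfl⟩
      refine ⟨⟨y, by ring⟩, ?_⟩
      rw [norm_le_iff, hnorm]
      have hy' : ‖emb y - κ‖ ≤ R := hy
      rw [hR, le_div_iff₀ hm1, mul_comm] at hy'
      exact hy'
  rw [hset, Set.ncard_image_of_injective]
  · have h1 := (disc_count κ R hR0).2
    rw [hR2] at h1
    have h2 : R ≤ √X := by
      rw [hR]
      apply div_le_self (Real.sqrt_nonneg _)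
      have : 1 ≤ ‖emb M‖ ^ 2 := by rw [norm_emb_sq]; exact hmN
      nlinarith
    have e : 2 * Real.pi / √3 * X / M.norm = 2 * Real.pi / √3 * (X / M.norm) := by ring
    rw [e]
    exact h1.trans (by linarith)
  · intro y y' h
    simp only at h
    have h2 : M * y = M * y' := add_left_cancel h
    exact mul_left_cancel₀ hM h2

theorem A2_cop {m : Eis} (hm : IsCoprime m 6) : IsCoprime m 864 := by
  have h1 : IsCoprime m ((6 : Eis) ^ 5) := hm.pow_right
  refine IsCoprime.of_isCoprime_of_dvd_right h1 ⟨9, ?_⟩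
  norm_num

theorem crt (m a : Eis) (hm : IsCoprime m 6) (c : ZMod 27 × ZMod 27) (d : ZMod 32 × ZMod 32) :
    ∃ r : Eis, ∀ x : Eis, (res 27 x = c ∧ res 32 x = d ∧ m ∣ x - a) ↔ 864 * m ∣ x - r := by
  obtain ⟨r₁, rfl⟩ := res_surj 27 c
  obtain ⟨r₂, rfl⟩ := res_surj 32 d
  have hc := A2_cop hm
  have h27 : IsCoprime (27 : Eis) 32 := ⟨19, -16, by norm_num⟩
  obtain ⟨u, v, huv⟩ := hc
  have hc := A2_cop hm
  refine ⟨(-512 * r₁ + 513 * r₂) * (u * m) + a * (v * 864), fun x => ?_⟩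
  rw [res_iff, res_iff]
  have c1 : ((27 : ℕ) : Eis) = 27 := by norm_num
  have c2 : ((32 : ℕ) : Eis) = 32 := by norm_num
  rw [c1, c2]
  constructor
  · rintro ⟨⟨p, hp⟩, ⟨q, hq⟩, ⟨t, ht⟩⟩
    have hx1 : (864 : Eis) ∣ x - ((-512 * r₁ + 513 * r₂) * (u * m) + a * (v * 864)) := by
      have e864 : (864 : Eis) = 27 * 32 := by norm_num
      have hs : (864 : Eis) ∣ x - (-512 * r₁ + 513 * r₂) := by
        rw [e864]
        refine h27.mul_dvd ⟨p + 19 * (r₁ - r₂), ?_⟩ ⟨q + 16 * (r₁ - r₂), ?_⟩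
        · linear_combination hp
        · linear_combination hq
      obtain ⟨w, hw⟩ := hs
      refine ⟨w + (-512 * r₁ + 513 * r₂) * v - a * v, ?_⟩
      linear_combination hw - (-512 * r₁ + 513 * r₂) * huv
    have hx2 : m ∣ x - ((-512 * r₁ + 513 * r₂) * (u * m) + a * (v * 864)) := by
      refine ⟨t - (-512 * r₁ + 513 * r₂) * u + a * u, ?_⟩
      linear_combination ht - a * huv
    exact hc.symm.mul_dvd hx1 hx2
  · rintro ⟨w, hw⟩
    refine ⟨⟨32 * m * w - 19 * (r₁ - r₂) - (-512 * r₁ + 513 * r₂) * v * 32 + a * v * 32, ?_⟩,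
      ⟨27 * m * w - 16 * (r₁ - r₂) - (-512 * r₁ + 513 * r₂) * v * 27 + a * v * 27, ?_⟩,
      ⟨864 * w + (-512 * r₁ + 513 * r₂) * u - a * u, ?_⟩⟩
    · linear_combination hw + (-512 * r₁ + 513 * r₂) * huv
    · linear_combination hw + (-512 * r₁ + 513 * r₂) * huv
    · linear_combination hw + a * huv

theorem AG_card (m a : Eis) (hm : IsCoprime m 6) (hm0 : m ≠ 0) : ∃ C : ℝ, 0 ≤ C ∧ ∀ X : ℕ,
    |((AG m a X).card : ℝ) - 2 * Real.pi / √3 * X * (587598 / 746496) / m.norm| ≤ C * (√X + 1) := by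
  refine ⟨5875980, by norm_num, fun X => ?_⟩
  have hdom := eis_isDomain
  have hM : (864 : Eis) * m ≠ 0 := mul_ne_zero (by decide) hm0
  have hN : ((864 * m).norm : ℝ) = 746496 * m.norm := by
    rw [← norm_emb_sq, ← norm_emb_sq, map_mul, norm_mul, mul_pow]
    have : emb (864 : Eis) = 864 := map_ofNat emb 864
    rw [this]
    norm_num
  have hcard : (AG m a X).card = ∑ p ∈ F27 ×ˢ F32, ((AG m a X).filter fun x => (res 27 x, res 32 x) = p).card := by
    refine Finset.card_eq_sum_card_fiberwise fun x hx => ?_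
    have h := (mem_AG m a X x).1 hx
    exact Finset.mem_coe.2 (Finset.mem_product.2 ⟨h.2.1, h.2.2.1⟩)
  have hfib : ∀ p ∈ F27 ×ˢ F32,
      |(((AG m a X).filter fun x => (res 27 x, res 32 x) = p).card : ℝ) -
        2 * Real.pi / √3 * X / (746496 * m.norm)| ≤ 10 * (√X + 1) := by
    rintro ⟨c, d⟩ hp
    obtain ⟨h1, h2⟩ := Finset.mem_product.1 hp
    obtain ⟨r, hr⟩ := crt m a hm c d
    have e : (((AG m a X).filter fun x => (res 27 x, res 32 x) = (c, d)) : Set Eis) =
        {x : Eis | 864 * m ∣ x - r ∧ x.norm ≤ X} := by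
      ext x
      simp only [Finset.coe_filter, Set.mem_ofPred_eq, mem_AG, Prod.mk.injEq]
      rw [← hr x]
      constructor
      · rintro ⟨⟨g1, -, -, g4⟩, g5, g6⟩
        exact ⟨⟨g5, g6, g4⟩, g1⟩
      · rintro ⟨⟨g5, g6, g4⟩, g1⟩
        exact ⟨⟨g1, g5 ▸ h1, g6 ▸ h2, g4⟩, g5, g6⟩
    rw [← Set.ncard_coe_finset, e, ← hN]
    exact count_class (864 * m) r hM X
  have hc : (F27 ×ˢ F32).card = 587598 := by
    rw [Finset.card_product, F27_card, F32_card]
  rw [hcard]
  push_cast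
  have e2 : 2 * Real.pi / √3 * X * (587598 / 746496) / m.norm =
      ∑ p ∈ F27 ×ˢ F32, 2 * Real.pi / √3 * X / (746496 * m.norm) := by
    rw [Finset.sum_const, hc, nsmul_eq_mul]
    push_cast
    field_simp
  rw [e2, ← Finset.sum_sub_distrib]
  refine (Finset.abs_sum_le_sum_abs _ _).trans ((Finset.sum_le_sum hfib).trans ?_)
  rw [Finset.sum_const, hc, nsmul_eq_mul]
  push_cast
  exact le_of_eq (by ring)

end JGC
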