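import Pool.Agent.JGC.Base
import Pool.Agent.CU.P2

/-!
# [JGC-A3] the elements violating the condition at a small prime, counted through the pairs of an associate of the prime and a square root
-/

set_option autoImplicit false

namespace JGC

open CM27 CU JZ JC
open scoped Classical

theorem exists_R (p : Eis) (hp : Prime p) : ∃ R : Finset Eis, (R.card : ℝ) ≤ (p.norm : ℝ) - 1 ∧
    ∀ t : Eis, ¬ p ∣ t → ∃ r ∈ R, p ∣ t - r := by
  obtain ⟨R, hR, hu⟩ := exists_residues p hp.ne_zero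
  obtain ⟨c, ⟨hc, hpc⟩, -⟩ := hu 0
  refine ⟨R.erase c, ?_, fun t ht => ?_⟩
  · rw [Finset.card_erase_of_mem hc]
    have h1 : 0 < R.card := Finset.card_pos.2 ⟨c, hc⟩
    have h2 : ((R.card - 1 : ℕ) : ℝ) = (R.card : ℝ) - 1 := by
      rw [Nat.cast_sub h1, Nat.cast_one]
    have h3 : (R.card : ℝ) ≤ (p.norm.natAbs : ℝ) := by exact_mod_cast hR
    have h4 : (p.norm.natAbs : ℝ) = (p.norm : ℝ) := by
      rw [Nat.cast_natAbs, abs_of_nonneg (norm_nonneg' p)]
    rw [h2]
    linarith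
  · obtain ⟨r, ⟨hr, hpr⟩, -⟩ := hu t
    refine ⟨r, Finset.mem_erase.2 ⟨?_, hr⟩, hpr⟩
    rintro rfl
    apply ht
    have e : t = (t - r) - (0 - r) := by ring
    rw [e]
    exact dvd_sub hpr hpc

theorem u6_pow {u : Eis} (hu : u ∈ U6) : u ^ 6 = 1 := by
  refine unit_six ?_
  rw [eis_isUnit_iff]
  exact U6_unit u hu

theorem VG_card (j K X : ℕ) (hj : Even j) (R : Eis → Finset Eis)
    (hR : ∀ p ∈ PB K, ∀ t : Eis, ¬ p ∣ t → ∃ r ∈ R p, p ∣ t - r) :
    12 * (VG j K X).card ≤ ∑ p ∈ PB K, ∑ t ∈ R p, (AG (p ^ (j + 1)) (p ^ j * t ^ 2) X).card := by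
  have hdom := eis_isDomain
  obtain ⟨i, hi⟩ := hj
  set S : Finset (Σ _ : Eis, Eis) := (PB K).sigma R with hS
  set rel : Eis → (Σ _ : Eis, Eis) → Prop := fun x y => x ∈ AG (y.1 ^ (j + 1)) (y.1 ^ j * y.2 ^ 2) X with hrel
  have h1 : ∀ x ∈ VG j K X, 12 ≤ (S.bipartiteAbove rel x).card := by
    intro x hx
    obtain ⟨hxA, p, hp, c, t, hpt, hct, hxe⟩ := Finset.mem_filter.1 hx
    obtain ⟨hn, h27, h32, -⟩ := (mem_AG 1 0 X x).1 hxA
    obtain ⟨hpK, hpp, hp6⟩ := (mem_PB K p).1 hp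
    have hun : ∀ u ∈ U6, IsUnit u := fun u hu => by
      rw [eis_isUnit_iff]
      exact U6_unit u hu
    have hup : ∀ u ∈ U6, u * p ∈ PB K := fun u hu => by
      refine (mem_PB K _).2 ⟨?_, ?_, ?_⟩
      · show (u * p).norm ≤ K
        rw [map_mul, U6_unit u hu, one_mul]
        exact hpK
      · exact (associated_unit_mul_left _ _ (hun u hu)).symm.prime hpp
      · exact (isCoprime_mul_unit_left_left (hun u hu) _ _).2 hp6
    have hdv : ∀ u ∈ U6, ∀ z : Eis, u * p ∣ z ↔ p ∣ z := fun u hu z => (hun u hu).mul_left_dvd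
    have hs : ∀ s ∈ ({1, -1} : Finset Eis), s = 1 ∨ s = -1 := fun s hs => by
      simpa using hs
    have key : ∀ y ∈ U6 ×ˢ ({1, -1} : Finset Eis), ∃ r : Eis, r ∈ R (y.1 * p) ∧
        (y.1 * p) ∣ y.2 * (y.1 ^ (5 * i) * t) - r := by
      rintro ⟨u, s⟩ hy
      obtain ⟨hu, hs'⟩ := Finset.mem_product.1 hy
      refine (hR (u * p) (hup u hu) _ ?_).imp fun r hr => hr
      rw [hdv u hu]
      intro h
      rcases hs s hs' with h2 | h2
      · dsimp only at h
        rw [h2, one_mul] at h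
        rcases hpp.dvd_or_dvd h with h3 | h3
        · exact hpp.not_isUnit (isUnit_of_dvd_unit h3 ((hun u hu).pow _))
        · exact hpt h3
      · dsimp only at h
        rw [h2, neg_one_mul, dvd_neg] at h
        rcases hpp.dvd_or_dvd h with h3 | h3
        · exact hpp.not_isUnit (isUnit_of_dvd_unit h3 ((hun u hu).pow _))
        · exact hpt h3
    choose! r hr hr' using key
    have hcard : (U6 ×ˢ ({1, -1} : Finset Eis)).card = 12 := by
      rw [Finset.card_product, U6_card]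
      decide
    rw [← hcard]
    refine Finset.card_le_card_of_injOn (fun y => ⟨y.1 * p, r y⟩) ?_ ?_
    · rintro ⟨u, s⟩ hy
      obtain ⟨hu, hs'⟩ := Finset.mem_product.1 (Finset.mem_coe.1 hy)
      refine Finset.mem_coe.2 ((Finset.mem_bipartiteAbove rel).2 ⟨Finset.mem_sigma.2 ⟨hup u hu, hr _ hy⟩, ?_⟩)
      refine (mem_AG _ _ X x).2 ⟨hn, h27, h32, ?_⟩
      show (u * p) ^ (j + 1) ∣ x - (u * p) ^ j * (r (u, s)) ^ 2
      have hu6 := u6_pow hu
      have e1 : x = (u * p) ^ j * (u ^ (5 * j) * c) := by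
        have e2 : u ^ j * u ^ (5 * j) = 1 := by
          rw [← pow_add, show j + 5 * j = 6 * j by ring, pow_mul, hu6, one_pow]
        calc x = p ^ j * c := hxe
          _ = (u ^ j * u ^ (5 * j)) * (p ^ j * c) := by rw [e2, one_mul]
          _ = _ := by rw [mul_pow]; ring
      have e3 : x - (u * p) ^ j * (r (u, s)) ^ 2 = (u * p) ^ j * (u ^ (5 * j) * c - (r (u, s)) ^ 2) := by
        conv_lhs => rw [e1]
        ring
      rw [e3, pow_succ]
      refine mul_dvd_mul_left _ ?_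
      have h4 := hr' (u, s) hy
      dsimp only at h4
      have h5 : u * p ∣ c - t ^ 2 := (hdv u hu _).2 hct
      have e4 : s ^ 2 = 1 := by
        rcases hs s hs' with h2 | h2 <;> rw [h2] <;> ring
      have e5 : u ^ (5 * j) = (u ^ (5 * i)) ^ 2 := by
        rw [← pow_mul, hi]
        congr 1
        ring
      have e6 : u ^ (5 * j) * c - (r (u, s)) ^ 2 = u ^ (5 * j) * (c - t ^ 2) +
          (s * (u ^ (5 * i) * t) - r (u, s)) * (s * (u ^ (5 * i) * t) + r (u, s)) := by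
        rw [e5]
        linear_combination ((u ^ (5 * i)) ^ 2 * t ^ 2) * (-e4)
      rw [e6]
      exact dvd_add (h5.mul_left _) (h4.mul_right _)
    · rintro ⟨u, s⟩ hy ⟨u', s'⟩ hy' h
      obtain ⟨hu, hs1⟩ := Finset.mem_product.1 (Finset.mem_coe.1 hy)
      obtain ⟨hu', hs2⟩ := Finset.mem_product.1 (Finset.mem_coe.1 hy')
      simp only [Sigma.mk.injEq, heq_eq_eq] at h
      obtain ⟨h2, h3⟩ := h
      have h4 : u = u' := mul_right_cancel₀ hpp.ne_zero h2
      subst h4
      congr 1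
      by_contra hne
      have a1 := hr' (u, s) hy
      have a2 := hr' (u, s') hy'
      rw [h3] at a1
      dsimp only at a1 a2
      have a3 := dvd_sub a1 a2
      rw [sub_sub_sub_cancel_right, ← sub_mul, hdv u hu] at a3
      have a4 : ∀ z : Eis, p ∣ 2 * z → p ∣ z := fun z hz => by
        rcases hpp.dvd_or_dvd hz with h5 | h5
        · exfalso
          apply hpp.not_isUnit
          exact hp6.isUnit_of_dvd' dvd_rfl (h5.trans ⟨3, by norm_num⟩)
        · exact h5
      have a5 : p ∣ u ^ (5 * i) * t := by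
        apply a4
        rcases hs s hs1 with h5 | h5 <;> rcases hs s' hs2 with h6 | h6
        · exact absurd (h5.trans h6.symm) hne
        · rw [h5, h6] at a3
          have e : (1 - -1 : Eis) = 2 := by norm_num
          rwa [e] at a3
        · rw [h5, h6] at a3
          have e : (-1 - 1 : Eis) * (u ^ (5 * i) * t) = -(2 * (u ^ (5 * i) * t)) := by ring
          rwa [e, dvd_neg] at a3
        · exact absurd (h5.trans h6.symm) hne
      rcases hpp.dvd_or_dvd a5 with h5 | h5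
      · exact hpp.not_isUnit (isUnit_of_dvd_unit h5 ((hun u hu).pow _))
      · exact hpt h5
  have h2 := Finset.sum_card_bipartiteAbove_eq_sum_card_bipartiteBelow rel (s := VG j K X) (t := S)
  calc 12 * (VG j K X).card = ∑ x ∈ VG j K X, 12 := by
        rw [Finset.sum_const, smul_eq_mul, mul_comm]
    _ ≤ ∑ x ∈ VG j K X, (S.bipartiteAbove rel x).card := Finset.sum_le_sum h1
    _ = ∑ y ∈ S, ((VG j K X).bipartiteBelow rel y).card := h2
    _ ≤ ∑ y ∈ S, (AG (y.1 ^ (j + 1)) (y.1 ^ j * y.2 ^ 2) X).card :=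
        Finset.sum_le_sum fun y _ => Finset.card_le_card fun x hx => ((Finset.mem_bipartiteBelow rel).1 hx).2
    _ = _ := by rw [hS, Finset.sum_sigma]

theorem V6_card (K X : ℕ) : 6 * (V6 K X).card ≤ ∑ p ∈ PB K, (AG (p ^ 6) 0 X).card := by
  have hdom := eis_isDomain
  have hex : ∀ x : Eis, ∃ p : Eis, x ∈ V6 K X → p ∈ PB K ∧ p ^ 6 ∣ x := fun x => by
    by_cases hx : x ∈ V6 K X
    · obtain ⟨p, h1, h2⟩ := (Finset.mem_filter.1 hx).2
      exact ⟨p, fun _ => ⟨h1, h2⟩⟩
    · exact ⟨0, fun h => absurd h hx⟩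
  choose q hq using hex
  have h1 : (U6 ×ˢ V6 K X).card ≤ ((PB K).sigma fun p => AG (p ^ 6) 0 X).card := by
    refine Finset.card_le_card_of_injOn (fun y => ⟨y.1 * q y.2, y.2⟩) ?_ ?_
    · rintro ⟨u, x⟩ hy
      obtain ⟨hu, hx⟩ := Finset.mem_product.1 (Finset.mem_coe.1 hy)
      obtain ⟨h2, h3⟩ := hq x hx
      obtain ⟨h4, h5, h6⟩ := (mem_PB K _).1 h2
      have hun : IsUnit u := by
        rw [eis_isUnit_iff]
        exact U6_unit u hu
      refine Finset.mem_coe.2 (Finset.mem_sigma.2 ⟨(mem_PB K _).2 ⟨?_, ?_, ?_⟩, ?_⟩)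
      · show (u * q x).norm ≤ K
        rw [map_mul, U6_unit u hu, one_mul]
        exact h4
      · exact (associated_unit_mul_left _ _ hun).symm.prime h5
      · exact (isCoprime_mul_unit_left_left hun _ _).2 h6
      · obtain ⟨h7, h8, h9, -⟩ := (mem_AG 1 0 X x).1 (Finset.mem_filter.1 hx).1
        refine (mem_AG _ _ X x).2 ⟨h7, h8, h9, ?_⟩
        show (u * q x) ^ 6 ∣ x - 0
        rw [mul_pow, sub_zero, u6_pow hu, one_mul]
        exact h3
    · rintro ⟨u, x⟩ hy ⟨u', x'⟩ hy' h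
      obtain ⟨hu, hx⟩ := Finset.mem_product.1 (Finset.mem_coe.1 hy)
      simp only [Sigma.mk.injEq, heq_eq_eq] at h
      obtain ⟨h2, rfl⟩ := h
      have h3 : q x ≠ 0 := ((mem_PB K _).1 (hq x hx).1).2.1.ne_zero
      rw [mul_right_cancel₀ h3 h2]
  rw [Finset.card_product, U6_card, Finset.card_sigma] at h1
  exact h1

end JGC
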