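import Pool.Agent.JGC.Base

/-!
# [JGC-A4] the sum over the primes

Model: `JC.sum_primes` (end of Pool/Agent/JC/C5.lean). Box `30` (`mx p ≤ 30`): `gN` is replaced by `gH i j = if okp n then 10 ^ 8 * ((n - 1) * n ^ 3 + (n - 1) * n + 2) / n ^ 6 + 1 else 0`; the sum over the box is `37736606` (`decide +kernel`). Outside of the box the summand is at most `1 / N ^ 2` (because `(N - 1) N ^ 3 + (N - 1) N + 2 ≤ N ^ 4` for `N ≥ 2`), `JC.sum_shell 30`: at most `64 / 9 / (30 * 31) = 0.00764636`. Total `0.3850125 ≤ 0.386`.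
-/

set_option autoImplicit false

namespace JGC

open CM27 CU JZ JC
open scoped Classical

/-- the numerator of the summand -/
def nH (n : ℕ) : ℕ := (n - 1) * n ^ 3 + (n - 1) * n + 2

/-- the summand -/
def gH (i j : ℕ) : ℕ :=
  let n := (i * i + j * j + 900) - (i * j + 30 * (i + j))
  if okp n then 10 ^ 8 * nH n / n ^ 6 + 1 else 0

theorem gH_sum : sN (fun i => sN (fun j => gH i j) 61) 61 = 37736606 := by decide +kernel

theorem summand_eq (n : ℕ) (hn : 1 ≤ n) :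
    ((n : ℝ) - 1) / (n : ℝ) ^ 3 + ((n : ℝ) - 1) / (n : ℝ) ^ 5 + 2 / (n : ℝ) ^ 6 =
      (nH n : ℝ) / (n : ℝ) ^ 6 := by
  have hn0 : (0 : ℝ) < n := by exact_mod_cast hn
  unfold nH
  push_cast [Nat.cast_sub hn]
  field_simp

theorem nH_le (n : ℕ) (hn : 2 ≤ n) : nH n ≤ n ^ 4 := by
  unfold nH
  obtain ⟨k, rfl⟩ : ∃ k, n = k + 2 := ⟨n - 2, by omega⟩
  have h1 : k + 2 - 1 = k + 1 := by omega
  rw [h1]
  have h2 : (k + 2) ^ 4 = (k + 1) * (k + 2) ^ 3 + (k + 2) ^ 3 := by ring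
  rw [h2]
  have h3 : (k + 1) * (k + 2) + 2 ≤ (k + 2) ^ 3 := by
    have : (k + 2) ^ 3 = (k + 1) * (k + 2) + 2 + (k ^ 3 + 5 * k ^ 2 + 9 * k + 4) := by ring
    omega
  omega

theorem sum_primesG (S : Finset Eis) (hS : ∀ p ∈ S, Prime p ∧ IsCoprime p 6) :
    ∑ p ∈ S, (((p.norm : ℝ) - 1) / (p.norm : ℝ) ^ 3 + ((p.norm : ℝ) - 1) / (p.norm : ℝ) ^ 5 + 2 / (p.norm : ℝ) ^ 6) ≤
      386 / 1000 := by
  have hn2 : ∀ p ∈ S, ∃ n : ℕ, p.norm = n ∧ 2 ≤ n := by
    intro p hp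
    obtain ⟨l, hl, h⟩ := prime_norm (hS p hp).1
    have h2 := hl.two_le
    rcases h with h | h
    · exact ⟨l, h, h2⟩
    · exact ⟨l ^ 2, by rw [h]; push_cast; rfl, by nlinarith⟩
  rw [← Finset.sum_filter_add_sum_filter_not S (fun x => 30 < mx x)]
  have h1 := sum_shell 30 (by norm_num) (S.filter fun x => 30 < mx x)
    (fun x hx => (Finset.mem_filter.1 hx).2)
  have h1' : ∑ p ∈ S.filter (fun x => 30 < mx x), (((p.norm : ℝ) - 1) / (p.norm : ℝ) ^ 3 +
      ((p.norm : ℝ) - 1) / (p.norm : ℝ) ^ 5 + 2 / (p.norm : ℝ) ^ 6) ≤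
      ∑ p ∈ S.filter (fun x => 30 < mx x), (1 : ℝ) / (p.norm : ℝ) ^ 2 := by
    refine Finset.sum_le_sum fun p hp => ?_
    obtain ⟨n, hn, hn2'⟩ := hn2 p (Finset.mem_filter.1 hp).1
    rw [hn]
    have e : (((n : ℤ) : ℝ)) = (n : ℝ) := by push_cast; rfl
    rw [e, summand_eq n (by omega)]
    have hn0 : (0 : ℝ) < n := by
      have : 0 < n := by omega
      exact_mod_cast this
    rw [div_le_div_iff₀ (by positivity) (by positivity)]
    have h3 : (nH n : ℝ) ≤ (n : ℝ) ^ 4 := by exact_mod_cast nH_le n hn2'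
    calc (nH n : ℝ) * (n : ℝ) ^ 2 ≤ (n : ℝ) ^ 4 * (n : ℝ) ^ 2 :=
          mul_le_mul_of_nonneg_right h3 (by positivity)
      _ = 1 * (n : ℝ) ^ 6 := by ring
  have h2 : ∑ p ∈ S.filter (fun x => ¬ 30 < mx x), (((p.norm : ℝ) - 1) / (p.norm : ℝ) ^ 3 +
      ((p.norm : ℝ) - 1) / (p.norm : ℝ) ^ 5 + 2 / (p.norm : ℝ) ^ 6) ≤
      37736606 / 10 ^ 8 := by
    set T := S.filter (fun x => ¬ 30 < mx x) with hT
    set φ : Eis → ℕ × ℕ := fun x => ((x.re + 30).toNat, (x.im + 30).toNat) with hφ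
    have hbox : ∀ x ∈ T, -30 ≤ x.re ∧ x.re ≤ 30 ∧ -30 ≤ x.im ∧ x.im ≤ 30 := by
      intro x hx
      have h3 := (Finset.mem_filter.1 hx).2
      rw [not_lt, mx, max_le_iff] at h3
      omega
    have hinj : Set.InjOn φ T := by
      intro x hx y hy h
      have hx' := hbox x hx
      have hy' := hbox y hy
      simp only [hφ, Prod.mk.injEq] at h
      exact QuadraticAlgebra.ext (by omega) (by omega)
    have hterm : ∀ x ∈ T, (((x.norm : ℝ) - 1) / (x.norm : ℝ) ^ 3 +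
        ((x.norm : ℝ) - 1) / (x.norm : ℝ) ^ 5 + 2 / (x.norm : ℝ) ^ 6) ≤
        (gH (φ x).1 (φ x).2 : ℝ) / 10 ^ 8 := by
      intro x hx
      obtain ⟨b1, b2, b3, b4⟩ := hbox x hx
      obtain ⟨hp, h6⟩ := hS x (Finset.mem_filter.1 hx).1
      set i := (x.re + 30).toNat with hi
      set j := (x.im + 30).toNat with hj
      have hi' : (i : ℤ) = x.re + 30 := Int.toNat_of_nonneg (by omega)
      have hj' : (j : ℤ) = x.im + 30 := Int.toNat_of_nonneg (by omega)
      set n : ℕ := (i * i + j * j + 900) - (i * j + 30 * (i + j)) with hn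
      have hnn := norm_nonneg' x
      have hnorm : x.norm = n := by
        have h3 : x.norm = ((i * i + j * j + 900 : ℕ) : ℤ) - ((i * j + 30 * (i + j) : ℕ) : ℤ) := by
          rw [norm_eq]
          have e1 : x.re = i - 30 := by omega
          have e2 : x.im = j - 30 := by omega
          rw [e1, e2]
          push_cast
          ring
        omega
      have hok := okp_of_prime hp h6 hnorm
      have hg : gH (φ x).1 (φ x).2 = 10 ^ 8 * nH n / n ^ 6 + 1 := by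
        show gH i j = _
        unfold gH
        simp only [← hn, hok, if_true]
      have hn0 : 0 < n := by
        rcases Nat.eq_zero_or_pos n with h | h
        · rw [h] at hok
          exact absurd hok (by decide)
        · exact h
      have hn0' : (0 : ℝ) < n := by exact_mod_cast hn0
      rw [hg, hnorm]
      have e : (((n : ℤ) : ℝ)) = (n : ℝ) := by push_cast; rfl
      rw [e, summand_eq n hn0]
      have h4 : 10 ^ 8 * nH n < (10 ^ 8 * nH n / n ^ 6 + 1) * n ^ 6 := by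
        have e1 := Nat.div_add_mod (10 ^ 8 * nH n) (n ^ 6)
        have e2 := Nat.mod_lt (10 ^ 8 * nH n) (show 0 < n ^ 6 by positivity)
        calc 10 ^ 8 * nH n = n ^ 6 * (10 ^ 8 * nH n / n ^ 6) + 10 ^ 8 * nH n % n ^ 6 := e1.symm
          _ < n ^ 6 * (10 ^ 8 * nH n / n ^ 6) + n ^ 6 := Nat.add_lt_add_left e2 _
          _ = (10 ^ 8 * nH n / n ^ 6 + 1) * n ^ 6 := by ring
      have h5 : (10 : ℝ) ^ 8 * (nH n : ℝ) ≤ ((10 ^ 8 * nH n / n ^ 6 + 1 : ℕ) : ℝ) * (n : ℝ) ^ 6 := by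
        exact_mod_cast h4.le
      rw [div_le_div_iff₀ (by positivity) (by positivity)]
      linarith
    have hsub : T.image φ ⊆ Finset.range 61 ×ˢ Finset.range 61 := by
      have e : ∀ x ∈ T, (φ x).1 < 61 ∧ (φ x).2 < 61 := by
        intro x hx
        have hb := hbox x hx
        simp only [hφ]
        constructor <;> omega
      exact img_sub T φ 61 e
    calc ∑ x ∈ T, (((x.norm : ℝ) - 1) / (x.norm : ℝ) ^ 3 +
        ((x.norm : ℝ) - 1) / (x.norm : ℝ) ^ 5 + 2 / (x.norm : ℝ) ^ 6) ≤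
          ∑ x ∈ T, (gH (φ x).1 (φ x).2 : ℝ) / 10 ^ 8 :=
          Finset.sum_le_sum hterm
      _ = (∑ x ∈ T, (gH (φ x).1 (φ x).2 : ℝ)) / 10 ^ 8 := by rw [Finset.sum_div]
      _ = (∑ q ∈ T.image φ, (gH q.1 q.2 : ℝ)) / 10 ^ 8 := by
        rw [Finset.sum_image hinj]
      _ ≤ (∑ q ∈ Finset.range 61 ×ˢ Finset.range 61, (gH q.1 q.2 : ℝ)) / 10 ^ 8 := by
        exact div_le_div_of_nonneg_right (Finset.sum_le_sum_of_subset_of_nonneg hsub
          (fun _ _ _ => Nat.cast_nonneg _)) (by norm_num)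
      _ = ((sN (fun i => sN (fun j => gH i j) 61) 61 : ℕ) : ℝ) / 10 ^ 8 := by
        rw [Finset.sum_product, sN_eq]
        simp only [sN_eq]
        push_cast
        rfl
      _ = 37736606 / 10 ^ 8 := by
        rw [gH_sum]
        norm_num
  have h3 : (64 : ℝ) / 9 / ((30 : ℕ) * ((30 : ℕ) + 1)) + 37736606 / 10 ^ 8 ≤ 386 / 1000 := by
    norm_num
  linarith

end JGC
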