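import Pool.Agent.JGC.Base

/-!
# [JGC-A5] the squares of large primes, and the squares

`W2_card`: copy of `JXC.BY2_card` (Pool/Agent/JXC/G.lean; it uses only `x.norm ≤ X`, `mem_AG` in place of `mem_AMY`).
`SqG_card`: `SqG X` is contained in the image of `{y : ‖emb y - 0‖ ≤ R}`, `R = √(√X)`, under `y ↦ y ^ 2` (`N (y ^ 2) = N(y) ^ 2 ≤ X`), `JC.disc_count 0 R`: at most `3.6277 R ^ 2 + 10 (R + 1) ≤ 30 (√X + 1)`.
-/

set_option autoImplicit false

namespace JGC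

open CM27 CU JZ JC
open scoped Classical

theorem W2_card : ∃ C : ℝ, 0 < C ∧ ∀ k X : ℕ, 1 ≤ k → ((W2 (3 * k ^ 2) X).card : ℝ) ≤ C * X / k ^ 2 := by
  have hdom := eis_isDomain
  obtain ⟨C, hC, hmul⟩ := count_mul
  refine ⟨C * 64, by positivity, fun k X hk => ?_⟩
  set Q : Finset Eis := (PB X).filter fun p => ((3 * k ^ 2 : ℕ) : ℤ) < p.norm with hQ
  have hsub : W2 (3 * k ^ 2) X ⊆ Q.biUnion fun p => (norm_fin X).toFinset.filter
      fun x => x ≠ 0 ∧ p ^ 2 ∣ x := by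
    intro x hx
    obtain ⟨h1, h0, p, hp, h6, hK, hd⟩ := Finset.mem_filter.1 hx
    have hX := ((mem_AG 1 0 X x).1 h1).1
    refine Finset.mem_biUnion.2 ⟨p, Finset.mem_filter.2 ⟨(mem_PB X p).2 ⟨?_, hp, h6⟩, hK⟩,
      Finset.mem_filter.2 ⟨?_, h0, hd⟩⟩
    · obtain ⟨y, rfl⟩ := hd
      have hy : y ≠ 0 := by
        rintro rfl
        exact h0 (mul_zero _)
      have h2 := norm_one_le hy
      have h3 := norm_one_le hp.ne_zero
      have h4 : ((p ^ 2 * y).norm : ℝ) ≤ X := by exact_mod_cast hX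
      have h5 : ((p ^ 2 * y).norm : ℝ) = (p.norm : ℝ) ^ 2 * (y.norm : ℝ) := by
        rw [map_mul, map_pow]
        push_cast
        rfl
      have h7 : (p.norm : ℝ) ≤ X := by nlinarith
      exact_mod_cast h7
    · rw [Set.Finite.mem_toFinset]
      exact hX
  have h1 := (Finset.card_le_card hsub).trans Finset.card_biUnion_le
  have h2 : ∀ p ∈ Q, (((norm_fin X).toFinset.filter fun x => x ≠ 0 ∧ p ^ 2 ∣ x).card : ℝ) ≤
      C * X * (1 / (p.norm : ℝ) ^ 2) := by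
    intro p hp
    have hp' := ((mem_PB X p).1 (Finset.mem_filter.1 hp).1).2.1
    have h3 := hmul (p ^ 2) X (pow_ne_zero 2 hp'.ne_zero)
    have h4 : (((norm_fin X).toFinset.filter fun x => x ≠ 0 ∧ p ^ 2 ∣ x).card : ℝ) =
        ({x : Eis | x ≠ 0 ∧ p ^ 2 ∣ x ∧ x.norm ≤ X}.ncard : ℝ) := by
      rw [← Set.ncard_coe_finset]
      congr 2
      ext x
      rw [Finset.mem_coe, Finset.mem_filter, Set.Finite.mem_toFinset]
      show x.norm ≤ X ∧ _ ↔ x ≠ 0 ∧ p ^ 2 ∣ x ∧ x.norm ≤ X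
      tauto
    rw [h4]
    refine h3.trans (le_of_eq ?_)
    rw [map_pow]
    push_cast
    ring
  have h3 := sum_shell k hk Q fun p hp => by
    have h4 := (Finset.mem_filter.1 hp).2
    have h5 : p.norm ≤ 3 * (mx p : ℤ) ^ 2 := by
      rw [norm_eq]
      have a1 : p.re ^ 2 ≤ (mx p : ℤ) ^ 2 := by
        rw [← Int.natAbs_sq p.re]
        have : p.re.natAbs ≤ mx p := le_max_left _ _
        exact_mod_cast Nat.pow_le_pow_left this 2
      have a2 : p.im ^ 2 ≤ (mx p : ℤ) ^ 2 := by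
        rw [← Int.natAbs_sq p.im]
        have : p.im.natAbs ≤ mx p := le_max_right _ _
        exact_mod_cast Nat.pow_le_pow_left this 2
      nlinarith [sq_nonneg (p.re + p.im)]
    by_contra hcon
    rw [not_lt] at hcon
    have h6 : (mx p) ^ 2 ≤ k ^ 2 := Nat.pow_le_pow_left hcon 2
    have h7 : ((mx p : ℤ)) ^ 2 ≤ (k : ℤ) ^ 2 := by exact_mod_cast h6
    push_cast at h4
    linarith
  have hk0 : (1 : ℝ) ≤ k := by exact_mod_cast hk
  calc ((W2 (3 * k ^ 2) X).card : ℝ) ≤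
      ((∑ p ∈ Q, ((norm_fin X).toFinset.filter fun x => x ≠ 0 ∧ p ^ 2 ∣ x).card : ℕ) : ℝ) := by
        exact_mod_cast h1
    _ = ∑ p ∈ Q, (((norm_fin X).toFinset.filter fun x => x ≠ 0 ∧ p ^ 2 ∣ x).card : ℝ) := by
        push_cast
        rfl
    _ ≤ ∑ p ∈ Q, C * X * (1 / (p.norm : ℝ) ^ 2) := Finset.sum_le_sum h2
    _ = C * X * ∑ p ∈ Q, (1 / (p.norm : ℝ) ^ 2) := by rw [Finset.mul_sum]
    _ ≤ C * X * (64 / 9 / (k * (k + 1))) := by gcongr
    _ ≤ C * X * (64 / k ^ 2) := by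
        gcongr
        · norm_num
        · nlinarith
    _ = C * 64 * X / k ^ 2 := by ring

theorem SqG_card : ∃ C : ℝ, 0 < C ∧ ∀ X : ℕ, ((SqG X).card : ℝ) ≤ C * (√X + 1) := by
  refine ⟨30, by norm_num, fun X => ?_⟩
  set R : ℝ := √(√X) with hR
  have hR0 : 0 ≤ R := Real.sqrt_nonneg _
  have hR2 : R ^ 2 = √X := Real.sq_sqrt (Real.sqrt_nonneg _)
  obtain ⟨hf, hc⟩ := disc_count 0 R hR0
  have hsub : SqG X ⊆ hf.toFinset.image fun y => y ^ 2 := by
    intro x hx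
    obtain ⟨h1, y, rfl⟩ := Finset.mem_filter.1 hx
    rw [Set.Finite.mem_toFinset] at h1
    have h2 : ‖emb (y ^ 2)‖ ≤ √X := (norm_le_iff _ X).1 h1
    refine Finset.mem_image.2 ⟨y, ?_, rfl⟩
    rw [Set.Finite.mem_toFinset]
    show ‖emb y - 0‖ ≤ R
    rw [sub_zero]
    refine Real.le_sqrt_of_sq_le ?_
    rw [← norm_pow, ← map_pow]
    exact h2
  have h3 : (SqG X).card ≤ {x : Eis | ‖emb x - 0‖ ≤ R}.ncard := by
    rw [Set.ncard_eq_toFinset_card _ hf]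
    exact (Finset.card_le_card hsub).trans Finset.card_image_le
  have h4 : ((SqG X).card : ℝ) ≤ ({x : Eis | ‖emb x - 0‖ ≤ R}.ncard : ℝ) := by exact_mod_cast h3
  have h5 := (abs_le.1 hc).2
  have h6 : 2 * Real.pi / √3 * R ^ 2 ≤ 3.6277 * R ^ 2 :=
    mul_le_mul_of_nonneg_right two_pi_bounds.2 (by positivity)
  rw [← hR2]
  nlinarith [sq_nonneg (R - 1)]

end JGC
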