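import Pool.Agent.JGC.A1a
import Pool.Agent.JGC.A1b
import Pool.Agent.JGC.A2
import Pool.Agent.JGC.A3
import Pool.Agent.JGC.A4
import Pool.Agent.JGC.A5
import Pool.Agent.JG.Cls

/-!
# [JGC-A7] the number of `D` in the class `ClG`
-/

set_option autoImplicit false

namespace JGC

open CM27 CU JZ JC
open scoped Classical

theorem prime_six {p : Eis} (hp : Prime p) (h6 : p ∣ 6) : (2 : Eis) ∣ p ∨ (la : Eis) ∣ p := by
  have hdom := eis_isDomain
  have hpid := eis_pid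
  have h6' : (6 : Eis) = 2 * (-om ^ 2 * la ^ 2) := by decide
  rw [h6'] at h6
  rcases hp.dvd_or_dvd h6 with h | h
  · exact Or.inl (hp.associated_of_dvd two_prime h).symm.dvd
  · right
    have h3 : p ∣ la := by
      rcases hp.dvd_or_dvd h with h | h
      · exfalso
        apply hp.not_isUnit
        refine isUnit_of_dvd_unit h ?_
        rw [eis_isUnit_iff]
        decide
      · exact hp.dvd_of_dvd_pow h
    exact (hp.associated_of_dvd la_prime' h3).symm.dvd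

theorem sieveG (K X : ℕ) : (AG 1 0 X).card ≤ {D : Eis | JG.ClG D ∧ D.norm ≤ X}.ncard +
    (VG 2 K X).card + (VG 4 K X).card + (V6 K X).card + (W2 K X).card + (SqG X).card := by
  have hdom := eis_isDomain
  have hpid := eis_pid
  have hfin : {D : Eis | JG.ClG D ∧ D.norm ≤ X}.Finite := (JC.norm_fin X).subset fun x hx => hx.2
  rw [Set.ncard_eq_toFinset_card _ hfin]
  have hsub : AG 1 0 X ⊆ ((((hfin.toFinset ∪ VG 2 K X) ∪ VG 4 K X) ∪ V6 K X) ∪ W2 K X) ∪ SqG X := by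
    intro x hx
    obtain ⟨h1, h27, h32, -⟩ := (mem_AG 1 0 X x).1 hx
    have hL := F27_la x h27
    have hT := F32_two x h32
    simp only [Finset.mem_union]
    by_cases hsq : ∃ y : Eis, y ^ 2 = x
    · right
      exact Finset.mem_filter.2 ⟨(Set.Finite.mem_toFinset _).2 h1, hsq⟩
    have hx0 : x ≠ 0 := by
      rintro rfl
      exact hsq ⟨0, by ring⟩
    by_cases hV2 : x ∈ VG 2 K X
    · left; left; left; left; right
      exact hV2
    by_cases hV4 : x ∈ VG 4 K X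
    · left; left; left; right
      exact hV4
    by_cases hV6 : x ∈ V6 K X
    · left; left; right
      exact hV6
    by_cases hW : x ∈ W2 K X
    · left; right
      exact hW
    left; left; left; left; left
    rw [Set.Finite.mem_toFinset]
    have hbig : ∀ p : Eis, Prime p → IsCoprime p 6 → p ^ 2 ∣ x → p.norm ≤ K := by
      intro p hp h6 hd
      by_contra hK
      exact hW (Finset.mem_filter.2 ⟨hx, hx0, p, hp, h6, not_le.1 hK, hd⟩)
    refine ⟨⟨?_, hsq, ?_, hT.two, hL.la0, hL.la24, hL.la3⟩, h1⟩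
    · intro p hp hd
      by_cases h6 : p ∣ 6
      · rcases prime_six hp h6 with h | h
        · exact hT.six ((pow_dvd_pow_of_dvd h 6).trans hd)
        · exact hL.six ((pow_dvd_pow_of_dvd h 6).trans hd)
      · have h6' : IsCoprime p 6 := (Prime.coprime_iff_not_dvd hp).2 h6
        have hK := hbig p hp h6' ((pow_dvd_pow p (by norm_num)).trans hd)
        exact hV6 (Finset.mem_filter.2 ⟨hx, p, (mem_PB K p).2 ⟨hK, hp, h6'⟩, hd⟩)
    · intro p c hp h6 hpc hxc t ht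
      have h6' : IsCoprime p 6 := (Prime.coprime_iff_not_dvd hp).2 h6
      have hpt : ¬ p ∣ t := by
        intro h
        apply hpc
        have e : c = (c - t ^ 2) + t * t := by ring
        rw [e]
        exact dvd_add ht (h.mul_right _)
      rcases hxc with hxc | hxc
      · have hK := hbig p hp h6' ⟨c, hxc⟩
        exact hV2 (Finset.mem_filter.2 ⟨hx, p, (mem_PB K p).2 ⟨hK, hp, h6'⟩, c, t, hpt, ht, hxc⟩)
      · have hK := hbig p hp h6' ((pow_dvd_pow p (by norm_num)).trans ⟨c, hxc⟩)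
        exact hV4 (Finset.mem_filter.2 ⟨hx, p, (mem_PB K p).2 ⟨hK, hp, h6'⟩, c, t, hpt, ht, hxc⟩)
  refine (Finset.card_le_card hsub).trans ?_
  have a1 := Finset.card_union_le ((((hfin.toFinset ∪ VG 2 K X) ∪ VG 4 K X) ∪ V6 K X) ∪ W2 K X) (SqG X)
  have a2 := Finset.card_union_le (((hfin.toFinset ∪ VG 2 K X) ∪ VG 4 K X) ∪ V6 K X) (W2 K X)
  have a3 := Finset.card_union_le ((hfin.toFinset ∪ VG 2 K X) ∪ VG 4 K X) (V6 K X)
  have a4 := Finset.card_union_le (hfin.toFinset ∪ VG 2 K X) (VG 4 K X)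
  have a5 := Finset.card_union_le (hfin.toFinset) (VG 2 K X)
  omega

theorem AG_sum (m : Eis) (hm : IsCoprime m 6) (hm0 : m ≠ 0) (R : Finset Eis) (f : Eis → Eis) :
    ∃ C : ℝ, 0 ≤ C ∧ ∀ X : ℕ, ((∑ t ∈ R, (AG m (f t) X).card : ℕ) : ℝ) ≤
      R.card * (2 * Real.pi / √3 * X * (587598 / 746496) / m.norm) + C * (√X + 1) := by
  choose C hC hA using fun t : Eis => AG_card m (f t) hm hm0
  refine ⟨∑ t ∈ R, C t, Finset.sum_nonneg fun t _ => hC t, fun X => ?_⟩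
  push_cast
  calc ∑ t ∈ R, ((AG m (f t) X).card : ℝ) ≤
      ∑ t ∈ R, (2 * Real.pi / √3 * X * (587598 / 746496) / m.norm + C t * (√X + 1)) :=
        Finset.sum_le_sum fun t _ => by
          have := (abs_le.1 (hA t X)).2
          linarith
    _ = _ := by
      rw [Finset.sum_add_distrib, Finset.sum_const, nsmul_eq_mul, Finset.sum_mul]

theorem prime_bound (p : Eis) (hp : Prime p) (h6 : IsCoprime p 6) : ∃ R : Finset Eis,
    (∀ t : Eis, ¬ p ∣ t → ∃ r ∈ R, p ∣ t - r) ∧ ∃ C : ℝ, 0 ≤ C ∧ ∀ X : ℕ,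
      ((∑ t ∈ R, (AG (p ^ 3) (p ^ 2 * t ^ 2) X).card : ℕ) : ℝ) +
        ((∑ t ∈ R, (AG (p ^ 5) (p ^ 4 * t ^ 2) X).card : ℕ) : ℝ) + 2 * ((AG (p ^ 6) 0 X).card : ℝ) ≤
      2 * Real.pi / √3 * X * (587598 / 746496) * (((p.norm : ℝ) - 1) / (p.norm : ℝ) ^ 3 +
        ((p.norm : ℝ) - 1) / (p.norm : ℝ) ^ 5 + 2 / (p.norm : ℝ) ^ 6) + C * (√X + 1) := by
  have hdom := eis_isDomain
  obtain ⟨R, hR1, hR2⟩ := exists_R p hp
  obtain ⟨C1, hC1, h1⟩ := AG_sum (p ^ 3) h6.pow_left (pow_ne_zero 3 hp.ne_zero) R fun t => p ^ 2 * t ^ 2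
  obtain ⟨C2, hC2, h2⟩ := AG_sum (p ^ 5) h6.pow_left (pow_ne_zero 5 hp.ne_zero) R fun t => p ^ 4 * t ^ 2
  obtain ⟨C3, hC3, h3⟩ := AG_card (p ^ 6) 0 h6.pow_left (pow_ne_zero 6 hp.ne_zero)
  refine ⟨R, hR2, C1 + C2 + 2 * C3, by positivity, fun X => ?_⟩
  have hN := norm_one_le hp.ne_zero
  set N : ℝ := (p.norm : ℝ) with hNdef
  set P : ℝ := 2 * Real.pi / √3 * X * (587598 / 746496) with hP
  have hP0 : 0 ≤ P := by
    rw [hP]
    positivity
  have e : ∀ n : ℕ, (((p ^ n).norm : ℤ) : ℝ) = N ^ n := fun n => by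
    rw [map_pow]
    push_cast
    rfl
  have b1 := h1 X
  have b2 := h2 X
  have b3 := (abs_le.1 (h3 X)).2
  rw [e, ← hP] at b1 b2 b3
  have c1 : (R.card : ℝ) * (P / N ^ 3) ≤ (N - 1) * (P / N ^ 3) :=
    mul_le_mul_of_nonneg_right hR1 (by positivity)
  have c2 : (R.card : ℝ) * (P / N ^ 5) ≤ (N - 1) * (P / N ^ 5) :=
    mul_le_mul_of_nonneg_right hR1 (by positivity)
  have e1 : P * ((N - 1) / N ^ 3 + (N - 1) / N ^ 5 + 2 / N ^ 6) =
      (N - 1) * (P / N ^ 3) + (N - 1) * (P / N ^ 5) + 2 * (P / N ^ 6) := by ring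
  rw [e1]
  have e2 : (C1 + C2 + 2 * C3) * (√X + 1) = C1 * (√X + 1) + C2 * (√X + 1) + 2 * (C3 * (√X + 1)) := by ring
  rw [e2]
  linarith

theorem count_clG' : ∃ X₀ : ℕ, ∀ X : ℕ, X₀ ≤ X → {D : Eis | JG.ClG D ∧ D.norm ≤ X}.Finite ∧
    2758 * X ≤ 1000 * {D : Eis | JG.ClG D ∧ D.norm ≤ X}.ncard := by
  obtain ⟨C₂, hC₂, hB2⟩ := W2_card
  obtain ⟨C₄, hC₄, hS⟩ := SqG_card
  obtain ⟨k, hk⟩ : ∃ k : ℕ, C₂ * 20000 + 1 ≤ (k : ℝ) ^ 2 := by
    obtain ⟨k, hk⟩ := exists_nat_ge (C₂ * 20000 + 1)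
    refine ⟨k, hk.trans ?_⟩
    have h1 : (1 : ℝ) ≤ k := by linarith [mul_pos hC₂ (by norm_num : (0 : ℝ) < 20000)]
    nlinarith
  have hk1 : 1 ≤ k := by
    rcases Nat.eq_zero_or_pos k with h | h
    · rw [h] at hk
      norm_num at hk
      linarith
    · exact h
  set K : ℕ := 3 * k ^ 2 with hK
  obtain ⟨C₀, hC₀, hA⟩ := AG_card 1 0 isCoprime_one_left one_ne_zero
  choose! R hR C₁ hC₁ hA1 using fun (p : Eis) (hp : p ∈ PB K) =>
    prime_bound p ((mem_PB K p).1 hp).2.1 ((mem_PB K p).1 hp).2.2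
  set C₃ : ℝ := C₀ + (∑ p ∈ PB K, C₁ p) + C₄ with hC₃
  have hsum0 : 0 ≤ ∑ p ∈ PB K, C₁ p := Finset.sum_nonneg fun p hp => hC₁ p hp
  have hC₃0 : 0 ≤ C₃ := by rw [hC₃]; positivity
  refine ⟨⌈(C₃ * 40000 + 1) ^ 2⌉₊ + 1, fun X hX => ⟨(JC.norm_fin X).subset fun x hx => hx.2, ?_⟩⟩
  have hX0 : (1 : ℝ) ≤ X := by
    have : 1 ≤ X := by omega
    exact_mod_cast this
  have hX1 : (C₃ * 40000 + 1) ^ 2 ≤ X := by
    have h1 : ⌈(C₃ * 40000 + 1) ^ 2⌉₊ ≤ X := by omega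
    exact (Nat.le_ceil _).trans (by exact_mod_cast h1)
  have hsX : C₃ * 40000 + 1 ≤ √X := Real.le_sqrt_of_sq_le hX1
  have hsq : √X * √X = X := Real.mul_self_sqrt (by linarith)
  have herr : C₃ * (√X + 1) ≤ X / 20000 := by
    have h1 : √X + 1 ≤ 2 * √X := by linarith [mul_nonneg hC₃0 (by norm_num : (0 : ℝ) ≤ 40000)]
    have h2 : C₃ * 40000 * √X ≤ X := by
      calc C₃ * 40000 * √X ≤ √X * √X := by
            apply mul_le_mul_of_nonneg_right _ (Real.sqrt_nonneg _)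
            linarith
        _ = X := hsq
    calc C₃ * (√X + 1) ≤ C₃ * (2 * √X) := mul_le_mul_of_nonneg_left h1 hC₃0
      _ = C₃ * 40000 * √X / 20000 := by ring
      _ ≤ X / 20000 := by gcongr
  obtain ⟨hpi1, hpi2⟩ := two_pi_bounds
  set P : ℝ := 2 * Real.pi / √3 with hP
  have hone : ((1 : Eis).norm : ℝ) = 1 := by
    have : (1 : Eis).norm = 1 := by decide
    rw [this]
    norm_num
  have h1 := (abs_le.1 (hA X)).1
  rw [hone, div_one] at h1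
  set Q : ℝ := P * X * (587598 / 746496) with hQ
  have hP0 : 0 ≤ P := by linarith
  have hQ0 : 0 ≤ Q := by rw [hQ]; positivity
  have h2 : (12 : ℝ) * ((VG 2 K X).card + (VG 4 K X).card + (V6 K X).card) ≤
      Q * (386 / 1000) + (∑ p ∈ PB K, C₁ p) * (√X + 1) := by
    have a1 := VG_card 2 K X (by decide) R hR
    have a2 := VG_card 4 K X (by decide) R hR
    have a3 := V6_card K X
    have a4 : (12 : ℝ) * ((VG 2 K X).card + (VG 4 K X).card + (V6 K X).card) ≤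
        ∑ p ∈ PB K, (((∑ t ∈ R p, (AG (p ^ 3) (p ^ 2 * t ^ 2) X).card : ℕ) : ℝ) +
          ((∑ t ∈ R p, (AG (p ^ 5) (p ^ 4 * t ^ 2) X).card : ℕ) : ℝ) + 2 * ((AG (p ^ 6) 0 X).card : ℝ)) := by
      rw [Finset.sum_add_distrib, Finset.sum_add_distrib, ← Finset.mul_sum]
      have b1 : (12 : ℝ) * (VG 2 K X).card ≤
          ∑ p ∈ PB K, ((∑ t ∈ R p, (AG (p ^ 3) (p ^ 2 * t ^ 2) X).card : ℕ) : ℝ) := by exact_mod_cast a1
      have b2 : (12 : ℝ) * (VG 4 K X).card ≤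
          ∑ p ∈ PB K, ((∑ t ∈ R p, (AG (p ^ 5) (p ^ 4 * t ^ 2) X).card : ℕ) : ℝ) := by exact_mod_cast a2
      have b3 : (6 : ℝ) * (V6 K X).card ≤ ∑ p ∈ PB K, ((AG (p ^ 6) 0 X).card : ℝ) := by exact_mod_cast a3
      linarith
    refine a4.trans ?_
    calc _ ≤ ∑ p ∈ PB K, (Q * (((p.norm : ℝ) - 1) / (p.norm : ℝ) ^ 3 +
        ((p.norm : ℝ) - 1) / (p.norm : ℝ) ^ 5 + 2 / (p.norm : ℝ) ^ 6) + C₁ p * (√X + 1)) :=
          Finset.sum_le_sum fun p hp => hA1 p hp X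
      _ = Q * ∑ p ∈ PB K, (((p.norm : ℝ) - 1) / (p.norm : ℝ) ^ 3 +
        ((p.norm : ℝ) - 1) / (p.norm : ℝ) ^ 5 + 2 / (p.norm : ℝ) ^ 6) + (∑ p ∈ PB K, C₁ p) * (√X + 1) := by
          rw [Finset.sum_add_distrib, Finset.mul_sum, Finset.sum_mul]
      _ ≤ _ := by
        have h5 := sum_primesG (PB K) fun p hp => ((mem_PB K p).1 hp).2
        have := mul_le_mul_of_nonneg_left h5 hQ0
        linarith
  have h3 := hB2 k X hk1
  have h4 : C₂ * X / (k : ℝ) ^ 2 ≤ X / 20000 := by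
    rw [div_le_div_iff₀ (by nlinarith [mul_pos hC₂ (by norm_num : (0 : ℝ) < 20000)]) (by norm_num)]
    calc C₂ * X * 20000 = X * (C₂ * 20000) := by ring
      _ ≤ X * (k : ℝ) ^ 2 := by
        apply mul_le_mul_of_nonneg_left _ (by linarith)
        linarith
  have h5 : ((AG 1 0 X).card : ℝ) ≤ ({D : Eis | JG.ClG D ∧ D.norm ≤ X}.ncard : ℝ) + (VG 2 K X).card +
      (VG 4 K X).card + (V6 K X).card + (W2 K X).card + (SqG X).card := by exact_mod_cast sieveG K X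
  have h6 : 3.6275 * X * (587598 / 746496) ≤ Q := by
    rw [hQ]
    gcongr
  have hSX := hS X
  have h7 : (2758 : ℝ) * X ≤ 1000 * ({D : Eis | JG.ClG D ∧ D.norm ≤ X}.ncard : ℝ) := by
    have h8 : C₃ * (√X + 1) = C₀ * (√X + 1) + (∑ p ∈ PB K, C₁ p) * (√X + 1) + C₄ * (√X + 1) := by
      rw [hC₃]
      ring
    have h9 : 0 ≤ C₀ * (√X + 1) := mul_nonneg hC₀ (by positivity)
    have h10 : 0 ≤ (∑ p ∈ PB K, C₁ p) * (√X + 1) := mul_nonneg hsum0 (by positivity)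
    have h11 : 0 ≤ C₄ * (√X + 1) := mul_nonneg hC₄.le (by positivity)
    linarith
  exact_mod_cast h7

end JGC
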