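import Pool.Agent.JXC.A

/-!
# [JGC-B0] the exact fundamental domain: definitions

The Hermitian form of a cubic form with the roots `z + ω^i A + ω^(-i) B` has the centre `z - h(A, B)`,
`h = (A² B̄ + Ā B²) / (|A|² + |B|²)`; the form is reduced exactly if the centre is in the hexagon and
`(|A|² + |B|²)² (1 - |z - h|²) ≤ |A³ - B³|²`.
-/

set_option autoImplicit false

namespace JGC

open CM27 CU JZ JC MeasureTheory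

/-- the closed Voronoi hexagon of `ℤ[ω]` -/
def Hex : Set ℂ := {x | ∀ n : Eis, ‖x‖ ≤ ‖x - emb n‖}

/-- the shift of the centre of the Hermitian form -/
noncomputable def hh (A B : ℂ) : ℂ :=
  (A ^ 2 * (starRingEnd ℂ) B + (starRingEnd ℂ) A * B ^ 2) / ((‖A‖ ^ 2 + ‖B‖ ^ 2 : ℝ) : ℂ)

/-- the coefficients of a form with the roots `z + ω^i A + ω^(-i) B` -/
def Cf (a b c d z A B : ℂ) : Prop :=
  b = -3 * a * z ∧ c = a * (3 * z ^ 2 - 3 * (A * B)) ∧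
    d = a * (-z ^ 3 + 3 * z * (A * B) - A ^ 3 - B ^ 3)

/-- the exact reduction inequality with the centre `κ` -/
def Rd (κ A B : ℂ) : Prop :=
  (‖A‖ ^ 2 + ‖B‖ ^ 2) ^ 2 * (1 - ‖κ‖ ^ 2) ≤ ‖A ^ 3 - B ^ 3‖ ^ 2

/-- the region of the exactly reduced forms with `|disc| ≤ s ^ 4` -/
def RegH (s : ℝ) : Set V4 :=
  {v | v.1 ≠ 0 ∧ ∃ z A B : ℂ, Cf v.1 v.2.1 v.2.2.1 v.2.2.2 z A B ∧ z - hh A B ∈ Hex ∧
    Rd (z - hh A B) A B ∧ 2 / 3 ≤ ‖A‖ ^ 2 + ‖B‖ ^ 2 ∧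
    27 * ‖v.1‖ ^ 4 * ‖A ^ 3 - B ^ 3‖ ^ 2 ≤ s ^ 4}

/-- the part with leading coefficient `≥ ε` -/
def RegHC (ε : ℝ) : Set V4 := {v | v ∈ RegH 1 ∧ ε ≤ ‖v.1‖}

/-- the pairs `(p, q)` with the reduction constant `t` -/
def PQt (t : ℝ) (a : ℂ) : Set (ℂ × ℂ) :=
  {v | ∃ A B : ℂ, v.1 = -3 * a * (A * B) ∧ v.2 = -a * (A ^ 3 + B ^ 3) ∧
    (‖A‖ ^ 2 + ‖B‖ ^ 2) ^ 2 ≤ t * ‖A ^ 3 - B ^ 3‖ ^ 2 ∧ 2 / 3 ≤ ‖A‖ ^ 2 + ‖B‖ ^ 2 ∧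
    27 * ‖a‖ ^ 4 * ‖A ^ 3 - B ^ 3‖ ^ 2 ≤ 1}

/-- the domain of the parameters `(A, w)`, `B = A w`, with the reduction constant `t` -/
def Omt (t : ℝ) : Set (ℂ × ℂ) :=
  {x | |Complex.arg x.1| ≤ Real.pi / 3 ∧ ‖x.2‖ ≤ 1 ∧
    (1 + ‖x.2‖ ^ 2) ^ 2 ≤ t * ‖x.1‖ ^ 2 * ‖1 - x.2 ^ 3‖ ^ 2}

/-- the `(z, p, q)` of the reduced forms with leading coefficient `a` and `|disc| ≤ 1` -/
def EZ (a : ℂ) : Set (ℂ × (ℂ × ℂ)) :=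
  {v | ∃ A B : ℂ, v.2.1 = -3 * a * (A * B) ∧ v.2.2 = -a * (A ^ 3 + B ^ 3) ∧ v.1 - hh A B ∈ Hex ∧
    Rd (v.1 - hh A B) A B ∧ 2 / 3 ≤ ‖A‖ ^ 2 + ‖B‖ ^ 2 ∧ 27 * ‖a‖ ^ 4 * ‖A ^ 3 - B ^ 3‖ ^ 2 ≤ 1}

/-- the parameters `(κ, A, B)` of the reduced forms with leading coefficient `a` and `|disc| ≤ 1` -/
def KA (a : ℂ) : Set (ℂ × (ℂ × ℂ)) :=
  {v | v.1 ∈ Hex ∧ Rd v.1 v.2.1 v.2.2 ∧ 2 / 3 ≤ ‖v.2.1‖ ^ 2 + ‖v.2.2‖ ^ 2 ∧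
    27 * ‖a‖ ^ 4 * ‖v.2.1 ^ 3 - v.2.2 ^ 3‖ ^ 2 ≤ 1}

/-- the reduction constant of the centre `κ` -/
noncomputable def tk (κ : ℂ) : ℝ := 1 / (1 - ‖κ‖ ^ 2)

/-! ### the hexagon -/

theorem hex_exists (z : ℂ) : ∃ n : Eis, z - emb n ∈ Hex := by
  have hf := disc_fin z (‖emb 0 - z‖)
  obtain ⟨n, hn, hmin⟩ := Set.exists_min_image {x : Eis | ‖emb x - z‖ ≤ ‖emb 0 - z‖}
    (fun x => ‖emb x - z‖) hf ⟨0, le_refl (‖emb 0 - z‖)⟩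
  have hall : ∀ m : Eis, ‖emb n - z‖ ≤ ‖emb m - z‖ := fun m => by
    by_cases h : ‖emb m - z‖ ≤ ‖emb 0 - z‖
    · exact hmin m h
    · exact le_trans hn (not_le.1 h).le
  refine ⟨n, fun m => ?_⟩
  have h := hall (n + m)
  rw [norm_sub_rev, norm_sub_rev (emb (n + m)), map_add, ← sub_sub] at h
  exact h

theorem hex_norm {x : ℂ} (hx : x ∈ Hex) : ‖x‖ ^ 2 ≤ 1 / 3 := by
  obtain ⟨n, hn⟩ := exists_near x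
  rw [norm_sub_rev] at hn
  exact (pow_le_pow_left₀ (norm_nonneg _) (hx n) 2).trans hn

theorem hex_closed : IsClosed Hex := by
  have e : Hex = ⋂ n : Eis, {x : ℂ | ‖x‖ ≤ ‖x - emb n‖} := by
    ext x
    simp [Hex]
  rw [e]
  exact isClosed_iInter fun n => isClosed_le (by fun_prop) (by fun_prop)

theorem hex_compact : IsCompact Hex := by
  refine Metric.isCompact_of_isClosed_isBounded hex_closed ?_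
  refine (Metric.isBounded_closedBall (x := (0 : ℂ)) (r := 1)).subset fun x hx => ?_
  rw [mem_closedBall_zero_iff]
  have := hex_norm hx
  nlinarith [norm_nonneg x]

theorem tk_pos {κ : ℂ} (h : κ ∈ Hex) : 0 < tk κ := by
  have := hex_norm h
  unfold tk
  apply one_div_pos.2
  linarith

theorem rd_iff {κ A B : ℂ} (h : κ ∈ Hex) : Rd κ A B ↔
    (‖A‖ ^ 2 + ‖B‖ ^ 2) ^ 2 ≤ tk κ * ‖A ^ 3 - B ^ 3‖ ^ 2 := by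
  have h1 := hex_norm h
  have h2 : 0 < 1 - ‖κ‖ ^ 2 := by linarith
  unfold Rd tk
  rw [div_mul_eq_mul_div, one_mul, le_div_iff₀ h2]

/-- the old inequality -/
theorem rd_old {κ A B : ℂ} (h : κ ∈ Hex) (hr : Rd κ A B) :
    (‖A‖ ^ 2 + ‖B‖ ^ 2) ^ 2 ≤ 3 / 2 * ‖A ^ 3 - B ^ 3‖ ^ 2 := by
  have h1 := hex_norm h
  unfold Rd at hr
  have h2 : 0 ≤ (‖A‖ ^ 2 + ‖B‖ ^ 2) ^ 2 := by positivity
  nlinarith

end JGC
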