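import Pool.Agent.JGC.B0

/-! # [JGC-B1] exact reduction -/

set_option autoImplicit false

namespace JGC

open CM27 CU JZ JC JX JXC MeasureTheory

theorem B1_conj_w : (starRingEnd ℂ) w = -1 - w := by
  refine Complex.ext ?_ ?_
  · rw [Complex.conj_re, Complex.sub_re, Complex.neg_re, Complex.one_re, w_re]
    norm_num
  · rw [Complex.conj_im, Complex.sub_im, Complex.neg_im, Complex.one_im, w_im]
    norm_num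

theorem B1_sq (z : ℂ) : ((‖z‖ ^ 2 : ℝ) : ℂ) = z * (starRingEnd ℂ) z := by
  rw [Complex.mul_conj']
  push_cast
  rfl

/-- the centre of the Hermitian form -/
theorem B1_key (A B : ℂ) : ((‖A - B‖ ^ 2 : ℝ) : ℂ) * (A + B) +
    ((‖A - w * B‖ ^ 2 : ℝ) : ℂ) * (w * A + w ^ 2 * B) +
    ((‖A - w ^ 2 * B‖ ^ 2 : ℝ) : ℂ) * (w ^ 2 * A + w * B) =
    -3 * (A ^ 2 * (starRingEnd ℂ) B + (starRingEnd ℂ) A * B ^ 2) := by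
  rw [B1_sq, B1_sq, B1_sq]
  simp only [map_sub, map_mul, map_pow, B1_conj_w]
  obtain ⟨a, ha⟩ : ∃ a, a = (starRingEnd ℂ) A := ⟨_, rfl⟩
  obtain ⟨b, hb⟩ : ∃ b, b = (starRingEnd ℂ) B := ⟨_, rfl⟩
  rw [← ha, ← hb]
  linear_combination (w ^ 4 * A * B * b + w ^ 3 * A * B * b + w ^ 3 * B ^ 2 * b - w ^ 2 * A ^ 2 * b
    - w ^ 2 * A * B * a - w ^ 2 * A * B * b - w * A ^ 2 * b + w * A * B * a - w * A * B * b
    - 2 * w * B ^ 2 * a - w * B ^ 2 * b + A ^ 2 * a + 2 * A ^ 2 * b + 2 * B ^ 2 * a + B ^ 2 * b) * w_sq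

/-- The reduced parametrisation from reduced roots. -/
theorem B1_par {a b c d r₀ r₁ r₂ : ℂ} (hb : b = -a * (r₀ + r₁ + r₂))
    (hc : c = a * (r₀ * r₁ + r₀ * r₂ + r₁ * r₂)) (hd : d = -a * (r₀ * r₁ * r₂))
    (h0 : r₁ ≠ r₂) (h1 : r₂ ≠ r₀) (h2 : r₀ ≠ r₁)
    (h : ∀ n : Eis, ‖r₁ - r₂‖ ^ 2 + ‖r₂ - r₀‖ ^ 2 + ‖r₀ - r₁‖ ^ 2 ≤
      ‖r₁ - r₂‖ ^ 2 * ‖emb n - r₀‖ ^ 2 + ‖r₂ - r₀‖ ^ 2 * ‖emb n - r₁‖ ^ 2 +
        ‖r₀ - r₁‖ ^ 2 * ‖emb n - r₂‖ ^ 2) :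
    ∃ z A B : ℂ, Cf a b c d z A B ∧ A ^ 3 ≠ B ^ 3 ∧ ∀ n : Eis, Rd (z - hh A B - emb n) A B := by
  obtain ⟨z, hz⟩ : ∃ z : ℂ, z = (r₀ + r₁ + r₂) / 3 := ⟨_, rfl⟩
  obtain ⟨A, hA⟩ : ∃ A : ℂ, A = (r₀ + w ^ 2 * r₁ + w * r₂) / 3 := ⟨_, rfl⟩
  obtain ⟨B, hB⟩ : ∃ B : ℂ, B = (r₀ + w * r₁ + w ^ 2 * r₂) / 3 := ⟨_, rfl⟩
  have e0 : r₀ = z + A + B := by
    rw [hz, hA, hB]
    linear_combination (-(r₁ + r₂) / 3) * w_sq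
  have e1 : r₁ = z + w * A + w ^ 2 * B := by
    rw [hz, hA, hB]
    linear_combination (-(r₁ * (2 * (w - 1)) + r₂ * (w ^ 2 - w + 1) + r₀) / 3) * w_sq
  have e2 : r₂ = z + w ^ 2 * A + w * B := by
    rw [hz, hA, hB]
    linear_combination (-(r₂ * (2 * (w - 1)) + r₁ * (w ^ 2 - w + 1) + r₀) / 3) * w_sq
  obtain ⟨n0, n1, n2⟩ := norm_diff z A B
  rw [← e1, ← e2] at n0
  rw [← e2, ← e0] at n1
  rw [← e0, ← e1] at n2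
  have hs := norm_sum A B
  have hp : ‖A - B‖ ^ 2 * ‖A - w * B‖ ^ 2 * ‖A - w ^ 2 * B‖ ^ 2 = ‖A ^ 3 - B ^ 3‖ ^ 2 := by
    rw [← prod_AB, norm_mul, norm_mul]
    ring
  have hne : A ^ 3 ≠ B ^ 3 := by
    intro he
    rw [← sub_eq_zero, ← prod_AB] at he
    rcases mul_eq_zero.1 he with he | he
    · rcases mul_eq_zero.1 he with he | he
      · rw [he] at n0
        simp [sub_eq_zero, h0] at n0
      · rw [he] at n1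
        simp [sub_eq_zero, h1] at n1
    · rw [he] at n2
      simp [sub_eq_zero, h2] at n2
  have hNpos : 0 < ‖A‖ ^ 2 + ‖B‖ ^ 2 := by
    have g1 : 0 < ‖r₁ - r₂‖ ^ 2 := by
      have := norm_pos_iff.2 (sub_ne_zero.2 h0)
      positivity
    rw [n0] at g1
    have g2 : 0 ≤ ‖A - w * B‖ ^ 2 := by positivity
    have g3 : 0 ≤ ‖A - w ^ 2 * B‖ ^ 2 := by positivity
    linarith
  refine ⟨z, A, B, ⟨?_, ?_, ?_⟩, hne, ?_⟩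
  · rw [hb, hz]
    ring
  · rw [hc, ← sym_two z A B, ← e0, ← e1, ← e2]
  · rw [hd, show a * (-z ^ 3 + 3 * z * (A * B) - A ^ 3 - B ^ 3) =
      -a * (z ^ 3 + A ^ 3 + B ^ 3 - 3 * z * (A * B)) by ring, ← sym_three z A B, ← e0, ← e1, ← e2]
  · intro n
    have hn := h n
    obtain ⟨N, hN⟩ : ∃ N : ℝ, N = ‖A‖ ^ 2 + ‖B‖ ^ 2 := ⟨_, rfl⟩
    rw [← hN] at hNpos hs
    have hm : ‖r₁ - r₂‖ ^ 2 + ‖r₂ - r₀‖ ^ 2 + ‖r₀ - r₁‖ ^ 2 = 9 * N := by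
      rw [n0, n1, n2]
      linarith
    have hl := lagr (‖r₁ - r₂‖ ^ 2) (‖r₂ - r₀‖ ^ 2) (‖r₀ - r₁‖ ^ 2) (emb n) r₀ r₁ r₂
    have hNC : (N : ℂ) ≠ 0 := by exact_mod_cast hNpos.ne'
    have hcen : ((‖r₁ - r₂‖ ^ 2 + ‖r₂ - r₀‖ ^ 2 + ‖r₀ - r₁‖ ^ 2 : ℝ) : ℂ) * emb n -
        (((‖r₁ - r₂‖ ^ 2 : ℝ) : ℂ) * r₀ + ((‖r₂ - r₀‖ ^ 2 : ℝ) : ℂ) * r₁ +
          ((‖r₀ - r₁‖ ^ 2 : ℝ) : ℂ) * r₂) = ((-(9 * N) : ℝ) : ℂ) * (z - hh A B - emb n) := by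
      have k1 : ((‖r₁ - r₂‖ ^ 2 : ℝ) : ℂ) * r₀ + ((‖r₂ - r₀‖ ^ 2 : ℝ) : ℂ) * r₁ +
          ((‖r₀ - r₁‖ ^ 2 : ℝ) : ℂ) * r₂ = ((9 * N : ℝ) : ℂ) * z -
          9 * (A ^ 2 * (starRingEnd ℂ) B + (starRingEnd ℂ) A * B ^ 2) := by
        have k2 : ((‖r₁ - r₂‖ ^ 2 : ℝ) : ℂ) * r₀ + ((‖r₂ - r₀‖ ^ 2 : ℝ) : ℂ) * r₁ +
            ((‖r₀ - r₁‖ ^ 2 : ℝ) : ℂ) * r₂ =
            ((‖r₁ - r₂‖ ^ 2 + ‖r₂ - r₀‖ ^ 2 + ‖r₀ - r₁‖ ^ 2 : ℝ) : ℂ) * z +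
            (((‖r₁ - r₂‖ ^ 2 : ℝ) : ℂ) * (A + B) +
            ((‖r₂ - r₀‖ ^ 2 : ℝ) : ℂ) * (w * A + w ^ 2 * B) +
            ((‖r₀ - r₁‖ ^ 2 : ℝ) : ℂ) * (w ^ 2 * A + w * B)) := by
          obtain ⟨x0, hx0⟩ : ∃ x0 : ℝ, x0 = ‖r₁ - r₂‖ ^ 2 := ⟨_, rfl⟩
          obtain ⟨x1, hx1⟩ : ∃ x1 : ℝ, x1 = ‖r₂ - r₀‖ ^ 2 := ⟨_, rfl⟩
          obtain ⟨x2, hx2⟩ : ∃ x2 : ℝ, x2 = ‖r₀ - r₁‖ ^ 2 := ⟨_, rfl⟩
          rw [← hx0, ← hx1, ← hx2, e0, e1, e2]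
          push_cast
          ring
        rw [k2, hm, n0, n1, n2]
        have k3 := B1_key A B
        push_cast at k3 ⊢
        linear_combination 3 * k3
      rw [k1, hm]
      have k4 : hh A B * (N : ℂ) = A ^ 2 * (starRingEnd ℂ) B + (starRingEnd ℂ) A * B ^ 2 := by
        rw [hh, ← hN, div_mul_cancel₀ _ hNC]
      rw [← k4]
      push_cast
      ring
    rw [hcen, norm_mul, mul_pow, Complex.norm_real, Real.norm_eq_abs, sq_abs, hm] at hl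
    have hl2 : ‖r₁ - r₂‖ ^ 2 * ‖r₂ - r₀‖ ^ 2 * ‖r₀ - r₁‖ ^ 2 = 27 * ‖A ^ 3 - B ^ 3‖ ^ 2 := by
      rw [n0, n1, n2, ← hp]
      ring
    have hm9 : 9 * N * (9 * N) ≤ 9 * N * (‖r₁ - r₂‖ ^ 2 * ‖emb n - r₀‖ ^ 2 +
        ‖r₂ - r₀‖ ^ 2 * ‖emb n - r₁‖ ^ 2 + ‖r₀ - r₁‖ ^ 2 * ‖emb n - r₂‖ ^ 2) := by
      apply mul_le_mul_of_nonneg_left _ (by linarith)
      rw [← hm]
      exact hn
    rw [hl] at hm9
    show (‖A‖ ^ 2 + ‖B‖ ^ 2) ^ 2 * (1 - ‖z - hh A B - emb n‖ ^ 2) ≤ ‖A ^ 3 - B ^ 3‖ ^ 2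
    rw [← hN]
    nlinarith

/-- B1 -/
theorem redH (a b c d : Eis) (hd : disc a b c d ≠ 0)
    (hz : ∀ x y : Eis, val a b c d x y = 0 → x = 0 ∧ y = 0) :
    ∃ p q r s : Eis, p * s - q * r = 1 ∧ cA a b c d p q r s ≠ 0 ∧
      ∃ z A B : ℂ, Cf (emb (cA a b c d p q r s)) (emb (cB a b c d p q r s))
        (emb (cC a b c d p q r s)) (emb (cD a b c d p q r s)) z A B ∧ A ^ 3 ≠ B ^ 3 ∧
        ∀ n : Eis, Rd (z - hh A B - emb n) A B := by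
  have ha : a ≠ 0 := by
    rintro rfl
    exact one_ne_zero (hz 1 0 (by simp [val])).1
  have hea : emb a ≠ 0 := fun h => ha (emb_injective (by rw [h, map_zero]))
  obtain ⟨r₀, r₁, r₂, eb, ec, ed⟩ := exists_roots (emb a) (emb b) (emb c) (emb d) hea
  have hdisc : emb (disc a b c d) = (emb a) ^ 4 * ((r₁ - r₂) * (r₂ - r₀) * (r₀ - r₁)) ^ 2 := by
    simp only [disc, map_sub, map_add, map_mul, map_pow, map_ofNat, eb, ec, ed]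
    ring
  have hdisc0 : emb (disc a b c d) ≠ 0 := fun h => hd (emb_injective (by rw [h, map_zero]))
  rw [hdisc] at hdisc0
  have h0 : r₁ ≠ r₂ := by
    rintro rfl
    simp at hdisc0
  have h1 : r₂ ≠ r₀ := by
    rintro rfl
    simp at hdisc0
  have h2 : r₀ ≠ r₁ := by
    rintro rfl
    simp at hdisc0
  obtain ⟨p, q, r, s, hdet, hmin⟩ := exists_min h0 h1 h2
  have hdet' : emb p * emb s - emb q * emb r = 1 := by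
    rw [← map_mul, ← map_mul, ← map_sub, hdet, map_one]
  have hne : ¬ (p = 0 ∧ r = 0) := by
    rintro ⟨rfl, rfl⟩
    simp at hdet
  have hA0 : cA a b c d p q r s ≠ 0 := fun h => hne (hz p r h)
  have hA0' : emb (cA a b c d p q r s) ≠ 0 := fun h => hA0 (emb_injective (by rw [h, map_zero]))
  set P₀ : ℂ := emb p - r₀ * emb r with hP0
  set P₁ : ℂ := emb p - r₁ * emb r with hP1
  set P₂ : ℂ := emb p - r₂ * emb r with hP2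
  set Q₀ : ℂ := r₀ * emb s - emb q with hQ0
  set Q₁ : ℂ := r₁ * emb s - emb q with hQ1
  set Q₂ : ℂ := r₂ * emb s - emb q with hQ2
  have eA : emb (cA a b c d p q r s) = emb a * (P₀ * P₁ * P₂) := by
    simp only [cA, val, map_add, map_mul, map_pow, eb, ec, ed, hP0, hP1, hP2]
    ring
  have eB : emb (cB a b c d p q r s) = -emb a * (Q₀ * P₁ * P₂ + P₀ * Q₁ * P₂ + P₀ * P₁ * Q₂) := by
    simp only [cB, map_add, map_mul, map_pow, map_ofNat, eb, ec, ed, hP0, hP1, hP2, hQ0, hQ1, hQ2]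
    ring
  have eC : emb (cC a b c d p q r s) = emb a * (Q₀ * Q₁ * P₂ + Q₀ * P₁ * Q₂ + P₀ * Q₁ * Q₂) := by
    simp only [cC, map_add, map_mul, map_pow, map_ofNat, eb, ec, ed, hP0, hP1, hP2, hQ0, hQ1, hQ2]
    ring
  have eD : emb (cD a b c d p q r s) = -emb a * (Q₀ * Q₁ * Q₂) := by
    simp only [cD, val, map_add, map_mul, map_pow, eb, ec, ed, hQ0, hQ1, hQ2]
    ring
  rw [eA] at hA0'
  have n0 : P₀ ≠ 0 := fun h => hA0' (by rw [h]; ring)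
  have n1 : P₁ ≠ 0 := fun h => hA0' (by rw [h]; ring)
  have n2 : P₂ ≠ 0 := fun h => hA0' (by rw [h]; ring)
  have d0 : Q₁ / P₁ - Q₂ / P₂ = (r₁ - r₂) / (P₁ * P₂) := by
    rw [div_sub_div _ _ n1 n2]
    congr 1
    rw [hP1, hP2, hQ1, hQ2]
    linear_combination (r₁ - r₂) * hdet'
  have d1 : Q₂ / P₂ - Q₀ / P₀ = (r₂ - r₀) / (P₂ * P₀) := by
    rw [div_sub_div _ _ n2 n0]
    congr 1
    rw [hP0, hP2, hQ0, hQ2]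
    linear_combination (r₂ - r₀) * hdet'
  have d2 : Q₀ / P₀ - Q₁ / P₁ = (r₀ - r₁) / (P₀ * P₁) := by
    rw [div_sub_div _ _ n0 n1]
    congr 1
    rw [hP0, hP1, hQ0, hQ1]
    linear_combination (r₀ - r₁) * hdet'
  refine ⟨p, q, r, s, hdet, hA0, ?_⟩
  refine B1_par (r₀ := Q₀ / P₀) (r₁ := Q₁ / P₁) (r₂ := Q₂ / P₂) ?_ ?_ ?_ ?_ ?_ ?_ ?_
  · rw [eA, eB]
    field_simp
  · rw [eA, eC]
    field_simp
  · rw [eA, eD]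
    field_simp
  · rw [← sub_ne_zero, d0]
    exact div_ne_zero (sub_ne_zero.2 h0) (mul_ne_zero n1 n2)
  · rw [← sub_ne_zero, d1]
    exact div_ne_zero (sub_ne_zero.2 h1) (mul_ne_zero n2 n0)
  · rw [← sub_ne_zero, d2]
    exact div_ne_zero (sub_ne_zero.2 h2) (mul_ne_zero n0 n1)
  · intro n
    have hne' : ¬ (n * p + q = 0 ∧ n * r + s = 0) := by
      rintro ⟨e1, e2⟩
      have : p * s - q * r = 0 := by linear_combination p * e2 - r * e1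
      rw [this] at hdet
      exact zero_ne_one hdet
    have hm := hmin _ _ hne'
    unfold HF at hm
    rw [← hP0, ← hP1, ← hP2] at hm
    have m0 : emb (n * p + q) - r₀ * emb (n * r + s) = emb n * P₀ - Q₀ := by
      rw [map_add, map_add, map_mul, map_mul, hP0, hQ0]
      ring
    have m1 : emb (n * p + q) - r₁ * emb (n * r + s) = emb n * P₁ - Q₁ := by
      rw [map_add, map_add, map_mul, map_mul, hP1, hQ1]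
      ring
    have m2 : emb (n * p + q) - r₂ * emb (n * r + s) = emb n * P₂ - Q₂ := by
      rw [map_add, map_add, map_mul, map_mul, hP2, hQ2]
      ring
    rw [m0, m1, m2] at hm
    have f0 : emb n - Q₀ / P₀ = (emb n * P₀ - Q₀) / P₀ := by field_simp
    have f1 : emb n - Q₁ / P₁ = (emb n * P₁ - Q₁) / P₁ := by field_simp
    have f2 : emb n - Q₂ / P₂ = (emb n * P₂ - Q₂) / P₂ := by field_simp
    rw [d0, d1, d2, f0, f1, f2]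
    simp only [norm_div, norm_mul]
    have g0 := norm_pos_iff.2 n0
    have g1 := norm_pos_iff.2 n1
    have g2 := norm_pos_iff.2 n2
    set N₀ := ‖P₀‖
    set N₁ := ‖P₁‖
    set N₂ := ‖P₂‖
    have e1 : (‖r₁ - r₂‖ / (N₁ * N₂)) ^ 2 + (‖r₂ - r₀‖ / (N₂ * N₀)) ^ 2 +
        (‖r₀ - r₁‖ / (N₀ * N₁)) ^ 2 =
        (‖r₁ - r₂‖ ^ 2 * N₀ ^ 2 + ‖r₂ - r₀‖ ^ 2 * N₁ ^ 2 + ‖r₀ - r₁‖ ^ 2 * N₂ ^ 2) /
          (N₀ * N₁ * N₂) ^ 2 := by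
      field_simp
    have e2 : (‖r₁ - r₂‖ / (N₁ * N₂)) ^ 2 * (‖emb n * P₀ - Q₀‖ / N₀) ^ 2 +
        (‖r₂ - r₀‖ / (N₂ * N₀)) ^ 2 * (‖emb n * P₁ - Q₁‖ / N₁) ^ 2 +
        (‖r₀ - r₁‖ / (N₀ * N₁)) ^ 2 * (‖emb n * P₂ - Q₂‖ / N₂) ^ 2 =
        (‖r₁ - r₂‖ ^ 2 * ‖emb n * P₀ - Q₀‖ ^ 2 + ‖r₂ - r₀‖ ^ 2 * ‖emb n * P₁ - Q₁‖ ^ 2 +
          ‖r₀ - r₁‖ ^ 2 * ‖emb n * P₂ - Q₂‖ ^ 2) / (N₀ * N₁ * N₂) ^ 2 := by
      field_simp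
    rw [e1, e2]
    exact div_le_div_of_nonneg_right hm (by positivity)

end JGC
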