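import Pool.Agent.JGC.B0

/-!
# [JGC-B2] the invariance of `h`, the cusp
-/

set_option autoImplicit false

namespace JGC

open CM27 CU JZ JC JX JXC MeasureTheory
open scoped Pointwise

theorem B2_norm3 {x y : ℂ} (h : x ^ 3 = y ^ 3) : ‖x‖ = ‖y‖ := by
  have h1 : ‖x‖ ^ 3 = ‖y‖ ^ 3 := by rw [← norm_pow, ← norm_pow, h]
  exact (pow_left_inj₀ (norm_nonneg _) (norm_nonneg _) (by norm_num)).1 h1

theorem B2_symm (A B : ℂ) : hh A B = hh B A := by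
  unfold hh
  rw [add_comm (‖A‖ ^ 2)]
  congr 1
  ring

theorem B2_zero (B : ℂ) : hh 0 B = 0 := by
  unfold hh
  simp

theorem B2_case {A B A' B' : ℂ} (h1 : A * B = A' * B') (h2 : A ^ 3 = A' ^ 3) (h3 : B ^ 3 = B' ^ 3) :
    hh A B = hh A' B' := by
  have n1 := B2_norm3 h2
  have n2 := B2_norm3 h3
  by_cases hA' : A' = 0
  · have hA : A = 0 := by
      rw [hA', norm_zero, norm_eq_zero] at n1
      exact n1
    rw [hA', hA, B2_zero, B2_zero]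
  · obtain ⟨ζ, rfl⟩ : ∃ ζ, A = ζ * A' := ⟨A / A', by field_simp⟩
    have hζ3 : ζ ^ 3 = 1 := by
      rw [mul_pow] at h2
      exact mul_right_cancel₀ (pow_ne_zero 3 hA') (h2.trans (one_mul _).symm)
    have hζn : ‖ζ‖ = 1 := by
      have : ‖ζ‖ = ‖(1 : ℂ)‖ := B2_norm3 (by rw [hζ3, one_pow])
      rw [this, norm_one]
    have hB : B' = ζ * B := by
      apply mul_left_cancel₀ hA'
      rw [← h1]
      ring
    have hc : ζ * (starRingEnd ℂ) ζ = 1 := by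
      rw [Complex.mul_conj, Complex.normSq_eq_norm_sq, hζn]
      norm_num
    have hcc : (starRingEnd ℂ) ζ = ζ ^ 2 := by
      linear_combination ζ ^ 2 * hc - (starRingEnd ℂ) ζ * hζ3
    unfold hh
    rw [n1, n2, hB, map_mul, map_mul, hcc]
    congr 1
    ring

theorem hh_inv {A B A' B' : ℂ} (h1 : A * B = A' * B') (h2 : A ^ 3 + B ^ 3 = A' ^ 3 + B' ^ 3) :
    hh A B = hh A' B' ∧ ‖A‖ ^ 2 + ‖B‖ ^ 2 = ‖A'‖ ^ 2 + ‖B'‖ ^ 2 ∧
      ‖A ^ 3 - B ^ 3‖ = ‖A' ^ 3 - B' ^ 3‖ := by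
  have h3 : (A * B) ^ 3 = (A' * B') ^ 3 := by rw [h1]
  have h4 : (A ^ 3 - A' ^ 3) * (A ^ 3 - B' ^ 3) = 0 := by
    linear_combination A ^ 3 * h2 - h3
  rcases mul_eq_zero.1 h4 with h | h
  · have e1 : A ^ 3 = A' ^ 3 := sub_eq_zero.1 h
    have e2 : B ^ 3 = B' ^ 3 := by linear_combination h2 - e1
    refine ⟨B2_case h1 e1 e2, ?_, ?_⟩
    · rw [B2_norm3 e1, B2_norm3 e2]
    · rw [e1, e2]
  · have e1 : A ^ 3 = B' ^ 3 := sub_eq_zero.1 h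
    have e2 : B ^ 3 = A' ^ 3 := by linear_combination h2 - e1
    refine ⟨?_, ?_, ?_⟩
    · rw [B2_symm A' B']
      exact B2_case (h1.trans (mul_comm _ _)) e1 e2
    · rw [B2_norm3 e1, B2_norm3 e2, add_comm]
    · rw [e1, e2, norm_sub_rev]

/-- the translated form -/
def B2_tr (n : Eis) (g : O4) : O4 :=
  (g.1, 3 * g.1 * n + g.2.1, 3 * g.1 * n ^ 2 + 2 * g.2.1 * n + g.2.2.1,
    g.1 * n ^ 3 + g.2.1 * n ^ 2 + g.2.2.1 * n + g.2.2.2)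

theorem B2_tr_neg (n : Eis) (g : O4) : B2_tr (-n) (B2_tr n g) = g := by
  obtain ⟨a, b, c, d⟩ := g
  simp only [B2_tr, Prod.mk.injEq]
  refine ⟨trivial, ?_, ?_, ?_⟩ <;> ring

theorem B2_tr_Cf {n : Eis} {g : O4} {z A B : ℂ}
    (h : Cf (emb g.1) (emb g.2.1) (emb g.2.2.1) (emb g.2.2.2) z A B) :
    Cf (emb (B2_tr n g).1) (emb (B2_tr n g).2.1) (emb (B2_tr n g).2.2.1) (emb (B2_tr n g).2.2.2)
      (z - emb n) A B := by
  obtain ⟨hb, hc, hd⟩ := h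
  refine ⟨?_, ?_, ?_⟩ <;>
  · simp only [B2_tr, map_add, map_mul, map_pow, map_ofNat, hb, hc, hd]
    ring

/-- the set of the reduced forms with small leading coefficient -/
def B2_S (s ε : ℝ) : Set O4 := {g : O4 | emb4 g ∈ RegH s ∧ ‖emb g.1‖ ≤ ε * s}

theorem B2_reg {s ε : ℝ} {g : O4} (h : g ∈ B2_S s ε) : ∃ n : Eis,
    emb4 (B2_tr n g) ∈ Reg s ∧ ‖emb (B2_tr n g).1‖ ≤ ε * s := by
  obtain ⟨⟨ha, z, A, B, hCf, hHex, hRd, h23, hdisc⟩, hle⟩ := h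
  obtain ⟨n, hn⟩ := rect_cover one_pos 0 z
  refine ⟨n, ⟨ha, z - emb n, A, B, ?_, ?_, hdisc⟩, hle⟩
  · obtain ⟨a1, a2, a3, a4⟩ := hn
    simp only [Complex.ofReal_one, one_mul, zero_add, Complex.zero_re, Complex.zero_im] at a1 a2 a3 a4
    refine ⟨?_, ?_, ?_, ?_⟩
    · rw [Complex.sub_re]; linarith
    · rw [Complex.sub_re]; linarith
    · rw [Complex.sub_im]; linarith
    · rw [Complex.sub_im]; linarith
  · obtain ⟨hb, hc, hd⟩ := B2_tr_Cf (n := n) hCf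
    exact ⟨hb, hc, hd, rd_old hHex hRd, h23⟩

theorem B2_kappa (s ε : ℝ) (g' : O4) : ∃ κ : ℂ, ∀ (n : Eis) (g : O4), g ∈ B2_S s ε →
    B2_tr n g = g' → ‖emb n - κ‖ ≤ 1 := by
  by_cases hex : ∃ (n : Eis) (g : O4), g ∈ B2_S s ε ∧ B2_tr n g = g'
  · obtain ⟨n₀, g₀, ⟨⟨ha₀, z₀, A₀, B₀, hCf₀, hHex₀, -⟩, -⟩, h₀⟩ := hex
    refine ⟨hh A₀ B₀ - z₀ + emb n₀, fun n g hg hn => ?_⟩
    obtain ⟨⟨ha, z, A, B, hCf, hHex, -⟩, -⟩ := hg
    have c1 := B2_tr_Cf (n := n) hCf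
    have c0 := B2_tr_Cf (n := n₀) hCf₀
    rw [hn] at c1
    rw [h₀] at c0
    have ha' : emb g'.1 ≠ 0 := by
      rw [← hn]
      exact ha
    obtain ⟨b1, b2, b3⟩ := c1
    obtain ⟨d1, d2, d3⟩ := c0
    have hz : z - emb n = z₀ - emb n₀ := by
      have : -3 * emb g'.1 ≠ 0 := mul_ne_zero (by norm_num) ha'
      exact mul_left_cancel₀ this (b1.symm.trans d1)
    have hAB : A * B = A₀ * B₀ := by
      have h1 := mul_left_cancel₀ ha' (b2.symm.trans d2)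
      rw [hz] at h1
      linear_combination -h1 / 3
    have hAB3 : A ^ 3 + B ^ 3 = A₀ ^ 3 + B₀ ^ 3 := by
      have h1 := mul_left_cancel₀ ha' (b3.symm.trans d3)
      rw [hz, hAB] at h1
      linear_combination -h1
    have hhh := (hh_inv hAB hAB3).1
    have e : emb n - (hh A₀ B₀ - z₀ + emb n₀) = z - hh A B := by
      rw [hhh]
      linear_combination -hz
    rw [e]
    have := hex_norm hHex
    nlinarith [norm_nonneg (z - hh A B)]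
  · refine ⟨0, fun n g hg hn => absurd ⟨n, g, hg, hn⟩ hex⟩

theorem cuspH : ∃ C : ℝ, 0 < C ∧ ∀ s ε : ℝ, 1 ≤ s → 0 < ε → ε ≤ 1 →
    {g : O4 | emb4 g ∈ RegH s ∧ ‖emb g.1‖ ≤ ε * s}.Finite ∧
    ({g : O4 | emb4 g ∈ RegH s ∧ ‖emb g.1‖ ≤ ε * s}.ncard : ℝ) ≤ C * √ε * s ^ 8 := by
  classical
  obtain ⟨C, hC, hcusp⟩ := cusp
  refine ⟨30 * C, by positivity, fun s ε hs hε hε1 => ?_⟩
  obtain ⟨hfin, hcard⟩ := hcusp s ε hs hε hε1
  have hex : ∀ g : O4, ∃ n : Eis, g ∈ B2_S s ε →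
      emb4 (B2_tr n g) ∈ Reg s ∧ ‖emb (B2_tr n g).1‖ ≤ ε * s := fun g => by
    by_cases hg : g ∈ B2_S s ε
    · obtain ⟨n, hn⟩ := B2_reg hg
      exact ⟨n, fun _ => hn⟩
    · exact ⟨0, fun h => absurd h hg⟩
  choose n hn using hex
  choose κ hκ using B2_kappa s ε
  set f : O4 → O4 × Eis := fun g => (B2_tr (n g) g, n g) with hf
  have hinj : Function.Injective f := by
    intro g₁ g₂ h
    simp only [hf, Prod.mk.injEq] at h
    obtain ⟨h1, h2⟩ := h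
    rw [← B2_tr_neg (n g₁) g₁, h1, h2, B2_tr_neg]
  obtain ⟨h1, h2⟩ := fib_card hfin.toFinset (fun g' => {m : Eis | ‖emb m - κ g'‖ ≤ 1}) (fun _ => 30)
    (f '' B2_S s ε) (by
      rintro p ⟨g, hg, rfl⟩
      exact ⟨hfin.mem_toFinset.2 (hn g hg), hκ _ (n g) g hg rfl⟩) (fun g' _ =>
        ⟨disc_fin _ _, (disc_le _ 1 zero_le_one).trans (by norm_num)⟩)
  have hfin2 : (B2_S s ε).Finite := Set.Finite.of_finite_image h1 hinj.injOn
  refine ⟨hfin2, ?_⟩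
  have h3 : (B2_S s ε).ncard = (f '' B2_S s ε).ncard := (Set.ncard_image_of_injective _ hinj).symm
  show ((B2_S s ε).ncard : ℝ) ≤ _
  rw [h3]
  refine h2.trans ?_
  rw [Finset.sum_const, nsmul_eq_mul, ← Set.ncard_eq_toFinset_card _ hfin]
  nlinarith

end JGC
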