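import Pool.Agent.JGC.B0

/-!
# [JGC-B3] the integral over the hexagon

`Hex` is contained in `{|x| ≤ 1/2, |x| + √3 |y| ≤ 1}`, `1/(1 - r) ≤ 1 + r + r² + r³ + (3/2) r⁴` for
`r ≤ 1/3`, and the integral of the polynomial over this domain is `797551/(453600 √3) ≤ 1.01514`.
-/

set_option autoImplicit false

namespace JGC

open CM27 CU JZ JC MeasureTheory

/-- the majorant -/
noncomputable def B3_f (r : ℝ) : ℝ := 1 + r + r ^ 2 + r ^ 3 + 3 / 2 * r ^ 4

theorem B3_le {r : ℝ} (_h0 : 0 ≤ r) (h : r ≤ 1 / 3) : 1 / (1 - r) ≤ B3_f r := by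
  unfold B3_f
  rw [div_le_iff₀ (by linarith)]
  have h1 : 0 ≤ r ^ 4 * (1 - 3 * r) := mul_nonneg (by positivity) (by linarith)
  nlinarith

theorem B3_f_nonneg {r : ℝ} (h0 : 0 ≤ r) : 0 ≤ B3_f r := by
  unfold B3_f
  positivity

theorem B3_f_cont : Continuous B3_f := by
  unfold B3_f
  fun_prop

/-- the hexagon in real coordinates -/
def B3_S : Set (ℝ × ℝ) := {p | |p.1| ≤ 1 / 2 ∧ |p.1| + √3 * |p.2| ≤ 1}

theorem B3_S_meas : MeasurableSet B3_S := by
  have h1 : IsClosed {p : ℝ × ℝ | |p.1| ≤ 1 / 2} := isClosed_le (by fun_prop) (by fun_prop)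
  have h2 : IsClosed {p : ℝ × ℝ | |p.1| + √3 * |p.2| ≤ 1} := isClosed_le (by fun_prop) (by fun_prop)
  exact (h1.inter h2).measurableSet

theorem B3_half {x : ℂ} {n : Eis} (h : ‖x‖ ≤ ‖x - emb n‖) :
    2 * (x.re * (emb n).re + x.im * (emb n).im) ≤ (emb n).re ^ 2 + (emb n).im ^ 2 := by
  have h1 := pow_le_pow_left₀ (norm_nonneg _) h 2
  rw [Complex.sq_norm, Complex.sq_norm, Complex.normSq_apply, Complex.normSq_apply,
    Complex.sub_re, Complex.sub_im] at h1
  linarith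

theorem B3_hex {x : ℂ} (hx : x ∈ Hex) : (x.re, x.im) ∈ B3_S := by
  have h33 : √3 ^ 2 = 3 := Real.sq_sqrt (by norm_num)
  have k1 := B3_half (hx ⟨1, 0⟩)
  have k2 := B3_half (hx ⟨-1, 0⟩)
  have k3 := B3_half (hx ⟨1, 1⟩)
  have k4 := B3_half (hx ⟨0, -1⟩)
  have k5 := B3_half (hx ⟨-1, -1⟩)
  have k6 := B3_half (hx ⟨0, 1⟩)
  simp only [emb_re, emb_im] at k1 k2 k3 k4 k5 k6
  push_cast at k1 k2 k3 k4 k5 k6
  refine ⟨?_, ?_⟩
  · show |x.re| ≤ 1 / 2
    rw [abs_le]
    constructor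
    · nlinarith
    · nlinarith
  · show |x.re| + √3 * |x.im| ≤ 1
    rcases abs_cases x.re with ⟨h1, _⟩ | ⟨h1, _⟩ <;> rcases abs_cases x.im with ⟨h2, _⟩ | ⟨h2, _⟩ <;>
      rw [h1, h2] <;> nlinarith

/-- the majorant on the plane -/
noncomputable def B3_H : ℝ × ℝ → ENNReal :=
  B3_S.indicator fun p => ENNReal.ofReal (B3_f (p.1 ^ 2 + p.2 ^ 2))

theorem B3_H_meas : Measurable B3_H := by
  refine Measurable.indicator ?_ B3_S_meas
  refine ENNReal.measurable_ofReal.comp ?_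
  exact (B3_f_cont.comp (by fun_prop)).measurable

theorem B3_step1 : ∫⁻ κ in Hex, ENNReal.ofReal (tk κ) ≤ ∫⁻ p : ℝ × ℝ, B3_H p := by
  rw [← lintegral_indicator hex_closed.measurableSet,
    ← Complex.volume_preserving_equiv_real_prod.lintegral_comp B3_H_meas]
  refine lintegral_mono fun κ => ?_
  by_cases hκ : κ ∈ Hex
  · rw [Set.indicator_of_mem hκ]
    have h1 := B3_hex hκ
    have h2 := hex_norm hκ
    have e : Complex.measurableEquivRealProd κ = (κ.re, κ.im) := rfl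
    rw [e, B3_H, Set.indicator_of_mem h1]
    refine ENNReal.ofReal_le_ofReal ?_
    have h3 : ‖κ‖ ^ 2 = κ.re ^ 2 + κ.im ^ 2 := by
      rw [Complex.sq_norm, Complex.normSq_apply]
      ring
    show tk κ ≤ B3_f (κ.re ^ 2 + κ.im ^ 2)
    rw [← h3]
    exact B3_le (by positivity) h2
  · rw [Set.indicator_of_notMem hκ]
    exact zero_le

/-- the antiderivative in `y`, divided by `y` -/
noncomputable def B3_psi (r s : ℝ) : ℝ :=
  1 + (r + s / 3) + (r ^ 2 + 2 * r * s / 3 + s ^ 2 / 5) +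
    (r ^ 3 + r ^ 2 * s + 3 * r * s ^ 2 / 5 + s ^ 3 / 7) +
    3 / 2 * (r ^ 4 + 4 * r ^ 3 * s / 3 + 6 * r ^ 2 * s ^ 2 / 5 + 4 * r * s ^ 3 / 7 + s ^ 4 / 9)

/-- the inner integral -/
theorem B3_inner (x Y : ℝ) :
    ∫ y in (-Y)..Y, B3_f (x ^ 2 + y ^ 2) = 2 * (Y * B3_psi (x ^ 2) (Y ^ 2)) := by
  have hd : ∀ y : ℝ, HasDerivAt (fun y : ℝ => (y + (x ^ 2 * y + y ^ 3 / 3) +
      (x ^ 4 * y + 2 * x ^ 2 * y ^ 3 / 3 + y ^ 5 / 5) +
      (x ^ 6 * y + x ^ 4 * y ^ 3 + 3 * x ^ 2 * y ^ 5 / 5 + y ^ 7 / 7) +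
      3 / 2 * (x ^ 8 * y + 4 * x ^ 6 * y ^ 3 / 3 + 6 * x ^ 4 * y ^ 5 / 5 + 4 * x ^ 2 * y ^ 7 / 7 +
        y ^ 9 / 9))) (B3_f (x ^ 2 + y ^ 2)) y := fun y => by
    have e1 : HasDerivAt (fun y : ℝ => y) 1 y := hasDerivAt_id y
    have e3 : HasDerivAt (fun y : ℝ => y ^ 3) (3 * y ^ 2) y := by
      simpa using hasDerivAt_pow 3 y
    have e5 : HasDerivAt (fun y : ℝ => y ^ 5) (5 * y ^ 4) y := by
      simpa using hasDerivAt_pow 5 y
    have e7 : HasDerivAt (fun y : ℝ => y ^ 7) (7 * y ^ 6) y := by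
      simpa using hasDerivAt_pow 7 y
    have e9 : HasDerivAt (fun y : ℝ => y ^ 9) (9 * y ^ 8) y := by
      simpa using hasDerivAt_pow 9 y
    have h := (((e1.add ((e1.const_mul (x ^ 2)).add (e3.div_const 3))).add
      (((e1.const_mul (x ^ 4)).add ((e3.const_mul (2 * x ^ 2)).div_const 3)).add
        (e5.div_const 5))).add
      ((((e1.const_mul (x ^ 6)).add (e3.const_mul (x ^ 4))).add
        ((e5.const_mul (3 * x ^ 2)).div_const 5)).add (e7.div_const 7))).add
      ((((((e1.const_mul (x ^ 8)).add ((e3.const_mul (4 * x ^ 6)).div_const 3)).add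
        ((e5.const_mul (6 * x ^ 4)).div_const 5)).add ((e7.const_mul (4 * x ^ 2)).div_const 7)).add
        (e9.div_const 9)).const_mul (3 / 2))
    refine h.congr_deriv ?_
    unfold B3_f
    ring
  have hi : IntervalIntegrable (fun y : ℝ => B3_f (x ^ 2 + y ^ 2)) volume (-Y) Y :=
    (B3_f_cont.comp (by fun_prop)).intervalIntegrable _ _
  rw [intervalIntegral.integral_eq_sub_of_hasDerivAt (fun y _ => hd y) hi]
  unfold B3_psi
  ring

/-- the polynomial of the outer integral -/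
noncomputable def B3_g (t : ℝ) : ℝ := (1 - t) * B3_psi (t ^ 2) ((1 - t) ^ 2 / 3)

theorem B3_g_cont : Continuous B3_g := by
  unfold B3_g B3_psi
  fun_prop

theorem B3_g_nonneg {t : ℝ} (h : t ≤ 1) : 0 ≤ B3_g t := by
  unfold B3_g B3_psi
  have : 0 ≤ 1 - t := by linarith
  positivity

theorem B3_outer : ∫ t in (0 : ℝ)..(1 / 2), B3_g t = 797551 / 1814400 := by
  have hd : ∀ t : ℝ, HasDerivAt (fun t : ℝ => 19403 / 17010 * t - 3 / 4 * t ^ 2 +
      1948 / 2835 * t ^ 3 - 59 / 81 * t ^ 4 + 184 / 225 * t ^ 5 - 364 / 405 * t ^ 6 +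
      512 / 567 * t ^ 7 - 242 / 315 * t ^ 8 + 128 / 243 * t ^ 9 - 10208 / 42525 * t ^ 10)
      (B3_g t) t := fun t => by
    have e1 : HasDerivAt (fun y : ℝ => y) 1 t := hasDerivAt_id t
    have e2 : HasDerivAt (fun y : ℝ => y ^ 2) (2 * t) t := by
      simpa using hasDerivAt_pow 2 t
    have e3 : HasDerivAt (fun y : ℝ => y ^ 3) (3 * t ^ 2) t := by
      simpa using hasDerivAt_pow 3 t
    have e4 : HasDerivAt (fun y : ℝ => y ^ 4) (4 * t ^ 3) t := by
      simpa using hasDerivAt_pow 4 t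
    have e5 : HasDerivAt (fun y : ℝ => y ^ 5) (5 * t ^ 4) t := by
      simpa using hasDerivAt_pow 5 t
    have e6 : HasDerivAt (fun y : ℝ => y ^ 6) (6 * t ^ 5) t := by
      simpa using hasDerivAt_pow 6 t
    have e7 : HasDerivAt (fun y : ℝ => y ^ 7) (7 * t ^ 6) t := by
      simpa using hasDerivAt_pow 7 t
    have e8 : HasDerivAt (fun y : ℝ => y ^ 8) (8 * t ^ 7) t := by
      simpa using hasDerivAt_pow 8 t
    have e9 : HasDerivAt (fun y : ℝ => y ^ 9) (9 * t ^ 8) t := by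
      simpa using hasDerivAt_pow 9 t
    have e10 : HasDerivAt (fun y : ℝ => y ^ 10) (10 * t ^ 9) t := by
      simpa using hasDerivAt_pow 10 t
    have h := (((((((((e1.const_mul (19403 / 17010)).sub (e2.const_mul (3 / 4))).add
      (e3.const_mul (1948 / 2835))).sub (e4.const_mul (59 / 81))).add
      (e5.const_mul (184 / 225))).sub (e6.const_mul (364 / 405))).add
      (e7.const_mul (512 / 567))).sub (e8.const_mul (242 / 315))).add
      (e9.const_mul (128 / 243))).sub (e10.const_mul (10208 / 42525))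
    refine h.congr_deriv ?_
    unfold B3_g B3_psi
    ring
  rw [intervalIntegral.integral_eq_sub_of_hasDerivAt (fun y _ => hd y)
    (B3_g_cont.intervalIntegrable _ _)]
  norm_num

theorem B3_outer' : ∫ t in (-(1 / 2) : ℝ)..(1 / 2), B3_g |t| = 797551 / 907200 := by
  have hc : Continuous fun t : ℝ => B3_g |t| := B3_g_cont.comp continuous_abs
  rw [← intervalIntegral.integral_add_adjacent_intervals (b := 0)
    (hc.intervalIntegrable _ _) (hc.intervalIntegrable _ _)]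
  have h1 : ∫ t in (0 : ℝ)..(1 / 2), B3_g |t| = 797551 / 1814400 := by
    rw [← B3_outer]
    refine intervalIntegral.integral_congr fun t ht => ?_
    rw [Set.uIcc_of_le (by norm_num)] at ht
    show B3_g |t| = B3_g t
    rw [abs_of_nonneg ht.1]
  have h2 : ∫ t in (-(1 / 2) : ℝ)..0, B3_g |t| = ∫ t in (0 : ℝ)..(1 / 2), B3_g |t| := by
    have := intervalIntegral.integral_comp_neg (a := 0) (b := 1 / 2) (fun t : ℝ => B3_g |t|)
    simp only [abs_neg, neg_zero] at this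
    exact this.symm
  rw [h2, h1]
  norm_num

theorem B3_fib (x : ℝ) : ∫⁻ y : ℝ, B3_H (x, y) =
    (Set.Icc (-(1 / 2) : ℝ) (1 / 2)).indicator
      (fun x => ENNReal.ofReal (2 / √3 * B3_g |x|)) x := by
  have h33 : √3 ^ 2 = 3 := Real.sq_sqrt (by norm_num)
  have h3 : 0 < √3 := Real.sqrt_pos.2 (by norm_num)
  by_cases hx : x ∈ Set.Icc (-(1 / 2) : ℝ) (1 / 2)
  · rw [Set.indicator_of_mem hx]
    have hx' : |x| ≤ 1 / 2 := abs_le.2 hx
    set Y : ℝ := (1 - |x|) / √3 with hY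
    have hY0 : 0 ≤ Y := div_nonneg (by linarith) h3.le
    have e : ∀ y : ℝ, B3_H (x, y) =
        (Set.Icc (-Y) Y).indicator (fun y => ENNReal.ofReal (B3_f (x ^ 2 + y ^ 2))) y := fun y => by
      have e1 : (x, y) ∈ B3_S ↔ y ∈ Set.Icc (-Y) Y := by
        show (|x| ≤ 1 / 2 ∧ |x| + √3 * |y| ≤ 1) ↔ _
        rw [Set.mem_Icc, ← abs_le, hY, le_div_iff₀ h3]
        constructor
        · rintro ⟨_, h⟩
          linarith
        · intro h
          exact ⟨hx', by linarith⟩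
      by_cases hy : y ∈ Set.Icc (-Y) Y
      · rw [B3_H, Set.indicator_of_mem (e1.2 hy), Set.indicator_of_mem hy]
      · rw [B3_H, Set.indicator_of_notMem (fun h => hy (e1.1 h)), Set.indicator_of_notMem hy]
    rw [lintegral_congr e, lintegral_indicator measurableSet_Icc]
    have hc : Continuous fun y : ℝ => B3_f (x ^ 2 + y ^ 2) := B3_f_cont.comp (by fun_prop)
    rw [← ofReal_integral_eq_lintegral_ofReal (hc.continuousOn.integrableOn_compact isCompact_Icc)
      (Filter.Eventually.of_forall fun y => B3_f_nonneg (by positivity)),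
      integral_Icc_eq_integral_Ioc, ← intervalIntegral.integral_of_le (by linarith), B3_inner]
    congr 1
    have e2 : Y ^ 2 = (1 - |x|) ^ 2 / 3 := by
      rw [hY, div_pow, h33]
    rw [e2, B3_g, sq_abs, hY]
    ring
  · rw [Set.indicator_of_notMem hx]
    have e : ∀ y : ℝ, B3_H (x, y) = 0 := fun y => by
      rw [B3_H, Set.indicator_of_notMem]
      intro h
      exact hx (abs_le.1 h.1)
    rw [lintegral_congr e, lintegral_zero]

/-- B3 -/
theorem int_hex : ∫⁻ κ in Hex, ENNReal.ofReal (tk κ) ≤ ENNReal.ofReal 1.01514 := by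
  refine B3_step1.trans ?_
  have h3 : 0 < √3 := Real.sqrt_pos.2 (by norm_num)
  rw [Measure.volume_eq_prod, lintegral_prod _ B3_H_meas.aemeasurable, lintegral_congr B3_fib,
    lintegral_indicator measurableSet_Icc]
  have hc : Continuous fun x : ℝ => 2 / √3 * B3_g |x| :=
    continuous_const.mul (B3_g_cont.comp continuous_abs)
  rw [← ofReal_integral_eq_lintegral_ofReal (hc.continuousOn.integrableOn_compact isCompact_Icc)
    ((ae_restrict_iff' measurableSet_Icc).2 (Filter.Eventually.of_forall fun x hx =>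
      mul_nonneg (by positivity) (B3_g_nonneg (by have := abs_le.2 hx; linarith)))),
    integral_Icc_eq_integral_Ioc, ← intervalIntegral.integral_of_le (by norm_num),
    intervalIntegral.integral_const_mul, B3_outer']
  refine ENNReal.ofReal_le_ofReal ?_
  have h4 : (1.73205 : ℝ) ≤ √3 := by
    apply Real.le_sqrt_of_sq_le
    norm_num
  rw [div_mul_eq_mul_div, div_le_iff₀ h3]
  nlinarith

end JGC
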