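import Pool.Agent.JGC.B0
import Pool.Agent.JC.V1
import Pool.Agent.JC.V3

/-!
# [JGC-B4] the volume integral with a constant `t`
-/

set_option autoImplicit false

namespace JGC

open CM27 CU JZ JC MeasureTheory

/-- the domain with the cut off -/
def B4_S (t : ℝ) (a : ℂ) : Set (ℂ × ℂ) :=
  Omt t ∩ {x | 27 * ‖a‖ ^ 4 * ‖x.1‖ ^ 6 * ‖1 - x.2 ^ 3‖ ^ 2 ≤ 1}

theorem B4_meas (t : ℝ) : MeasurableSet (Omt t) := by
  have h1 : MeasurableSet {x : ℂ × ℂ | |Complex.arg x.1| ≤ Real.pi / 3} :=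
    measurableSet_le (continuous_abs.measurable.comp (Complex.measurable_arg.comp measurable_fst))
      measurable_const
  have h2 : MeasurableSet {x : ℂ × ℂ | ‖x.2‖ ≤ 1} := measurableSet_le (by fun_prop) measurable_const
  have h3 : MeasurableSet {x : ℂ × ℂ | (1 + ‖x.2‖ ^ 2) ^ 2 ≤ t * ‖x.1‖ ^ 2 * ‖1 - x.2 ^ 3‖ ^ 2} :=
    measurableSet_le (by fun_prop) (by fun_prop)
  exact h1.inter (h2.inter h3)

theorem B4_mem (t : ℝ) (a A B : ℂ) (hBA : ‖B‖ ≤ ‖A‖)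
    (h1 : (‖A‖ ^ 2 + ‖B‖ ^ 2) ^ 2 ≤ t * ‖A ^ 3 - B ^ 3‖ ^ 2) (h2 : 2 / 3 ≤ ‖A‖ ^ 2 + ‖B‖ ^ 2)
    (h3 : 27 * ‖a‖ ^ 4 * ‖A ^ 3 - B ^ 3‖ ^ 2 ≤ 1) :
    ((-3 * a * (A * B), -a * (A ^ 3 + B ^ 3)) : ℂ × ℂ) ∈ v1_f a '' B4_S t a := by
  obtain ⟨ζ, hζ, harg⟩ := v1_sector A
  have hA0 : A ≠ 0 := by
    rintro rfl
    rw [norm_zero] at hBA h2
    have h4 : ‖B‖ = 0 := le_antisymm hBA (norm_nonneg B)
    rw [h4] at h2
    norm_num at h2
  have hζ0 : ζ ≠ 0 := by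
    rintro rfl
    norm_num at hζ
  have hζn : ‖ζ‖ = 1 := by
    have h4 : ‖ζ‖ ^ 3 = 1 := by rw [← norm_pow, hζ, norm_one]
    exact (pow_eq_one_iff_of_nonneg (norm_nonneg ζ) (by norm_num)).1 h4
  set A' : ℂ := ζ * A with hA'
  set B' : ℂ := ζ⁻¹ * B with hB'
  have hA'0 : A' ≠ 0 := mul_ne_zero hζ0 hA0
  have e1 : A' * B' = A * B := by
    rw [hA', hB']
    field_simp
  have e2 : A' ^ 3 = A ^ 3 := by rw [hA', mul_pow, hζ, one_mul]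
  have e3 : B' ^ 3 = B ^ 3 := by rw [hB', mul_pow, inv_pow, hζ, inv_one, one_mul]
  have n1 : ‖A'‖ = ‖A‖ := by rw [hA', norm_mul, hζn, one_mul]
  have n2 : ‖B'‖ = ‖B‖ := by rw [hB', norm_mul, norm_inv, hζn, inv_one, one_mul]
  set w : ℂ := B' / A' with hw
  have hB'w : B' = A' * w := by rw [hw, mul_div_cancel₀ _ hA'0]
  have hApos : 0 < ‖A'‖ := norm_pos_iff.2 hA'0
  have hwn : ‖B'‖ = ‖A'‖ * ‖w‖ := by rw [hB'w, norm_mul]
  have hdiff : ‖A ^ 3 - B ^ 3‖ = ‖A'‖ ^ 3 * ‖1 - w ^ 3‖ := by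
    rw [← e2, ← e3, hB'w, mul_pow, ← norm_pow, ← norm_mul]
    congr 1
    ring
  refine ⟨(A', w), ⟨⟨harg, ?_, ?_⟩, ?_⟩, ?_⟩
  · show ‖w‖ ≤ 1
    rw [← n1, ← n2, hwn] at hBA
    by_contra hcon
    push Not at hcon
    nlinarith
  · show (1 + ‖w‖ ^ 2) ^ 2 ≤ t * ‖A'‖ ^ 2 * ‖1 - w ^ 3‖ ^ 2
    rw [← n1, ← n2, hwn, hdiff] at h1
    have h4 : ‖A'‖ ^ 4 * (1 + ‖w‖ ^ 2) ^ 2 ≤ ‖A'‖ ^ 4 * (t * ‖A'‖ ^ 2 * ‖1 - w ^ 3‖ ^ 2) := by
      calc ‖A'‖ ^ 4 * (1 + ‖w‖ ^ 2) ^ 2 = (‖A'‖ ^ 2 + (‖A'‖ * ‖w‖) ^ 2) ^ 2 := by ring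
        _ ≤ t * (‖A'‖ ^ 3 * ‖1 - w ^ 3‖) ^ 2 := h1
        _ = _ := by ring
    exact le_of_mul_le_mul_left h4 (pow_pos hApos 4)
  · show 27 * ‖a‖ ^ 4 * ‖A'‖ ^ 6 * ‖1 - w ^ 3‖ ^ 2 ≤ 1
    rw [hdiff] at h3
    calc _ = 27 * ‖a‖ ^ 4 * (‖A'‖ ^ 3 * ‖1 - w ^ 3‖) ^ 2 := by ring
      _ ≤ 1 := h3
  · show ((-3 * a * (A' ^ 2 * w), -a * (A' ^ 3 * (1 + w ^ 3))) : ℂ × ℂ) = _
    refine Prod.ext ?_ ?_
    · show -3 * a * (A' ^ 2 * w) = -3 * a * (A * B)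
      rw [← e1, hB'w]
      ring
    · show -a * (A' ^ 3 * (1 + w ^ 3)) = -a * (A ^ 3 + B ^ 3)
      rw [← e2, ← e3, hB'w]
      ring

theorem B4_sub (t : ℝ) (a : ℂ) : PQt t a ⊆ v1_f a '' B4_S t a := by
  rintro ⟨p, q⟩ ⟨A, B, hp, hq, h1, h2, h3⟩
  have hp' : p = -3 * a * (A * B) := hp
  have hq' : q = -a * (A ^ 3 + B ^ 3) := hq
  rcases le_total ‖B‖ ‖A‖ with h | h
  · rw [hp', hq']
    exact B4_mem t a A B h h1 h2 h3
  · rw [hp', hq', mul_comm A B, add_comm (A ^ 3) (B ^ 3)]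
    refine B4_mem t a B A h ?_ ?_ ?_
    · rw [add_comm (‖B‖ ^ 2), norm_sub_rev]
      exact h1
    · rw [add_comm]
      exact h2
    · rw [norm_sub_rev]
      exact h3

theorem vol_PQt {t : ℝ} (ht : 0 < t) (a : ℂ) : volume (PQt t a) ≤ ∫⁻ x in Omt t, jac a x := by
  have hH : (volume : Measure (ℂ × ℂ)).IsAddHaarMeasure := by
    rw [Measure.volume_eq_prod]
    exact Measure.prod.instIsAddHaarMeasure volume volume
  have hS : MeasurableSet (B4_S t a) := (B4_meas t).inter (v1_measC a)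
  have h1 : volume (v1_f a '' B4_S t a) ≤
      ∫⁻ x in B4_S t a, ENNReal.ofReal |((v1_f' a x).restrictScalars ℝ).det| :=
    addHaar_image_le_lintegral_abs_det_fderiv volume hS fun x _ =>
      ((v1_hasFDerivAt a x).restrictScalars ℝ).hasFDerivWithinAt
  refine (measure_mono (B4_sub t a)).trans (h1.trans ?_)
  have h2 : ∀ x, ENNReal.ofReal |((v1_f' a x).restrictScalars ℝ).det| =
      ENNReal.ofReal (81 * ‖a‖ ^ 4 * ‖x.1‖ ^ 8 * ‖1 - x.2 ^ 3‖ ^ 2) := by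
    intro x
    rw [v1_det, abs_of_nonneg (by positivity)]
  simp only [h2]
  have h3 : ∫⁻ x in B4_S t a, ENNReal.ofReal (81 * ‖a‖ ^ 4 * ‖x.1‖ ^ 8 * ‖1 - x.2 ^ 3‖ ^ 2) =
      ∫⁻ x in B4_S t a, jac a x := by
    refine setLIntegral_congr_fun hS fun x hx => ?_
    have h4 : 27 * ‖a‖ ^ 4 * ‖x.1‖ ^ 6 * ‖1 - x.2 ^ 3‖ ^ 2 ≤ 1 := hx.2
    show _ = jac a x
    unfold jac
    rw [if_pos h4]
  rw [h3]
  exact lintegral_mono_set Set.inter_subset_left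

/-- the integrand -/
noncomputable def B4_fI (t : ℝ) (a : ℂ) (x : ℂ × ℂ) : ENNReal :=
  ENNReal.ofReal (9 * ‖a‖ ^ 2) * (Omt t).indicator (jac a) x

theorem B4_fI_meas (t : ℝ) : Measurable (Function.uncurry (B4_fI t)) := by
  have e : Function.uncurry (B4_fI t) = fun p : ℂ × (ℂ × ℂ) => ENNReal.ofReal (9 * ‖p.1‖ ^ 2) *
      (Prod.snd ⁻¹' Omt t).indicator (fun p : ℂ × (ℂ × ℂ) => jac p.1 p.2) p := by
    funext p
    rfl
  rw [e]
  exact (by fun_prop : Measurable fun p : ℂ × (ℂ × ℂ) =>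
    ENNReal.ofReal (9 * ‖p.1‖ ^ 2)).mul (jac_meas.indicator (measurable_snd (B4_meas t)))

/-- after the integration over `a` -/
noncomputable def B4_gI (t : ℝ) (x : ℂ × ℂ) : ENNReal :=
  (Omt t).indicator (fun x => ENNReal.ofReal (Real.pi / 4 / (‖x.1‖ ^ 4 * ‖1 - x.2 ^ 3‖ ^ 2))) x

theorem B4_gI_meas (t : ℝ) : Measurable (B4_gI t) := by
  unfold B4_gI
  exact Measurable.indicator (by fun_prop) (B4_meas t)

theorem B4_step_a (t : ℝ) (x : ℂ × ℂ) : ∫⁻ a : ℂ, B4_fI t a x ≤ B4_gI t x := by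
  by_cases hx : x ∈ Omt t
  · obtain ⟨h1, h2, h3⟩ := hx
    have hx' : x ∈ Omt t := ⟨h1, h2, h3⟩
    have hp : (0 : ℝ) < (1 + ‖x.2‖ ^ 2) ^ 2 := by positivity
    have hA : 0 < ‖x.1‖ := by
      refine (norm_nonneg _).lt_of_ne' fun h => ?_
      rw [h] at h3
      have h6 : t * (0 : ℝ) ^ 2 * ‖1 - x.2 ^ 3‖ ^ 2 = 0 := by ring
      linarith
    have hW : 0 < ‖1 - x.2 ^ 3‖ := by
      refine (norm_nonneg _).lt_of_ne' fun h => ?_
      rw [h] at h3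
      have h6 : t * ‖x.1‖ ^ 2 * (0 : ℝ) ^ 2 = 0 := by ring
      linarith
    set α := ‖x.1‖
    set β := ‖1 - x.2 ^ 3‖
    have hk : 0 < 27 * α ^ 6 * β ^ 2 := by positivity
    have h4 : ∀ a : ℂ, B4_fI t a x = ENNReal.ofReal (729 * α ^ 8 * β ^ 2) *
        (if 27 * α ^ 6 * β ^ 2 * ‖a‖ ^ 4 ≤ 1 then ENNReal.ofReal (‖a‖ ^ 6) else 0) := fun a => by
      unfold B4_fI jac
      rw [Set.indicator_of_mem hx']
      have e : 27 * ‖a‖ ^ 4 * α ^ 6 * β ^ 2 = 27 * α ^ 6 * β ^ 2 * ‖a‖ ^ 4 := by ring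
      show ENNReal.ofReal _ * (if 27 * ‖a‖ ^ 4 * α ^ 6 * β ^ 2 ≤ 1 then _ else _) = _
      rw [e]
      split_ifs with hc
      · rw [← ENNReal.ofReal_mul (by positivity), ← ENNReal.ofReal_mul (by positivity)]
        congr 1
        ring
      · rw [mul_zero, mul_zero]
    rw [lintegral_congr h4, lintegral_const_mul' _ _ ENNReal.ofReal_ne_top]
    refine (mul_le_mul_right (int_a _ hk) _).trans (le_of_eq ?_)
    unfold B4_gI
    rw [Set.indicator_of_mem hx', ← ENNReal.ofReal_mul (by positivity)]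
    congr 1
    show _ = Real.pi / 4 / (α ^ 4 * β ^ 2)
    field_simp
    ring
  · have h4 : ∀ a : ℂ, B4_fI t a x = 0 := fun a => by
      unfold B4_fI
      rw [Set.indicator_of_notMem hx, mul_zero]
    rw [lintegral_congr h4, lintegral_zero]
    exact zero_le

theorem B4_step_A {t : ℝ} (ht : 0 < t) (w : ℂ) : ∫⁻ A : ℂ, B4_gI t (A, w) ≤
    ENNReal.ofReal (Real.pi ^ 2 / 12 * t) *
      (if ‖w‖ ≤ 1 then ENNReal.ofReal (1 / (1 + ‖w‖ ^ 2) ^ 2) else 0) := by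
  by_cases hw : ‖w‖ ≤ 1
  · by_cases hW : ‖1 - w ^ 3‖ = 0
    · have h4 : ∀ A : ℂ, B4_gI t (A, w) = 0 := fun A => by
        unfold B4_gI
        refine Set.indicator_of_notMem (fun hx => ?_) _
        obtain ⟨-, -, h3⟩ := hx
        dsimp only at h3
        rw [hW] at h3
        have hp : (0 : ℝ) < (1 + ‖w‖ ^ 2) ^ 2 := by positivity
        have h6 : t * ‖A‖ ^ 2 * (0 : ℝ) ^ 2 = 0 := by ring
        linarith
      rw [lintegral_congr h4, lintegral_zero]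
      exact zero_le
    · have hW0 : 0 < ‖1 - w ^ 3‖ := (norm_nonneg _).lt_of_ne' hW
      set β := ‖1 - w ^ 3‖ with hβ
      set r : ℝ := (1 + ‖w‖ ^ 2) ^ 2 / (t * β ^ 2) with hr
      have hr0 : 0 < r := by positivity
      have h4 : ∀ A : ℂ, B4_gI t (A, w) ≤ ENNReal.ofReal (Real.pi / 4 / β ^ 2) *
          (if |Complex.arg A| ≤ Real.pi / 3 ∧ r ≤ ‖A‖ ^ 2 then ENNReal.ofReal (1 / ‖A‖ ^ 4) else 0) :=
        fun A => by
        unfold B4_gI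
        by_cases hx : (A, w) ∈ Omt t
        · rw [Set.indicator_of_mem hx]
          obtain ⟨h1, -, h3⟩ := hx
          dsimp only at h1 h3
          have h5 : r ≤ ‖A‖ ^ 2 := by
            rw [hr, div_le_iff₀ (by positivity)]
            linarith
          rw [if_pos ⟨h1, h5⟩, ← ENNReal.ofReal_mul (by positivity)]
          apply ENNReal.ofReal_le_ofReal
          apply le_of_eq
          dsimp only
          rw [← hβ]
          ring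
        · rw [Set.indicator_of_notMem hx]
          exact zero_le
      refine (lintegral_mono h4).trans ?_
      rw [lintegral_const_mul' _ _ ENNReal.ofReal_ne_top, if_pos hw]
      refine (mul_le_mul_right (int_A r hr0) _).trans (le_of_eq ?_)
      rw [← ENNReal.ofReal_mul (by positivity), ← ENNReal.ofReal_mul (by positivity)]
      congr 1
      rw [hr]
      field_simp
      ring
  · have h4 : ∀ A : ℂ, B4_gI t (A, w) = 0 := fun A => by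
      unfold B4_gI
      exact Set.indicator_of_notMem (fun hx => hw hx.2.1) _
    rw [lintegral_congr h4, lintegral_zero]
    exact zero_le

theorem vol_intt {t : ℝ} (ht : 0 < t) :
    ∫⁻ a : ℂ, ENNReal.ofReal (9 * ‖a‖ ^ 2) * ∫⁻ x in Omt t, jac a x ≤
      ENNReal.ofReal (Real.pi ^ 3 / 24 * t) := by
  have h1 : ∀ a : ℂ, ENNReal.ofReal (9 * ‖a‖ ^ 2) * ∫⁻ x in Omt t, jac a x =
      ∫⁻ x : ℂ × ℂ, B4_fI t a x := fun a => by
    unfold B4_fI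
    rw [lintegral_const_mul' _ _ ENNReal.ofReal_ne_top, lintegral_indicator (B4_meas t)]
  calc ∫⁻ a : ℂ, ENNReal.ofReal (9 * ‖a‖ ^ 2) * ∫⁻ x in Omt t, jac a x =
        ∫⁻ a : ℂ, ∫⁻ x : ℂ × ℂ, B4_fI t a x := lintegral_congr h1
    _ = ∫⁻ x : ℂ × ℂ, ∫⁻ a : ℂ, B4_fI t a x := lintegral_lintegral_swap (B4_fI_meas t).aemeasurable
    _ ≤ ∫⁻ x : ℂ × ℂ, B4_gI t x := lintegral_mono (B4_step_a t)
    _ = ∫⁻ w : ℂ, ∫⁻ A : ℂ, B4_gI t (A, w) := by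
        rw [Measure.volume_eq_prod, lintegral_prod_symm _ (B4_gI_meas t).aemeasurable]
    _ ≤ ∫⁻ w : ℂ, ENNReal.ofReal (Real.pi ^ 2 / 12 * t) *
          (if ‖w‖ ≤ 1 then ENNReal.ofReal (1 / (1 + ‖w‖ ^ 2) ^ 2) else 0) :=
        lintegral_mono (B4_step_A ht)
    _ = ENNReal.ofReal (Real.pi ^ 2 / 12 * t) *
          ∫⁻ w : ℂ, (if ‖w‖ ≤ 1 then ENNReal.ofReal (1 / (1 + ‖w‖ ^ 2) ^ 2) else 0) :=
        lintegral_const_mul' _ _ ENNReal.ofReal_ne_top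
    _ ≤ ENNReal.ofReal (Real.pi ^ 2 / 12 * t) * ENNReal.ofReal (Real.pi / 2) :=
        mul_le_mul_right int_w _
    _ = _ := by
        rw [← ENNReal.ofReal_mul (by positivity)]
        congr 1
        ring

end JGC
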