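import Pool.Agent.JGC.B0
import Pool.Agent.JC.V4

/-!
# [JGC-B5] compactness
-/

set_option autoImplicit false

namespace JGC

open CM27 CU JZ JC MeasureTheory

/-- the parameters -/
def B5_KS (ε : ℝ) : Set V4 :=
  {x | ε ≤ ‖x.1‖ ∧ x.2.1 ∈ Hex ∧ Rd x.2.1 x.2.2.1 x.2.2.2 ∧
    2 / 3 ≤ ‖x.2.2.1‖ ^ 2 + ‖x.2.2.2‖ ^ 2 ∧
    27 * ‖x.1‖ ^ 4 * ‖x.2.2.1 ^ 3 - x.2.2.2 ^ 3‖ ^ 2 ≤ 1}

theorem B5_closed (ε : ℝ) : IsClosed (B5_KS ε) := by
  have e : B5_KS ε = {x : V4 | ε ≤ ‖x.1‖} ∩ ({x : V4 | x.2.1 ∈ Hex} ∩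
      ({x : V4 | (‖x.2.2.1‖ ^ 2 + ‖x.2.2.2‖ ^ 2) ^ 2 * (1 - ‖x.2.1‖ ^ 2) ≤
        ‖x.2.2.1 ^ 3 - x.2.2.2 ^ 3‖ ^ 2} ∩
      ({x : V4 | 2 / 3 ≤ ‖x.2.2.1‖ ^ 2 + ‖x.2.2.2‖ ^ 2} ∩
      {x : V4 | 27 * ‖x.1‖ ^ 4 * ‖x.2.2.1 ^ 3 - x.2.2.2 ^ 3‖ ^ 2 ≤ 1}))) := rfl
  rw [e]
  refine IsClosed.inter ?_ (IsClosed.inter ?_ (IsClosed.inter ?_ (IsClosed.inter ?_ ?_)))
  · exact isClosed_le continuous_const (by fun_prop)
  · exact hex_closed.preimage (by fun_prop)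
  · exact isClosed_le (by fun_prop) (by fun_prop)
  · exact isClosed_le continuous_const (by fun_prop)
  · exact isClosed_le (by fun_prop) continuous_const

theorem B5_compact (ε : ℝ) (hε : 0 < ε) : IsCompact (B5_KS ε) := by
  refine Metric.isCompact_of_isClosed_isBounded (B5_closed ε) ?_
  set M : ℝ := 2 + 1 / ε ^ 2 with hM
  have hM2 : 2 ≤ M := by
    have : 0 < 1 / ε ^ 2 := by positivity
    linarith
  refine (Metric.isBounded_closedBall (x := (0 : V4)) (r := M)).subset fun x hx => ?_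
  obtain ⟨h1, hh0, hr, h4, h5⟩ := hx
  have h3 := rd_old hh0 hr
  have hκ := hex_norm hh0
  rw [mem_closedBall_zero_iff, Prod.norm_def, Prod.norm_def, Prod.norm_def]
  simp only [max_le_iff]
  set A := x.2.2.1
  set B := x.2.2.2
  set t := ‖A‖ ^ 2 + ‖B‖ ^ 2 with ht
  have hn : 8 / 27 ≤ ‖A ^ 3 - B ^ 3‖ ^ 2 := by nlinarith
  have ha0 : 0 < ‖x.1‖ := by linarith
  have ha : ‖x.1‖ ≤ 1 := by
    by_contra hcon
    rw [not_le] at hcon
    have h6 : 1 < ‖x.1‖ ^ 4 := one_lt_pow₀ hcon (by norm_num)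
    nlinarith
  have hz : ‖x.2.1‖ ≤ 2 := by nlinarith [norm_nonneg x.2.1]
  have ht1 : t ≤ 1 / ε ^ 2 := by
    rw [le_div_iff₀ (by positivity)]
    refine le_of_sq_le_sq ?_ (by norm_num)
    have h6 : ε ^ 4 ≤ ‖x.1‖ ^ 4 := pow_le_pow_left₀ hε.le h1 4
    have h7 : (t * ε ^ 2) ^ 2 * 18 ≤ 1 := by
      calc (t * ε ^ 2) ^ 2 * 18 = t ^ 2 * ε ^ 4 * 18 := by ring
        _ ≤ (3 / 2 * ‖A ^ 3 - B ^ 3‖ ^ 2) * ‖x.1‖ ^ 4 * 18 := by gcongr
        _ = 27 * ‖x.1‖ ^ 4 * ‖A ^ 3 - B ^ 3‖ ^ 2 := by ring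
        _ ≤ 1 := h5
    nlinarith
  have hAB : ∀ y : ℝ, 0 ≤ y → y ^ 2 ≤ t → y ≤ M := fun y hy hyt => by
    have : y ^ 2 ≤ 1 / ε ^ 2 := hyt.trans ht1
    nlinarith [sq_nonneg (y - 1)]
  refine ⟨by linarith, by linarith, hAB _ (norm_nonneg _) ?_, hAB _ (norm_nonneg _) ?_⟩
  · rw [ht]
    nlinarith [sq_nonneg ‖B‖]
  · rw [ht]
    nlinarith [sq_nonneg ‖A‖]

/-- the parametrisation -/
noncomputable def B5_KF (x : V4) : V4 :=
  KF (x.1, x.2.1 + hh x.2.2.1 x.2.2.2, x.2.2.1, x.2.2.2)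

theorem B5_cont (ε : ℝ) : ContinuousOn B5_KF (B5_KS ε) := by
  have h1 : ContinuousOn (fun x : V4 => hh x.2.2.1 x.2.2.2) (B5_KS ε) := by
    unfold hh
    refine ContinuousOn.div (by fun_prop) (by fun_prop) fun x hx => ?_
    obtain ⟨-, -, -, h4, -⟩ := hx
    rw [Ne, Complex.ofReal_eq_zero]
    intro h0
    linarith
  refine KF_cont.comp_continuousOn ?_
  exact continuousOn_fst.prodMk
    ((((continuous_fst.comp continuous_snd).continuousOn).add h1).prodMk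
      ((continuous_fst.comp (continuous_snd.comp continuous_snd)).continuousOn.prodMk
        (continuous_snd.comp (continuous_snd.comp continuous_snd)).continuousOn))

theorem regHC_compact (ε : ℝ) (hε : 0 < ε) : IsCompact (RegHC ε) := by
  have h := (B5_compact ε hε).image_of_continuousOn (B5_cont ε)
  convert h using 1
  ext v
  constructor
  · rintro ⟨⟨h0, z, A, B, ⟨hb, hc, hd⟩, hz, h1, h2, h3⟩, h4⟩
    refine ⟨(v.1, z - hh A B, A, B), ⟨h4, hz, h1, h2, ?_⟩, ?_⟩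
    · rw [one_pow] at h3
      exact h3
    · unfold B5_KF
      dsimp only
      rw [sub_add_cancel]
      refine Prod.ext rfl (Prod.ext ?_ (Prod.ext ?_ ?_))
      · exact hb.symm
      · exact hc.symm
      · exact hd.symm
  · rintro ⟨⟨a, κ, A, B⟩, ⟨h4, hz, h1, h2, h3⟩, rfl⟩
    dsimp only at h4 hz h1 h2 h3
    have ha : a ≠ 0 := by
      rintro rfl
      rw [norm_zero] at h4
      linarith
    refine ⟨⟨ha, κ + hh A B, A, B, ⟨rfl, rfl, rfl⟩, ?_, ?_, h2, ?_⟩, h4⟩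
    · rw [add_sub_cancel_right]
      exact hz
    · rw [add_sub_cancel_right]
      exact h1
    · rw [one_pow]
      exact h3

theorem KA_compact {a : ℂ} (ha : a ≠ 0) : IsCompact (KA a) := by
  have hcl : IsClosed {x : V4 | x.1 = a} := isClosed_eq continuous_fst continuous_const
  have h := ((B5_compact ‖a‖ (norm_pos_iff.2 ha)).inter_right hcl).image
    (continuous_snd : Continuous (Prod.snd : V4 → ℂ × (ℂ × ℂ)))
  convert h using 1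
  ext v
  constructor
  · rintro ⟨h1, h2, h3, h4⟩
    exact ⟨(a, v), ⟨⟨le_rfl, h1, h2, h3, h4⟩, rfl⟩, rfl⟩
  · rintro ⟨⟨a', w⟩, ⟨⟨-, h1, h2, h3, h4⟩, h5⟩, rfl⟩
    simp only [Set.mem_ofPred_eq] at h5
    subst h5
    exact ⟨h1, h2, h3, h4⟩

end JGC
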