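import Pool.Agent.JGC.B0

/-!
# [JGC-B6] the volume of the region: fibration over the leading coefficient
-/

set_option autoImplicit false

namespace JGC

open CM27 CU JZ JC MeasureTheory

theorem b6_det (k : ℂ) : LinearMap.det (Algebra.lmul ℝ ℂ k) = ‖k‖ ^ 2 := by
  rw [← Complex.normSq_eq_norm_sq, ← Algebra.norm_complex_apply, Algebra.norm_apply]

/-- The substitution `z = k b`. -/
theorem b6_lint {k : ℂ} (hk : k ≠ 0) {F : ℂ → ENNReal} (hF : Measurable F) :
    ∫⁻ b, F (k * b) = ENNReal.ofReal ((‖k‖ ^ 2)⁻¹) * ∫⁻ z, F z := by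
  have hk' : 0 < ‖k‖ := norm_pos_iff.2 hk
  have hd : LinearMap.det (Algebra.lmul ℝ ℂ k) ≠ 0 := by
    rw [b6_det]
    positivity
  have h := Measure.map_linearMap_addHaar_eq_smul_addHaar (volume : Measure ℂ) hd
  have h1 : ∫⁻ b, F (k * b) = ∫⁻ z, F z ∂(Measure.map (Algebra.lmul ℝ ℂ k) volume) := by
    rw [lintegral_map hF (LinearMap.continuous_of_finiteDimensional _).measurable]
    rfl
  rw [h1, h, lintegral_smul_measure, b6_det, abs_of_nonneg (by positivity), smul_eq_mul]

theorem vol_fibH {ε : ℝ} (hc : IsCompact (RegHC ε)) (hE : ∀ a : ℂ, a ≠ 0 → MeasurableSet (EZ a)) :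
    volume (RegHC ε) ≤ ∫⁻ a : ℂ, ENNReal.ofReal (9 * ‖a‖ ^ 2) * volume (EZ a) := by
  have hm : MeasurableSet (RegHC ε) := hc.isClosed.measurableSet
  rw [Measure.volume_eq_prod, Measure.prod_apply hm]
  refine lintegral_mono fun a => ?_
  by_cases ha : a = 0
  · have : Prod.mk a ⁻¹' RegHC ε = ∅ := by
      ext v
      simp only [Set.mem_preimage, Set.mem_empty_iff_false, iff_false]
      rintro ⟨⟨h0, -⟩, -⟩
      exact h0 ha
    rw [this, measure_empty]
    exact zero_le
  · have hm2 : MeasurableSet (Prod.mk a ⁻¹' RegHC ε) := measurable_prodMk_left hm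
    have ha' : 0 < ‖a‖ := norm_pos_iff.2 ha
    have hEa := hE a ha
    rw [Measure.volume_eq_prod, Measure.prod_apply hm2]
    set k : ℂ := -1 / (3 * a) with hk
    have hk0 : k ≠ 0 := div_ne_zero (neg_ne_zero.2 one_ne_zero) (mul_ne_zero three_ne_zero ha)
    have hkn : (‖k‖ ^ 2)⁻¹ = 9 * ‖a‖ ^ 2 := by
      rw [hk, norm_div, norm_neg, norm_one, norm_mul, div_pow, mul_pow, one_pow, one_div, inv_inv]
      congr 1
      norm_num
    have hF : Measurable fun z : ℂ => volume (Prod.mk z ⁻¹' EZ a) := measurable_measure_prodMk_left hEa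
    have h1 : ∀ b : ℂ, volume (Prod.mk b ⁻¹' (Prod.mk a ⁻¹' RegHC ε)) ≤
        volume (Prod.mk (k * b) ⁻¹' EZ a) := fun b => by
      refine (measure_mono ?_).trans (vol_shear (Prod.mk (k * b) ⁻¹' EZ a) (b ^ 2 / (3 * a))
        (b / (3 * a)) (2 * b ^ 3 / (27 * a ^ 2)))
      rintro ⟨c, d⟩ ⟨⟨h0, z, A, B, ⟨hb', hc', hd'⟩, h1, h2, h3, h4⟩, h5⟩
      dsimp only at hb' hc' hd' h4
      have hz : k * b = z := by
        rw [hb', hk]
        field_simp
      refine ⟨A, B, ?_, ?_, ?_, ?_, h3, ?_⟩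
      · show c - b ^ 2 / (3 * a) = _
        rw [hc', hb']
        field_simp
        ring
      · show d - (b / (3 * a) * c - 2 * b ^ 3 / (27 * a ^ 2)) = _
        rw [hd', hc', hb']
        field_simp
        ring
      · show k * b - hh A B ∈ Hex
        rw [hz]
        exact h1
      · show Rd (k * b - hh A B) A B
        rw [hz]
        exact h2
      · rw [one_pow] at h4
        exact h4
    refine (lintegral_mono h1).trans (le_of_eq ?_)
    rw [b6_lint hk0 hF, hkn, ← Measure.prod_apply hEa, ← Measure.volume_eq_prod]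

end JGC
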