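import Pool.Agent.JGC.B0

/-!
# [JGC-B7] the centre as a variable
-/

set_option autoImplicit false

namespace JGC

open CM27 CU JZ JC MeasureTheory

theorem b7_hh_cont : ContinuousOn (fun v : ℂ × ℂ => hh v.1 v.2)
    {v | 2 / 3 ≤ ‖v.1‖ ^ 2 + ‖v.2‖ ^ 2} := by
  unfold hh
  refine ContinuousOn.div ?_ ?_ ?_
  · refine Continuous.continuousOn ?_
    refine ((continuous_fst.pow 2).mul (Complex.continuous_conj.comp continuous_snd)).add
      ((Complex.continuous_conj.comp continuous_fst).mul (continuous_snd.pow 2))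
  · exact (Complex.continuous_ofReal.comp (by fun_prop)).continuousOn
  · intro v hv
    have hv' : 2 / 3 ≤ ‖v.1‖ ^ 2 + ‖v.2‖ ^ 2 := hv
    have : 0 < ‖v.1‖ ^ 2 + ‖v.2‖ ^ 2 := by linarith
    exact_mod_cast this.ne'

/-- the parametrisation of `EZ a` -/
noncomputable def b7_f (a : ℂ) (v : ℂ × (ℂ × ℂ)) : ℂ × (ℂ × ℂ) :=
  (v.1 + hh v.2.1 v.2.2, (-3 * a * (v.2.1 * v.2.2), -a * (v.2.1 ^ 3 + v.2.2 ^ 3)))

/-- the parametrisation with the centre -/
def b7_g (a : ℂ) (v : ℂ × (ℂ × ℂ)) : ℂ × (ℂ × ℂ) :=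
  (v.1, (-3 * a * (v.2.1 * v.2.2), -a * (v.2.1 ^ 3 + v.2.2 ^ 3)))

theorem b7_f_cont (a : ℂ) : ContinuousOn (b7_f a) (KA a) := by
  unfold b7_f
  refine ContinuousOn.prodMk ?_ (Continuous.continuousOn (by fun_prop))
  refine continuous_fst.continuousOn.add ?_
  exact b7_hh_cont.comp continuous_snd.continuousOn fun v hv => hv.2.2.1

theorem b7_g_cont (a : ℂ) : Continuous (b7_g a) := by
  unfold b7_g
  fun_prop

theorem b7_f_image (a : ℂ) : b7_f a '' KA a = EZ a := by
  ext v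
  constructor
  · rintro ⟨⟨κ, A, B⟩, ⟨h1, h2, h3, h4⟩, rfl⟩
    refine ⟨A, B, rfl, rfl, ?_, ?_, h3, h4⟩
    · show κ + hh A B - hh A B ∈ Hex
      rw [add_sub_cancel_right]
      exact h1
    · show Rd (κ + hh A B - hh A B) A B
      rw [add_sub_cancel_right]
      exact h2
  · rintro ⟨A, B, hp, hq, h1, h2, h3, h4⟩
    refine ⟨(v.1 - hh A B, (A, B)), ⟨h1, h2, h3, h4⟩, ?_⟩
    refine Prod.ext ?_ (Prod.ext ?_ ?_)
    · show v.1 - hh A B + hh A B = v.1
      rw [sub_add_cancel]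
    · exact hp.symm
    · exact hq.symm

theorem vol_EZ (hinv : ∀ A B A' B' : ℂ, A * B = A' * B' → A ^ 3 + B ^ 3 = A' ^ 3 + B' ^ 3 →
    hh A B = hh A' B') {a : ℂ} (ha : a ≠ 0) (hK : IsCompact (KA a)) : MeasurableSet (EZ a) ∧
    volume (EZ a) ≤ ∫⁻ κ in Hex, volume (PQt (tk κ) a) := by
  have hE : MeasurableSet (EZ a) := by
    rw [← b7_f_image]
    exact (hK.image_of_continuousOn (b7_f_cont a)).isClosed.measurableSet
  have hE' : MeasurableSet (b7_g a '' KA a) := (hK.image (b7_g_cont a)).isClosed.measurableSet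
  refine ⟨hE, ?_⟩
  have key : ∀ y : ℂ × ℂ, volume ((fun x => (x, y)) ⁻¹' EZ a) ≤
      volume ((fun x => (x, y)) ⁻¹' (b7_g a '' KA a)) := by
    intro y
    by_cases hne : ((fun x => (x, y)) ⁻¹' EZ a).Nonempty
    · obtain ⟨z₀, A₀, B₀, hp, hq, -⟩ := hne
      dsimp only at hp hq
      have hsub : (fun x => (x, y)) ⁻¹' EZ a ⊆
          (fun x => x + -hh A₀ B₀) ⁻¹' ((fun x => (x, y)) ⁻¹' (b7_g a '' KA a)) := by
        rintro z ⟨A, B, hp', hq', h1, h2, h3, h4⟩
        dsimp only at hp' hq' h1 h2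
        have e : hh A B = hh A₀ B₀ := by
          apply hinv
          · rw [hp] at hp'
            exact (mul_left_cancel₀ (mul_ne_zero (by norm_num) ha) hp').symm
          · rw [hq] at hq'
            exact (mul_left_cancel₀ (neg_ne_zero.2 ha) hq').symm
        refine ⟨(z - hh A B, (A, B)), ⟨h1, h2, h3, h4⟩, ?_⟩
        refine Prod.ext ?_ (Prod.ext ?_ ?_)
        · show z - hh A B = z + -hh A₀ B₀
          rw [e, sub_eq_add_neg]
        · exact hp'.symm
        · exact hq'.symm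
      exact (measure_mono hsub).trans (le_of_eq (measure_preimage_add_right _ _ _))
    · rw [Set.not_nonempty_iff_eq_empty.1 hne, measure_empty]
      exact zero_le
  calc volume (EZ a) = ∫⁻ y : ℂ × ℂ, volume ((fun x => (x, y)) ⁻¹' EZ a) := by
        rw [Measure.volume_eq_prod, Measure.prod_apply_symm hE]
    _ ≤ ∫⁻ y : ℂ × ℂ, volume ((fun x => (x, y)) ⁻¹' (b7_g a '' KA a)) := lintegral_mono key
    _ = volume (b7_g a '' KA a) :=
        (Measure.prod_apply_symm (μ := (volume : Measure ℂ)) (ν := (volume : Measure (ℂ × ℂ))) hE').symm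
    _ = ∫⁻ κ : ℂ, volume (Prod.mk κ ⁻¹' (b7_g a '' KA a)) := by
        rw [Measure.volume_eq_prod, Measure.prod_apply hE']
    _ ≤ ∫⁻ κ : ℂ, Hex.indicator (fun κ => volume (PQt (tk κ) a)) κ := by
        refine lintegral_mono fun κ => ?_
        by_cases hκ : κ ∈ Hex
        · rw [Set.indicator_of_mem hκ]
          refine measure_mono ?_
          rintro ⟨p, q⟩ ⟨⟨κ', A, B⟩, ⟨h1, h2, h3, h4⟩, he⟩
          have e1 : κ' = κ := congrArg Prod.fst he
          have e2 : -3 * a * (A * B) = p := congrArg (fun v : ℂ × (ℂ × ℂ) => v.2.1) he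
          have e3 : -a * (A ^ 3 + B ^ 3) = q := congrArg (fun v : ℂ × (ℂ × ℂ) => v.2.2) he
          dsimp only at h1 h2 h3 h4
          rw [e1] at h2
          exact ⟨A, B, e2.symm, e3.symm, (rd_iff hκ).1 h2, h3, h4⟩
        · rw [Set.indicator_of_notMem hκ]
          have : Prod.mk κ ⁻¹' (b7_g a '' KA a) = ∅ := by
            ext v
            simp only [Set.mem_preimage, Set.mem_empty_iff_false, iff_false]
            rintro ⟨⟨κ', A, B⟩, ⟨h1, -⟩, he⟩
            have e1 : κ' = κ := congrArg Prod.fst he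
            dsimp only at h1
            rw [e1] at h1
            exact hκ h1
          rw [this, measure_empty]
    _ = ∫⁻ κ in Hex, volume (PQt (tk κ) a) := lintegral_indicator hex_closed.measurableSet _

end JGC
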