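import Pool.Agent.JGC.B2
import Pool.Agent.JGC.B3
import Pool.Agent.JGC.B4
import Pool.Agent.JGC.B5
import Pool.Agent.JGC.B6
import Pool.Agent.JGC.B7

/-!
# [JGC-B8] the volume of the region
-/

set_option autoImplicit false

namespace JGC

open CM27 CU JZ JC MeasureTheory

theorem b8_tk_meas : Measurable tk := by
  unfold tk
  fun_prop

/-- the integrand -/
noncomputable def b8_F (v : ℂ × ℂ) : ENNReal :=
  ENNReal.ofReal (9 * ‖v.1‖ ^ 2) * ∫⁻ x in Omt (tk v.2), jac v.1 x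

theorem b8_Om_meas (t : ℝ) : MeasurableSet (Omt t) := by
  have h1 : MeasurableSet {x : ℂ × ℂ | |Complex.arg x.1| ≤ Real.pi / 3} :=
    measurableSet_le (continuous_abs.measurable.comp (Complex.measurable_arg.comp measurable_fst))
      measurable_const
  have h2 : MeasurableSet {x : ℂ × ℂ | ‖x.2‖ ≤ 1} := measurableSet_le (by fun_prop) measurable_const
  have h3 : MeasurableSet {x : ℂ × ℂ | (1 + ‖x.2‖ ^ 2) ^ 2 ≤ t * ‖x.1‖ ^ 2 * ‖1 - x.2 ^ 3‖ ^ 2} :=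
    measurableSet_le (by fun_prop) (by fun_prop)
  exact h1.inter (h2.inter h3)

/-- the total domain -/
def b8_D : Set ((ℂ × ℂ) × (ℂ × ℂ)) := {v | v.2 ∈ Omt (tk v.1.2)}

theorem b8_D_meas : MeasurableSet b8_D := by
  have hk := b8_tk_meas
  have h1 : MeasurableSet {v : (ℂ × ℂ) × (ℂ × ℂ) | |Complex.arg v.2.1| ≤ Real.pi / 3} :=
    measurableSet_le (continuous_abs.measurable.comp (Complex.measurable_arg.comp
      (measurable_fst.comp measurable_snd))) measurable_const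
  have h2 : MeasurableSet {v : (ℂ × ℂ) × (ℂ × ℂ) | ‖v.2.2‖ ≤ 1} :=
    measurableSet_le (by fun_prop) measurable_const
  have h3 : MeasurableSet {v : (ℂ × ℂ) × (ℂ × ℂ) |
      (1 + ‖v.2.2‖ ^ 2) ^ 2 ≤ tk v.1.2 * ‖v.2.1‖ ^ 2 * ‖1 - v.2.2 ^ 3‖ ^ 2} := by
    refine measurableSet_le (by fun_prop) ?_
    exact ((hk.comp (measurable_snd.comp measurable_fst)).mul (by fun_prop)).mul (by fun_prop)
  exact h1.inter (h2.inter h3)

theorem b8_F_meas : Measurable b8_F := by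
  have h1 : Measurable fun v : (ℂ × ℂ) × (ℂ × ℂ) => b8_D.indicator (fun v => jac v.1.1 v.2) v := by
    refine Measurable.indicator ?_ b8_D_meas
    exact jac_meas.comp (f := fun v : (ℂ × ℂ) × (ℂ × ℂ) => (v.1.1, v.2))
      ((measurable_fst.comp measurable_fst).prodMk measurable_snd)
  have h2 : Measurable fun v : ℂ × ℂ => ∫⁻ x : ℂ × ℂ, b8_D.indicator (fun v => jac v.1.1 v.2) (v, x) :=
    h1.lintegral_prod_right'
  have h3 : b8_F = fun v : ℂ × ℂ => ENNReal.ofReal (9 * ‖v.1‖ ^ 2) *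
      ∫⁻ x : ℂ × ℂ, b8_D.indicator (fun v => jac v.1.1 v.2) (v, x) := by
    funext v
    unfold b8_F
    rw [← lintegral_indicator (b8_Om_meas _)]
    rfl
  rw [h3]
  exact (by fun_prop : Measurable fun v : ℂ × ℂ => ENNReal.ofReal (9 * ‖v.1‖ ^ 2)).mul h2

theorem b8_vol (ε : ℝ) (hε : 0 < ε) :
    volume (RegHC ε) ≤ ENNReal.ofReal (Real.pi ^ 3 / 24 * 1.01514) := by
  have hH : MeasurableSet Hex := hex_closed.measurableSet
  have hinv : ∀ A B A' B' : ℂ, A * B = A' * B' → A ^ 3 + B ^ 3 = A' ^ 3 + B' ^ 3 →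
      hh A B = hh A' B' := fun A B A' B' h1 h2 => (hh_inv h1 h2).1
  have h0 : volume (RegHC ε) ≤ ∫⁻ a : ℂ, ENNReal.ofReal (9 * ‖a‖ ^ 2) * volume (EZ a) :=
    vol_fibH (regHC_compact ε hε) fun a ha => (vol_EZ hinv ha (KA_compact ha)).1
  have h1 : ∀ a : ℂ, ENNReal.ofReal (9 * ‖a‖ ^ 2) * volume (EZ a) ≤
      ∫⁻ κ in Hex, b8_F (a, κ) := by
    intro a
    by_cases ha : a = 0
    · rw [ha, norm_zero]
      simp
    · have h2 := (vol_EZ hinv ha (KA_compact ha)).2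
      calc ENNReal.ofReal (9 * ‖a‖ ^ 2) * volume (EZ a) ≤
            ENNReal.ofReal (9 * ‖a‖ ^ 2) * ∫⁻ κ in Hex, ∫⁻ x in Omt (tk κ), jac a x := by
            refine mul_le_mul_right (h2.trans (setLIntegral_mono' hH fun κ hκ => ?_)) _
            exact vol_PQt (tk_pos hκ) a
        _ = ∫⁻ κ in Hex, b8_F (a, κ) :=
            (lintegral_const_mul' (ENNReal.ofReal (9 * ‖a‖ ^ 2)) _ ENNReal.ofReal_ne_top).symm
  have h2 : ∫⁻ a : ℂ, ∫⁻ κ in Hex, b8_F (a, κ) = ∫⁻ κ in Hex, ∫⁻ a : ℂ, b8_F (a, κ) :=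
    lintegral_lintegral_swap b8_F_meas.aemeasurable
  have h3 : ∫⁻ κ in Hex, ∫⁻ a : ℂ, b8_F (a, κ) ≤
      ∫⁻ κ in Hex, ENNReal.ofReal (Real.pi ^ 3 / 24) * ENNReal.ofReal (tk κ) := by
    refine setLIntegral_mono' hH fun κ hκ => ?_
    rw [← ENNReal.ofReal_mul (by positivity)]
    exact vol_intt (tk_pos hκ)
  calc volume (RegHC ε) ≤ ∫⁻ a : ℂ, ENNReal.ofReal (9 * ‖a‖ ^ 2) * volume (EZ a) := h0
    _ ≤ ∫⁻ a : ℂ, ∫⁻ κ in Hex, b8_F (a, κ) := lintegral_mono h1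
    _ = ∫⁻ κ in Hex, ∫⁻ a : ℂ, b8_F (a, κ) := h2
    _ ≤ ∫⁻ κ in Hex, ENNReal.ofReal (Real.pi ^ 3 / 24) * ENNReal.ofReal (tk κ) := h3
    _ = ENNReal.ofReal (Real.pi ^ 3 / 24) * ∫⁻ κ in Hex, ENNReal.ofReal (tk κ) :=
        lintegral_const_mul' _ _ ENNReal.ofReal_ne_top
    _ ≤ ENNReal.ofReal (Real.pi ^ 3 / 24) * ENNReal.ofReal 1.01514 := mul_le_mul_right int_hex _
    _ = _ := by rw [← ENNReal.ofReal_mul (by positivity)]

theorem regHC_vol (ε : ℝ) (hε : 0 < ε) :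
    volume.real (RegHC ε) ≤ Real.pi ^ 3 / 24 * 1.01514 := by
  have h2 := ENNReal.toReal_mono ENNReal.ofReal_ne_top (b8_vol ε hε)
  rw [ENNReal.toReal_ofReal (by positivity)] at h2
  exact h2

end JGC
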