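import Pool.Agent.JGC.B1

/-!
# [JGC-B9] the twelve forms in the exact fundamental domain
-/

set_option autoImplicit false

namespace JGC

open CM27 CU JZ JC JX JXC

/-- a good form with the exact reduction -/
structure GoodH (T : Set O4) (D : Eis) (g : O4) : Prop where
  good : Good T D g
  parH : ∃ z A B : ℂ, Cf (emb g.1) (emb g.2.1) (emb g.2.2.1) (emb g.2.2.2) z A B ∧
    A ^ 3 ≠ B ^ 3 ∧ ∀ n : Eis, Rd (z - hh A B - emb n) A B

theorem b9_par {a b c d z A B : ℂ} (hC : Cf a b c d z A B) (hne : A ^ 3 ≠ B ^ 3)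
    (hR : ∀ n : Eis, Rd (z - hh A B - emb n) A B) : Par a b c d z A B := by
  obtain ⟨n, hn⟩ := hex_exists (z - hh A B)
  have h := rd_old hn (hR n)
  exact ⟨hC.1, hC.2.1, hC.2.2, h, cube_ineq hne h⟩

theorem exists_goodH (T : Set O4)
    (hT : ∀ a b c d D p q r s : Eis, Cl D → disc a (la * b) (la ^ 2 * c) (la * d) = 4 * la ^ 4 * D →
      IsUnit (p * s - q * r) →
      (cA a (la * b) (la ^ 2 * c) (la * d) p q r s, cB a (la * b) (la ^ 2 * c) (la * d) p q r s,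
        cC a (la * b) (la ^ 2 * c) (la * d) p q r s, cD a (la * b) (la ^ 2 * c) (la * d) p q r s) ∈ T)
    {D : Eis} (hD : Cl D) (hF : HasForm D) : ∃ g : O4, GoodH T D g := by
  have hdom := eis_isDomain
  obtain ⟨a, b, c, d, hdisc, hz⟩ := hF
  have hD0 : D ≠ 0 := by
    rintro rfl
    exact hD.2.2 0 (by simp)
  have hz' : ∀ x y : Eis, val a (la * b) (la ^ 2 * c) (la * d) x y = 0 → x = 0 ∧ y = 0 :=
    fun x y h => hz x y h
  have hd0 : disc a (la * b) (la ^ 2 * c) (la * d) ≠ 0 := by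
    rw [hdisc]
    exact mul_ne_zero (mul_ne_zero (by decide) (pow_ne_zero 4 la_ne)) hD0
  obtain ⟨p, q, r, s, hdet, hA, z, Az, Bz, hCf, hne, hRd⟩ := redH _ _ _ _ hd0 hz'
  set A' := cA a (la * b) (la ^ 2 * c) (la * d) p q r s with hA'
  set B' := cB a (la * b) (la ^ 2 * c) (la * d) p q r s with hB'
  set C' := cC a (la * b) (la ^ 2 * c) (la * d) p q r s with hC'
  set D' := cD a (la * b) (la ^ 2 * c) (la * d) p q r s with hD'
  have e1 : disc A' B' C' D' = 4 * la ^ 4 * D := by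
    rw [hA', hB', hC', hD', disc_act, hdet, one_pow, one_mul, hdisc]
  have hz2 : ∀ x y : Eis, val A' B' C' D' x y = 0 → x = 0 ∧ y = 0 := fun x y h => by
    rw [hA', hB', hC', hD', val_act] at h
    obtain ⟨h1, h2⟩ := hz' _ _ h
    constructor
    · linear_combination s * h1 - q * h2 - x * hdet
    · linear_combination p * h2 - r * h1 - y * hdet
  refine ⟨(A', B', C', D'), ⟨e1, hA, fun hP => ?_, fun hQ => ?_,
    ⟨z, Az, Bz, b9_par hCf hne hRd⟩, fun p' q' r' s' hu => ?_⟩, ⟨z, Az, Bz, hCf, hne, hRd⟩⟩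
  · have hk := key_disc A' B' C' D'
    have hP' : kP A' B' C' = 0 := hP
    rw [hP', e1] at hk
    refine not_sq hD.2.2 (u := 2 * la ^ 5 * A') (v := kQ A' B' C' D')
      (mul_ne_zero (mul_ne_zero (by decide) (pow_ne_zero 5 la_ne)) hA) ?_
    have h6 : (27 : Eis) = -la ^ 6 := by rw [la_six]; ring
    rw [h6] at hk
    linear_combination -hk
  · have hv := kQ_val A' B' C' D'
    have hQ' : kQ A' B' C' D' = 0 := hQ
    rw [hQ', mul_zero] at hv
    have := (hz2 _ _ hv).2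
    exact mul_ne_zero (by decide) hA this
  · obtain ⟨f1, f2, f3, f4⟩ := act_act a (la * b) (la ^ 2 * c) (la * d) p q r s p' q' r' s'
    rw [f1, f2, f3, f4]
    refine hT a b c d D _ _ _ _ hD hdisc ?_
    have : (p * p' + q * r') * (r * q' + s * s') - (p * q' + q * s') * (r * p' + s * r') =
        p' * s' - q' * r' := by
      linear_combination (p' * s' - q' * r') * hdet
    rw [this]
    exact hu

theorem exists_goodXH (T : Set O4)
    (hT : ∀ a b c d D p q r s : Eis, ClY D → EE a b c d = 4 * D → LC a b c d D →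
      IsUnit (p * s - q * r) →
      (cA a (3 * b) (3 * c) d p q r s, cB a (3 * b) (3 * c) d p q r s,
        cC a (3 * b) (3 * c) d p q r s, cD a (3 * b) (3 * c) d p q r s) ∈ T)
    {D : Eis} (hD : ClY D) (hF : HasFormX D) : ∃ g : O4, GoodH T (la ^ 2 * D) g := by
  have hdom := eis_isDomain
  obtain ⟨a, b, c, d, hE, hz, hLC⟩ := hasFormX_iff hF
  have hD0 : D ≠ 0 := by
    rintro rfl
    exact hD.2.2.1 0 (by simp)
  have h27 : (la : Eis) ^ 6 = -27 := by decide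
  have hdisc : disc a (3 * b) (3 * c) d = 4 * la ^ 4 * (la ^ 2 * D) := by
    rw [disc_three, hE]
    linear_combination (-4 * D) * h27
  have hd0 : disc a (3 * b) (3 * c) d ≠ 0 := by
    rw [hdisc]
    exact mul_ne_zero (mul_ne_zero (by decide) (pow_ne_zero 4 la_ne))
      (mul_ne_zero (pow_ne_zero 2 la_ne) hD0)
  obtain ⟨p, q, r, s, hdet, hA, z, Az, Bz, hCf, hne, hRd⟩ := redH _ _ _ _ hd0 hz
  set A' := cA a (3 * b) (3 * c) d p q r s with hA'
  set B' := cB a (3 * b) (3 * c) d p q r s with hB'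
  set C' := cC a (3 * b) (3 * c) d p q r s with hC'
  set D' := cD a (3 * b) (3 * c) d p q r s with hD'
  have e1 : disc A' B' C' D' = 4 * la ^ 4 * (la ^ 2 * D) := by
    rw [hA', hB', hC', hD', disc_act, hdet, one_pow, one_mul, hdisc]
  have hz2 : ∀ x y : Eis, val A' B' C' D' x y = 0 → x = 0 ∧ y = 0 := fun x y h => by
    rw [hA', hB', hC', hD', val_act] at h
    obtain ⟨h1, h2⟩ := hz _ _ h
    constructor
    · linear_combination s * h1 - q * h2 - x * hdet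
    · linear_combination p * h2 - r * h1 - y * hdet
  refine ⟨(A', B', C', D'), ⟨e1, hA, fun hP => ?_, fun hQ => ?_,
    ⟨z, Az, Bz, b9_par hCf hne hRd⟩, fun p' q' r' s' hu => ?_⟩, ⟨z, Az, Bz, hCf, hne, hRd⟩⟩
  · have hk := key_disc A' B' C' D'
    have hP' : kP A' B' C' = 0 := hP
    rw [hP', e1] at hk
    refine not_sq hD.2.2.1 (u := 2 * la ^ 6 * A') (v := kQ A' B' C' D')
      (mul_ne_zero (mul_ne_zero (by decide) (pow_ne_zero 6 la_ne)) hA) ?_
    have h6 : (27 : Eis) = -la ^ 6 := by rw [la_six]; ring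
    rw [h6] at hk
    linear_combination -hk
  · have hv := kQ_val A' B' C' D'
    have hQ' : kQ A' B' C' D' = 0 := hQ
    rw [hQ', mul_zero] at hv
    have := (hz2 _ _ hv).2
    exact mul_ne_zero (by decide) hA this
  · obtain ⟨f1, f2, f3, f4⟩ := act_act a (3 * b) (3 * c) d p q r s p' q' r' s'
    rw [f1, f2, f3, f4]
    refine hT a b c d D _ _ _ _ hD hE hLC ?_
    have : (p * p' + q * r') * (r * q' + s * s') - (p * q' + q * s') * (r * p' + s * r') =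
        p' * s' - q' * r' := by
      linear_combination (p' * s' - q' * r') * hdet
    rw [this]
    exact hu

/-- `h` under the multiplication by a number of absolute value `1` -/
theorem b9_hh {k : ℂ} (hk : ‖k‖ = 1) (A B : ℂ) : hh (k * A) (k * B) = k * hh A B := by
  have h1 : (starRingEnd ℂ) k * k = 1 := by
    rw [mul_comm, Complex.mul_conj, Complex.normSq_eq_norm_sq, hk]
    norm_num
  unfold hh
  rw [norm_mul, norm_mul, hk, one_mul, one_mul, map_mul, map_mul, mul_div_assoc']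
  congr 1
  linear_combination (k * A ^ 2 * (starRingEnd ℂ) B + k * (starRingEnd ℂ) A * B ^ 2) * h1

theorem b9_rd {k : ℂ} (hk : ‖k‖ = 1) {κ κ' A B : ℂ} (hκ : ‖κ'‖ = ‖κ‖) (h : Rd κ A B) :
    Rd κ' (k * A) (k * B) := by
  have e3 : (k * A) ^ 3 - (k * B) ^ 3 = k ^ 3 * (A ^ 3 - B ^ 3) := by ring
  unfold Rd at h ⊢
  rw [e3, hκ]
  simp only [norm_mul, norm_pow, hk, one_pow, one_mul]
  exact h

theorem tw_regH {T : Set O4} {D : Eis} {g : O4} (hg : GoodH T D g) {u : Eis × Eis}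
    (hu : u.1 ^ 6 = 1 ∧ u.2 ^ 2 = 1) {s : ℝ} (hs : 36 * ‖emb D‖ ≤ s ^ 4) :
    ∃ n : Eis, emb4 (tw g u n) ∈ RegH s := by
  obtain ⟨z, A, B, hCf, hne, hRd⟩ := hg.parH
  have hpar := b9_par hCf hne hRd
  have hgg := hg.good
  obtain ⟨h6, h2⟩ := hu
  have e6 : emb u.1 ^ 6 = 1 := by rw [← map_pow, h6, map_one]
  have e2 : emb u.2 ^ 2 = 1 := by rw [← map_pow, h2, map_one]
  have hn1 : ‖emb u.1‖ = 1 := by
    have : ‖emb u.1‖ ^ 6 = 1 := by rw [← norm_pow, e6, norm_one]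
    exact (pow_eq_one_iff_of_nonneg (norm_nonneg _) (by norm_num)).1 this
  have hn2 : ‖emb u.2‖ = 1 := by
    have : ‖emb u.2‖ ^ 2 = 1 := by rw [← norm_pow, e2, norm_one]
    exact (pow_eq_one_iff_of_nonneg (norm_nonneg _) (by norm_num)).1 this
  have hdisc := par_disc hpar
  obtain ⟨hb, hc, hd, hr1, hr2⟩ := hpar
  set ζ := emb u.1 with hζ
  set ε := emb u.2 with hε
  have hk : ‖ε * ζ ^ 4‖ = 1 := by rw [norm_mul, norm_pow, hn1, hn2, one_pow, one_mul]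
  obtain ⟨n, hn⟩ := hex_exists (ε * ζ ^ 4 * (z - hh A B))
  have hz' : ε * ζ ^ 4 * z - emb n - hh (ε * ζ ^ 4 * A) (ε * ζ ^ 4 * B) =
      ε * ζ ^ 4 * (z - hh A B) - emb n := by
    rw [b9_hh hk]
    ring
  refine ⟨n, ?_, ε * ζ ^ 4 * z - emb n, ε * ζ ^ 4 * A, ε * ζ ^ 4 * B, ⟨?_, ?_, ?_⟩, ?_, ?_, ?_, ?_⟩
  · intro h0
    have h0' : emb (tw g u n).1 = 0 := h0
    rw [(tw_key g ⟨h6, h2⟩ n).2.1, map_mul, map_pow, ← hζ] at h0'
    have hdom := eis_isDomain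
    rcases mul_eq_zero.1 h0' with h | h
    · have := pow_eq_zero_iff (by norm_num) |>.1 h
      rw [this, norm_zero] at hn1
      exact zero_ne_one hn1
    · exact hgg.a_ne (emb_injective (by rw [h, map_zero]))
  · show emb (cB g.1 g.2.1 g.2.2.1 g.2.2.2 u.1 (u.1 * n) 0 (u.2 * u.1 ^ 5)) =
      -3 * emb (cA g.1 g.2.1 g.2.2.1 g.2.2.2 u.1 (u.1 * n) 0 (u.2 * u.1 ^ 5)) * _
    simp only [cA, cB, val, map_add, map_mul, map_pow, map_ofNat, map_zero, hb, hc, hd, ← hζ, ← hε]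
    ring
  · show emb (cC g.1 g.2.1 g.2.2.1 g.2.2.2 u.1 (u.1 * n) 0 (u.2 * u.1 ^ 5)) =
      emb (cA g.1 g.2.1 g.2.2.1 g.2.2.2 u.1 (u.1 * n) 0 (u.2 * u.1 ^ 5)) * _
    simp only [cA, cC, val, map_add, map_mul, map_pow, map_ofNat, map_zero, hb, hc, hd, ← hζ, ← hε]
    ring
  · show emb (cD g.1 g.2.1 g.2.2.1 g.2.2.2 u.1 (u.1 * n) 0 (u.2 * u.1 ^ 5)) =
      emb (cA g.1 g.2.1 g.2.2.1 g.2.2.2 u.1 (u.1 * n) 0 (u.2 * u.1 ^ 5)) * _
    simp only [cA, cD, val, map_add, map_mul, map_pow, map_ofNat, map_zero, hb, hc, hd, ← hζ, ← hε]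
    ring
  · rw [hz']
    exact hn
  · rw [hz']
    -- the norm of the new centre
    have e7 : ε * ζ ^ 4 * (z - hh A B) - emb n =
        ε * ζ ^ 4 * (z - hh A B - emb (u.2 * u.1 ^ 2 * n)) := by
      rw [map_mul, map_mul, map_pow, ← hζ, ← hε]
      linear_combination emb n * ε ^ 2 * e6 + emb n * e2
    refine b9_rd hk (κ := z - hh A B - emb (u.2 * u.1 ^ 2 * n)) ?_ (hRd _)
    rw [e7, norm_mul, hk, one_mul]
  · simp only [norm_mul, norm_pow, hn1, hn2, one_pow, one_mul, mul_one]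
    exact hr2
  · have e3 : (ε * ζ ^ 4 * A) ^ 3 - (ε * ζ ^ 4 * B) ^ 3 = (ε * ζ ^ 4) ^ 3 * (A ^ 3 - B ^ 3) := by ring
    rw [e3]
    have e4 : ‖(emb4 (tw g u n)).1‖ = ‖emb g.1‖ := by
      show ‖emb (tw g u n).1‖ = _
      rw [(tw_key g ⟨h6, h2⟩ n).2.1, map_mul, map_pow, ← hζ, norm_mul, norm_pow, hn1, one_pow,
        one_mul]
    rw [e4]
    simp only [norm_mul, norm_pow, hn1, hn2, one_pow, one_mul]
    have e5 : emb (disc g.1 g.2.1 g.2.2.1 g.2.2.2) = disc (emb g.1) (emb g.2.1) (emb g.2.2.1)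
        (emb g.2.2.2) := by
      simp only [disc, map_sub, map_add, map_mul, map_pow, map_ofNat]
    have e7 : ‖emb (disc g.1 g.2.1 g.2.2.1 g.2.2.2)‖ =
        27 * ‖emb g.1‖ ^ 4 * ‖A ^ 3 - B ^ 3‖ ^ 2 := by
      rw [e5, hdisc, norm_mul, norm_mul, norm_neg, norm_pow, norm_pow]
      norm_num
    rw [← e7, hgg.disc_eq, map_mul, map_mul, norm_mul, norm_mul]
    have e8 : ‖emb (4 : Eis)‖ * ‖emb (la ^ 4)‖ = 36 := by
      have h9 : emb (la ^ 4) = 9 * w ^ 2 := by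
        have : (la : Eis) ^ 4 = 9 * om ^ 2 := by decide
        rw [this, map_mul, map_pow, map_ofNat]
        have : emb om = w := by
          rw [emb_apply]
          simp [om]
        rw [this]
      rw [h9, map_ofNat, norm_mul, norm_pow, norm_w]
      norm_num
    rw [e8]
    exact hs

/-- Twelve forms for every `D`. -/
theorem twelveH (T : Set O4)
    (hT : ∀ a b c d D p q r s : Eis, Cl D → disc a (la * b) (la ^ 2 * c) (la * d) = 4 * la ^ 4 * D →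
      IsUnit (p * s - q * r) →
      (cA a (la * b) (la ^ 2 * c) (la * d) p q r s, cB a (la * b) (la ^ 2 * c) (la * d) p q r s,
        cC a (la * b) (la ^ 2 * c) (la * d) p q r s, cD a (la * b) (la ^ 2 * c) (la * d) p q r s) ∈ T)
    (X : ℕ) (s : ℝ) (_hs : 0 ≤ s) (hX : s ^ 8 = 1296 * X)
    (hfin : {g : O4 | g ∈ T ∧ emb4 g ∈ RegH s}.Finite) :
    (SB X).Finite ∧ 12 * (SB X).ncard ≤ {g : O4 | g ∈ T ∧ emb4 g ∈ RegH s}.ncard := by
  classical
  have hS := SB_fin X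
  refine ⟨hS, ?_⟩
  have hex : ∀ D : Eis, ∃ g : O4, D ∈ SB X → GoodH T D g := fun D => by
    by_cases hD : D ∈ SB X
    · obtain ⟨g, hg⟩ := exists_goodH T hT hD.1 hD.2.1
      exact ⟨g, fun _ => hg⟩
    · exact ⟨(0, 0, 0, 0), fun h => absurd h hD⟩
  choose g hg using hex
  have hbd : ∀ D ∈ SB X, 36 * ‖emb D‖ ≤ s ^ 4 := fun D hD => by
    refine le_of_sq_le_sq ?_ (by positivity)
    rw [mul_pow, norm_emb_sq, ← pow_mul, hX]
    have : ((D.norm : ℤ) : ℝ) ≤ X := by exact_mod_cast hD.2.2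
    linarith
  have hex2 : ∀ (D : Eis) (u : Eis × Eis), ∃ n : Eis, D ∈ SB X → u ∈ U12 →
      emb4 (tw (g D) u n) ∈ RegH s := fun D u => by
    by_cases hD : D ∈ SB X
    · by_cases hu : u ∈ U12
      · obtain ⟨n, hn⟩ := tw_regH (hg D hD) (U12_prop u hu) (hbd D hD)
        exact ⟨n, fun _ _ => hn⟩
      · exact ⟨0, fun _ h => absurd h hu⟩
    · exact ⟨0, fun h => absurd h hD⟩
  choose n hn using hex2
  have hcard : 12 * (SB X).ncard = ((SB X) ×ˢ (U12 : Set (Eis × Eis))).ncard := by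
    rw [Set.ncard_prod, Set.ncard_coe_finset, U12_card, mul_comm]
  rw [hcard]
  refine Set.ncard_le_ncard_of_injOn (fun x => tw (g x.1) x.2 (n x.1 x.2)) ?_ ?_ hfin
  · rintro ⟨D, u⟩ ⟨hD, hu⟩
    exact ⟨tw_mem (hg D hD).good (U12_prop u hu) _, hn D u hD hu⟩
  · rintro ⟨D₁, u₁⟩ ⟨hD₁, hu₁⟩ ⟨D₂, u₂⟩ ⟨hD₂, hu₂⟩ h
    obtain ⟨h1, h2⟩ := tw_inj (hg D₁ hD₁).good (hg D₂ hD₂).good (fun h => congrArg g h)
      (U12_prop u₁ hu₁) (U12_prop u₂ hu₂) h
    exact Prod.ext h1 h2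

/-- Twelve forms for every `D` in the second part of the class. -/
theorem twelveXH (T : Set O4)
    (hT : ∀ a b c d D p q r s : Eis, ClY D → EE a b c d = 4 * D → LC a b c d D →
      IsUnit (p * s - q * r) →
      (cA a (3 * b) (3 * c) d p q r s, cB a (3 * b) (3 * c) d p q r s,
        cC a (3 * b) (3 * c) d p q r s, cD a (3 * b) (3 * c) d p q r s) ∈ T)
    (X : ℕ) (s : ℝ) (_hs : 0 ≤ s) (hX : s ^ 8 = 11664 * X)
    (hfin : {g : O4 | g ∈ T ∧ emb4 g ∈ RegH s}.Finite) :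
    (SBX X).Finite ∧ 12 * (SBX X).ncard ≤ {g : O4 | g ∈ T ∧ emb4 g ∈ RegH s}.ncard := by
  classical
  have hdom := eis_isDomain
  have hS := SBX_fin X
  refine ⟨hS, ?_⟩
  have hex : ∀ D : Eis, ∃ g : O4, D ∈ SBX X → GoodH T (la ^ 2 * D) g := fun D => by
    by_cases hD : D ∈ SBX X
    · obtain ⟨g, hg⟩ := exists_goodXH T hT hD.1 hD.2.1
      exact ⟨g, fun _ => hg⟩
    · exact ⟨(0, 0, 0, 0), fun h => absurd h hD⟩
  choose g hg using hex
  have hbd : ∀ D ∈ SBX X, 36 * ‖emb (la ^ 2 * D)‖ ≤ s ^ 4 := fun D hD => by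
    refine le_of_sq_le_sq ?_ (by positivity)
    rw [mul_pow, norm_emb_sq, ← pow_mul, hX, map_mul, map_pow]
    have h3 : (la : Eis).norm = 3 := by decide
    rw [h3]
    have : ((D.norm : ℤ) : ℝ) ≤ X := by exact_mod_cast hD.2.2
    push_cast
    linarith
  have hex2 : ∀ (D : Eis) (u : Eis × Eis), ∃ n : Eis, D ∈ SBX X → u ∈ U12 →
      emb4 (tw (g D) u n) ∈ RegH s := fun D u => by
    by_cases hD : D ∈ SBX X
    · by_cases hu : u ∈ U12
      · obtain ⟨n, hn⟩ := tw_regH (hg D hD) (U12_prop u hu) (hbd D hD)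
        exact ⟨n, fun _ _ => hn⟩
      · exact ⟨0, fun _ h => absurd h hu⟩
    · exact ⟨0, fun h => absurd h hD⟩
  choose n hn using hex2
  have hcard : 12 * (SBX X).ncard = ((SBX X) ×ˢ (U12 : Set (Eis × Eis))).ncard := by
    rw [Set.ncard_prod, Set.ncard_coe_finset, U12_card, mul_comm]
  rw [hcard]
  refine Set.ncard_le_ncard_of_injOn (fun x => tw (g x.1) x.2 (n x.1 x.2)) ?_ ?_ hfin
  · rintro ⟨D, u⟩ ⟨hD, hu⟩
    exact ⟨tw_mem (hg D hD).good (U12_prop u hu) _, hn D u hD hu⟩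
  · rintro ⟨D₁, u₁⟩ ⟨hD₁, hu₁⟩ ⟨D₂, u₂⟩ ⟨hD₂, hu₂⟩ h
    have hcan : la ^ 2 * D₁ = la ^ 2 * D₂ → D₁ = D₂ :=
      fun h => mul_left_cancel₀ (pow_ne_zero 2 la_ne) h
    obtain ⟨h1, h2⟩ := tw_inj (hg D₁ hD₁).good (hg D₂ hD₂).good (fun h => congrArg g (hcan h))
      (U12_prop u₁ hu₁) (U12_prop u₂ hu₂) h
    exact Prod.ext (hcan h1) h2

end JGC
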