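import Pool.Agent.JC.C6

/-!
# [JGC-A] counting the class `ClG`: definitions

`δ = 638 * 921 / 864 ^ 2` is the density of the residue conditions modulo `27` and `32`.
-/

set_option autoImplicit false

namespace JGC

open CM27 CU JZ JC
open scoped Classical

/-- the conditions of `JG.ClG` at `la = 1 - ω` -/
structure CLa (D : Eis) : Prop where
  six : ¬ la ^ 6 ∣ D
  la0 : ¬ la ∣ D → ∀ η : Eis, (η = 1 ∨ η = -1) → ¬ la ^ 3 ∣ D - η - la ^ 2
  la24 : ∀ c : Eis, ¬ la ∣ c → (D = la ^ 2 * c ∨ D = la ^ 4 * c) → la ∣ c + 1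
  la3 : ∀ c : Eis, ¬ la ∣ c → D = la ^ 3 * c → ∀ η : Eis, (η = 1 ∨ η = -1) → ¬ la ^ 2 ∣ c - (η + la)

/-- the conditions of `JG.ClG` at `2` -/
structure CTwo (D : Eis) : Prop where
  six : ¬ (2 : Eis) ^ 6 ∣ D
  two : ∀ c : Eis, ¬ (2 : Eis) ∣ c → (D = c ∨ D = 2 ^ 2 * c) → ∀ x : Eis, ¬ (8 : Eis) ∣ c - x ^ 2

/-- the residues modulo `27` -/
def ok27 (u v : ℕ) : Bool :=
  if (u + v) % 3 != 0 then
    !(u % 3 == 1 && v % 3 == 0 && (u + v + 2) % 9 == 0) && !(u % 3 == 2 && v % 3 == 0 && (u + v + 4) % 9 == 0)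
  else if !(u % 3 == 0 && v % 3 == 0) then true
  else if (u + v) % 9 != 0 then (u + v) % 9 == 3
  else if !(u % 9 == 0 && v % 9 == 0) then
    !((2 * u + 26 * v) % 27 == 18 && ((u + 25 * v) % 27 == 18 || (u + 25 * v) % 27 == 0))
  else if (u + v) % 27 != 0 then (u + v) % 27 == 18
  else !(u % 27 == 0)

/-- the odd squares modulo `8` -/
def sq8 (u v : ℕ) : Bool :=
  (u % 8 == 0 && v % 8 == 1) || (u % 8 == 0 && v % 8 == 5) || (u % 8 == 1 && v % 8 == 0) ||
    (u % 8 == 3 && v % 8 == 3) || (u % 8 == 5 && v % 8 == 0) || (u % 8 == 7 && v % 8 == 7)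

/-- the residues modulo `32` -/
def ok32 (u v : ℕ) : Bool :=
  if u % 2 != 0 || v % 2 != 0 then !sq8 u v
  else if u % 4 == 0 && v % 4 == 0 then !(u % 32 == 0 && v % 32 == 0) && !sq8 (u / 4) (v / 4)
  else true

/-- the good residues modulo `27` -/
def F27 : Finset (ZMod 27 × ZMod 27) := Finset.univ.filter fun c => ok27 c.1.val c.2.val = true

/-- the good residues modulo `32` -/
def F32 : Finset (ZMod 32 × ZMod 32) := Finset.univ.filter fun c => ok32 c.1.val c.2.val = true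

theorem F27_card : F27.card = 638 := by decide +kernel

theorem F32_card : F32.card = 921 := by decide +kernel

attribute [irreducible] F27 F32

/-- the elements of norm `≤ X` in the good residue classes, congruent to `a` modulo `m` -/
noncomputable def AG (m a : Eis) (X : ℕ) : Finset Eis :=
  (norm_fin X).toFinset.filter fun x => res 27 x ∈ F27 ∧ res 32 x ∈ F32 ∧ m ∣ x - a

theorem mem_AG (m a : Eis) (X : ℕ) (x : Eis) :
    x ∈ AG m a X ↔ x.norm ≤ X ∧ res 27 x ∈ F27 ∧ res 32 x ∈ F32 ∧ m ∣ x - a := by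
  rw [AG, Finset.mem_filter, Set.Finite.mem_toFinset]
  exact Iff.rfl

/-- `x = p ^ j * c` with `c` a nonzero square modulo `p` -/
def Vio (j : ℕ) (p x : Eis) : Prop := ∃ c t : Eis, ¬ p ∣ t ∧ p ∣ c - t ^ 2 ∧ x = p ^ j * c

/-- the elements violating the condition at a prime of norm `≤ K` -/
noncomputable def VG (j K X : ℕ) : Finset Eis := (AG 1 0 X).filter fun x => ∃ p ∈ PB K, Vio j p x

/-- the elements divisible by the sixth power of a prime of norm `≤ K` -/
noncomputable def V6 (K X : ℕ) : Finset Eis := (AG 1 0 X).filter fun x => ∃ p ∈ PB K, p ^ 6 ∣ x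

/-- the elements divisible by the square of a prime of norm `> K` -/
noncomputable def W2 (K X : ℕ) : Finset Eis :=
  (AG 1 0 X).filter fun x => x ≠ 0 ∧ ∃ p, Prime p ∧ IsCoprime p 6 ∧ (K : ℤ) < p.norm ∧ p ^ 2 ∣ x

/-- the squares -/
noncomputable def SqG (X : ℕ) : Finset Eis := (norm_fin X).toFinset.filter fun x => ∃ y : Eis, y ^ 2 = x

end JGC
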