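import Pool.Agent.JGC.B0
import Pool.Agent.JC.P

/-!
# [JGC-L1] lattice points with given residues modulo `k` in the dilations of a compact set
-/

set_option autoImplicit false

namespace JGC

open CM27 CU JZ JC MeasureTheory
open scoped Pointwise

/-- the cell of a form, of side `k` -/
def L1_cell (k : ℕ) (g : O4) : Set V4 :=
  rect k (emb g.1) ×ˢ (rect k (emb g.2.1) ×ˢ (rect k (emb g.2.2.1) ×ˢ rect k (emb g.2.2.2)))

theorem L1_cell_meas (k : ℕ) (g : O4) : MeasurableSet (L1_cell k g) :=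
  (rect_meas _ _).prod ((rect_meas _ _).prod ((rect_meas _ _).prod (rect_meas _ _)))

theorem L1_cell_vol (k : ℕ) (g : O4) :
    volume (L1_cell k g) = ENNReal.ofReal ((k : ℝ) ^ 8 * (9 / 16)) := by
  have h33 : √3 ^ 2 = 3 := Real.sq_sqrt (by norm_num)
  have hk : (0 : ℝ) ≤ k := Nat.cast_nonneg k
  unfold L1_cell
  rw [Measure.volume_eq_prod, Measure.prod_prod, Measure.volume_eq_prod, Measure.prod_prod,
    Measure.volume_eq_prod, Measure.prod_prod, rect_vol k hk, rect_vol k hk,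
    rect_vol k hk, rect_vol k hk, ← ENNReal.ofReal_mul (by positivity),
    ← ENNReal.ofReal_mul (by positivity), ← ENNReal.ofReal_mul (by positivity)]
  congr 1
  have : (k : ℝ) ^ 2 * (√3 / 2) * (k ^ 2 * (√3 / 2) * (k ^ 2 * (√3 / 2) * (k ^ 2 * (√3 / 2)))) =
      k ^ 8 * ((√3 ^ 2) ^ 2 / 16) := by ring
  rw [this, h33]
  norm_num

theorem L1_res_diff {k : ℕ} {x y : Eis} (h : res k x = res k y) :
    ∃ m : Eis, x = y + (k : Eis) * m := by
  simp only [res, Prod.mk.injEq] at h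
  obtain ⟨u, hu⟩ := (ZMod.intCast_eq_intCast_iff_dvd_sub _ _ k).1 h.1
  obtain ⟨v, hv⟩ := (ZMod.intCast_eq_intCast_iff_dvd_sub _ _ k).1 h.2
  refine ⟨⟨-u, -v⟩, ?_⟩
  have e1 : (k : Eis).re = k := rfl
  have e2 : (k : Eis).im = 0 := rfl
  apply QuadraticAlgebra.ext
  · rw [QuadraticAlgebra.re_add, QuadraticAlgebra.re_mul, e1, e2]
    dsimp only
    linarith
  · rw [QuadraticAlgebra.im_add, QuadraticAlgebra.im_mul, e1, e2]
    dsimp only
    linarith

theorem L1_rect_disj {k : ℕ} (hk : 0 < k) {x y : Eis} (h : res k x = res k y) {z : ℂ}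
    (hx : z ∈ rect k (emb x)) (hy : z ∈ rect k (emb y)) : x = y := by
  have hk' : (0 : ℝ) < k := Nat.cast_pos.2 hk
  obtain ⟨m, rfl⟩ := L1_res_diff h
  have hx' : z ∈ rect k (emb y + (k : ℝ) * emb m) := by
    have : emb (y + (k : Eis) * m) = emb y + (k : ℝ) * emb m := by
      rw [map_add, map_mul, map_natCast]
      norm_num
    rwa [this] at hx
  have hy' : z ∈ rect k (emb y + (k : ℝ) * emb 0) := by
    rwa [map_zero, mul_zero, add_zero]
  rw [rect_disj hk' (emb y) hx' hy', mul_zero, add_zero]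

theorem L1_lat (k : ℕ) (hk : 0 < k) (C : Set V4) (hC : IsCompact C) (x : Z4 k) (η : ℝ)
    (hη : 0 < η) : ∃ s₀ : ℝ, ∀ s : ℝ, s₀ ≤ s →
      {g : O4 | res4 k g = x ∧ emb4 g ∈ s • C}.Finite ∧
      ({g : O4 | res4 k g = x ∧ emb4 g ∈ s • C}.ncard : ℝ) ≤
        (volume.real C / ((k : ℝ) ^ 8 * (9 / 16)) + η) * s ^ 8 := by
  classical
  have hk' : (0 : ℝ) < k := Nat.cast_pos.2 hk
  have hhaar := haar4
  have hfr : Module.finrank ℝ V4 = 8 := by
    simp [V4, Complex.finrank_real_complex]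
  -- choice of the thickening
  have hCtop : volume C ≠ ⊤ := hC.measure_lt_top.ne
  have ht := tendsto_measure_cthickening_of_isCompact (μ := (volume : Measure V4)) hC
  set η' : ℝ := η * ((k : ℝ) ^ 8 * (9 / 16)) with hη'
  have hη'0 : 0 < η' := by positivity
  have hlt : volume C < volume C + ENNReal.ofReal η' :=
    ENNReal.lt_add_right hCtop (by simpa using hη'0)
  obtain ⟨δ, hδ, hδ2⟩ : ∃ δ : ℝ, 0 < δ ∧
      volume (Metric.cthickening δ C) < volume C + ENNReal.ofReal η' := by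
    have h1 := ht.eventually (gt_mem_nhds hlt)
    obtain ⟨δ, hδ, h2⟩ := Metric.eventually_nhds_iff.1 h1
    exact ⟨δ / 2, by positivity, h2 (by
      rw [Real.dist_eq, sub_zero, abs_of_pos (by positivity)]
      linarith)⟩
  refine ⟨2 * k / δ + 1, fun s hs => ?_⟩
  have hs0 : 0 < s := by
    have : 0 < 2 * (k : ℝ) / δ := by positivity
    linarith
  have hsδ : 2 * (k : ℝ) ≤ δ * s := by
    have h1 : 2 * (k : ℝ) / δ ≤ s := by linarith
    rw [div_le_iff₀ hδ] at h1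
    linarith
  -- finiteness
  have hfin : {g : O4 | res4 k g = x ∧ emb4 g ∈ s • C}.Finite := by
    obtain ⟨R, hR⟩ := hC.isBounded.exists_norm_le
    refine ((disc_fin 0 (s * R)).prod ((disc_fin 0 (s * R)).prod ((disc_fin 0 (s * R)).prod
      (disc_fin 0 (s * R))))).subset ?_
    rintro ⟨a, b, c, d⟩ ⟨-, v, hv, hve⟩
    have h1 : ‖emb4 (a, b, c, d)‖ ≤ s * R := by
      rw [← hve]
      show ‖s • v‖ ≤ _
      rw [norm_smul, Real.norm_of_nonneg hs0.le]
      exact mul_le_mul_of_nonneg_left (hR v hv) hs0.le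
    have e : emb4 (a, b, c, d) = (emb a, emb b, emb c, emb d) := rfl
    rw [e, Prod.norm_def, Prod.norm_def, Prod.norm_def] at h1
    simp only [max_le_iff] at h1
    have hz : ∀ t : Eis, ‖emb t‖ ≤ s * R → t ∈ {x : Eis | ‖emb x - 0‖ ≤ s * R} := fun t ht => by
      show ‖emb t - 0‖ ≤ _
      rwa [sub_zero]
    exact ⟨hz _ h1.1, hz _ h1.2.1, hz _ h1.2.2.1, hz _ h1.2.2.2⟩
  refine ⟨hfin, ?_⟩
  set F := hfin.toFinset with hF
  have hmem : ∀ g, g ∈ F ↔ res4 k g = x ∧ emb4 g ∈ s • C := fun g => by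
    rw [hF, Set.Finite.mem_toFinset]
    exact Iff.rfl
  rw [Set.ncard_eq_toFinset_card _ hfin, ← hF]
  have hvol : volume (⋃ g ∈ F, L1_cell k g) =
      F.card * ENNReal.ofReal ((k : ℝ) ^ 8 * (9 / 16)) := by
    rw [measure_biUnion_finset (fun g hg g' hg' hne => ?_) (fun g _ => L1_cell_meas k g)]
    · rw [Finset.sum_congr rfl fun g _ => L1_cell_vol k g, Finset.sum_const, nsmul_eq_mul]
    · refine Set.disjoint_left.2 fun z hz1 hz2 => hne ?_
      obtain ⟨p9, -⟩ := (hmem g).1 hg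
      obtain ⟨q9, -⟩ := (hmem g').1 hg'
      have e9 : res4 k g = res4 k g' := p9.trans q9.symm
      simp only [res4, Prod.mk.injEq] at e9
      obtain ⟨z1, z2, z3, z4⟩ := hz1
      obtain ⟨y1, y2, y3, y4⟩ := hz2
      refine Prod.ext (L1_rect_disj hk e9.1 z1 y1) (Prod.ext
        (L1_rect_disj hk e9.2.1 z2 y2) (Prod.ext
        (L1_rect_disj hk e9.2.2.1 z3 y3)
        (L1_rect_disj hk e9.2.2.2 z4 y4)))
  have hsub : (⋃ g ∈ F, L1_cell k g) ⊆ s • Metric.cthickening δ C := by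
    intro z hz
    simp only [Set.mem_iUnion, exists_prop] at hz
    obtain ⟨g, hg, hz⟩ := hz
    obtain ⟨-, v, hv, hve⟩ := (hmem g).1 hg
    refine ⟨s⁻¹ • z, Metric.mem_cthickening_of_dist_le _ v _ _ hv ?_, ?_⟩
    · have hve' : s • v = emb4 g := hve
      have h1 : dist (s⁻¹ • z) v = s⁻¹ * ‖z - emb4 g‖ := by
        rw [dist_eq_norm, ← hve', ← Real.norm_of_nonneg (inv_nonneg.2 hs0.le), ← norm_smul,
          Real.norm_of_nonneg (inv_nonneg.2 hs0.le), smul_sub, smul_smul, inv_mul_cancel₀ hs0.ne',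
          one_smul]
      have h7 : √7 ≤ 8 / 3 := by
        rw [Real.sqrt_le_left (by norm_num)]
        norm_num
      have h7k : (k : ℝ) * (√7 / 2) ≤ 2 * k := by nlinarith
      have h2 : ‖z - emb4 g‖ ≤ 2 * k := by
        obtain ⟨z1, z2, z3, z4⟩ := hz
        have k1 := rect_norm hk'.le z1
        have k2 := rect_norm hk'.le z2
        have k3 := rect_norm hk'.le z3
        have k4 := rect_norm hk'.le z4
        have e : z - emb4 g = (z.1 - emb g.1, z.2.1 - emb g.2.1, z.2.2.1 - emb g.2.2.1,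
          z.2.2.2 - emb g.2.2.2) := rfl
        rw [e, Prod.norm_def, Prod.norm_def, Prod.norm_def]
        simp only [max_le_iff]
        refine ⟨?_, ?_, ?_, ?_⟩ <;> linarith
      rw [h1, inv_mul_le_iff₀ hs0]
      linarith
    · show s • s⁻¹ • z = z
      rw [smul_smul, mul_inv_cancel₀ hs0.ne', one_smul]
  have h1 : (F.card : ENNReal) * ENNReal.ofReal ((k : ℝ) ^ 8 * (9 / 16)) ≤
      ENNReal.ofReal (s ^ 8) * (volume C + ENNReal.ofReal η') := by
    calc (F.card : ENNReal) * ENNReal.ofReal ((k : ℝ) ^ 8 * (9 / 16))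
        = volume (⋃ g ∈ F, L1_cell k g) := hvol.symm
      _ ≤ volume (s • Metric.cthickening δ C) := measure_mono hsub
      _ = ENNReal.ofReal (s ^ 8) * volume (Metric.cthickening δ C) := by
        rw [Measure.addHaar_smul, hfr, abs_of_nonneg (by positivity)]
      _ ≤ _ := by gcongr
  have h2 : (F.card : ℝ) * ((k : ℝ) ^ 8 * (9 / 16)) ≤ s ^ 8 * (volume.real C + η') := by
    have h3 := ENNReal.toReal_mono (ENNReal.mul_ne_top ENNReal.ofReal_ne_top
      (ENNReal.add_ne_top.2 ⟨hCtop, ENNReal.ofReal_ne_top⟩)) h1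
    rwa [ENNReal.toReal_mul, ENNReal.toReal_mul, ENNReal.toReal_natCast,
      ENNReal.toReal_ofReal (by positivity), ENNReal.toReal_ofReal (by positivity),
      ENNReal.toReal_add hCtop ENNReal.ofReal_ne_top, ENNReal.toReal_ofReal hη'0.le] at h3
  have h4 : (volume.real C / ((k : ℝ) ^ 8 * (9 / 16)) + η) * s ^ 8 =
      s ^ 8 * (volume.real C + η') / ((k : ℝ) ^ 8 * (9 / 16)) := by
    rw [hη']
    field_simp
  rw [h4, le_div_iff₀ (by positivity)]
  exact h2

/-- L1: lattice points with residues in `F` modulo `k` -/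
theorem lat_k (k : ℕ) (hk : 0 < k) (F : Finset (Z4 k)) (C : Set V4) (hC : IsCompact C) (η : ℝ)
    (hη : 0 < η) : ∃ s₀ : ℝ, ∀ s : ℝ, s₀ ≤ s →
      {g : O4 | res4 k g ∈ F ∧ emb4 g ∈ s • C}.Finite ∧
      ({g : O4 | res4 k g ∈ F ∧ emb4 g ∈ s • C}.ncard : ℝ) ≤
        F.card * ((volume.real C / ((k : ℝ) ^ 8 * (9 / 16)) + η) * s ^ 8) := by
  choose s₀ h₀ using fun (x : Z4 k) => L1_lat k hk C hC x η hη
  refine ⟨∑ x ∈ F, |s₀ x|, fun s hs => ?_⟩
  have hle : ∀ x ∈ F, s₀ x ≤ s := fun x hx =>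
    (le_abs_self _).trans ((Finset.single_le_sum (f := fun x => |s₀ x|)
      (fun y _ => abs_nonneg _) hx).trans hs)
  have heq : {g : O4 | res4 k g ∈ F ∧ emb4 g ∈ s • C} =
      ⋃ x ∈ F, {g : O4 | res4 k g = x ∧ emb4 g ∈ s • C} := by
    ext g
    simp only [Set.mem_iUnion, exists_prop]
    constructor
    · rintro ⟨h1, h3⟩
      exact ⟨res4 k g, h1, rfl, h3⟩
    · rintro ⟨x, h1, h4, h3⟩
      refine ⟨?_, h3⟩
      show res4 k g ∈ F
      rw [h4]
      exact h1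
  rw [heq]
  refine ⟨F.finite_toSet.biUnion fun x hx => (h₀ x s (hle x hx)).1, ?_⟩
  have h1 : (⋃ x ∈ F, {g : O4 | res4 k g = x ∧ emb4 g ∈ s • C}).ncard ≤
      ∑ x ∈ F, {g : O4 | res4 k g = x ∧ emb4 g ∈ s • C}.ncard :=
    Finset.set_ncard_biUnion_le _ _
  calc ((⋃ x ∈ F, {g : O4 | res4 k g = x ∧ emb4 g ∈ s • C}).ncard : ℝ)
      ≤ ((∑ x ∈ F, {g : O4 | res4 k g = x ∧ emb4 g ∈ s • C}.ncard : ℕ) : ℝ) := by
        exact_mod_cast h1
    _ = ∑ x ∈ F, ({g : O4 | res4 k g = x ∧ emb4 g ∈ s • C}.ncard : ℝ) := by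
        push_cast; rfl
    _ ≤ ∑ _x ∈ F, (volume.real C / ((k : ℝ) ^ 8 * (9 / 16)) + η) * s ^ 8 :=
        Finset.sum_le_sum fun x hx => (h₀ x s (hle x hx)).2
    _ = _ := by
        rw [Finset.sum_const, nsmul_eq_mul]

end JGC
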