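import Pool.Agent.JGC.B0

/-!
# [JGC-L2] the Chinese remainder theorem for the residues of forms
-/

set_option autoImplicit false

namespace JGC

open CM27 CU JZ JC

theorem L2_crt {m n : ℕ} (h : m.Coprime n) (z : ℤ) :
    (ZMod.chineseRemainder h).symm ((z : ZMod m), (z : ZMod n)) = (z : ZMod (m * n)) := by
  rw [RingEquiv.symm_apply_eq, map_intCast]
  rfl

/-- one component -/
def L2_c {m n : ℕ} (h : m.Coprime n) (x : ZMod m × ZMod m) (y : ZMod n × ZMod n) :
    ZMod (m * n) × ZMod (m * n) :=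
  ((ZMod.chineseRemainder h).symm (x.1, y.1), (ZMod.chineseRemainder h).symm (x.2, y.2))

theorem L2_c_res {m n : ℕ} (h : m.Coprime n) (x : Eis) :
    L2_c h (res m x) (res n x) = res (m * n) x := by
  unfold L2_c res
  rw [L2_crt, L2_crt]

/-- L2: Chinese remainder theorem -/
theorem crt4 {m n : ℕ} (hm : 0 < m) (hn : 0 < n) (h : m.Coprime n) (F : Finset (Z4 m))
    (G : Finset (Z4 n)) : ∃ H : Finset (Z4 (m * n)), H.card ≤ F.card * G.card ∧
      ∀ g : O4, res4 m g ∈ F → res4 n g ∈ G → res4 (m * n) g ∈ H := by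
  classical
  refine ⟨(F ×ˢ G).image fun x => (L2_c h x.1.1 x.2.1, L2_c h x.1.2.1 x.2.2.1,
    L2_c h x.1.2.2.1 x.2.2.2.1, L2_c h x.1.2.2.2 x.2.2.2.2), ?_, ?_⟩
  · refine Finset.card_image_le.trans ?_
    rw [Finset.card_product]
  · intro g h1 h2
    refine Finset.mem_image.2 ⟨(res4 m g, res4 n g), Finset.mem_product.2 ⟨h1, h2⟩, ?_⟩
    simp only [res4, L2_c_res]

end JGC
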