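import Pool.Agent.JGC.B0

/-!
# [JGC-L3] the residues modulo `49` of the forms with squarefree discriminant
-/

set_option autoImplicit false

namespace JGC

open CM27 CU JZ JC

/-- the discriminant of `g` is not divisible by the square of a prime which does not divide `6` -/
def SqF (g : O4) : Prop :=
  ∀ π : Eis, Prime π → IsCoprime π 6 → ¬ π ^ 2 ∣ disc g.1 g.2.1 g.2.2.1 g.2.2.2

/-- the discriminant modulo `M`, in natural numbers -/
def L3_N (M a b c d : ℕ) : ℕ :=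
  b ^ 2 * c ^ 2 + (M - 4) * (a * c ^ 3) + (M - 4) * (b ^ 3 * d) + (M - 27) * (a ^ 2 * d ^ 2) +
    18 * (a * b * c * d)

/-- the partial derivatives modulo `M` -/
def L3_G1 (M a b c d : ℕ) : ℕ := (M - 4) * c ^ 3 + 2 * (M - 27) * (a * d ^ 2) + 18 * (b * c * d)

/-- the partial derivatives modulo `M` -/
def L3_G2 (M a b c d : ℕ) : ℕ := 2 * (b * c ^ 2) + 3 * (M - 4) * (b ^ 2 * d) + 18 * (a * c * d)

/-- the partial derivatives modulo `M` -/
def L3_G3 (M a b c d : ℕ) : ℕ := 2 * (b ^ 2 * c) + 3 * (M - 4) * (a * c ^ 2) + 18 * (a * b * d)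

/-- the partial derivatives modulo `M` -/
def L3_G4 (M a b c d : ℕ) : ℕ := (M - 4) * b ^ 3 + 2 * (M - 27) * (a ^ 2 * d) + 18 * (a * b * c)

/-- bound for the number of the lifts -/
def L3_f (p M a b c d : ℕ) : ℕ :=
  if L3_N M a b c d % p ≠ 0 then p ^ 4 else
  if L3_G1 M a b c d % p ≠ 0 ∨ L3_G2 M a b c d % p ≠ 0 ∨ L3_G3 M a b c d % p ≠ 0 ∨
    L3_G4 M a b c d % p ≠ 0 then p ^ 4 - p ^ 3
  else if L3_N M a b c d % M = 0 then 0 else p ^ 4

/-- summation -/
def L3_sum (n : ℕ) (f : ℕ → ℕ) : ℕ := Nat.rec 0 (fun k acc => acc + f k) n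

theorem L3_sum_eq (n : ℕ) (f : ℕ → ℕ) : L3_sum n f = ∑ i : Fin n, f i := by
  rw [Fin.sum_univ_eq_sum_range]
  induction n with
  | zero => rfl
  | succ n ih =>
    rw [Finset.sum_range_succ, ← ih]
    rfl

/-- the expansion of the discriminant -/
theorem L3_expand {R : Type*} [CommRing R] (a b c d x y z t P : R) (hP : P ^ 2 = 0) :
    disc (a + P * x) (b + P * y) (c + P * z) (d + P * t) = disc a b c d +
      P * ((-4 * c ^ 3 - 54 * a * d ^ 2 + 18 * b * c * d) * x +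
        (2 * b * c ^ 2 - 12 * b ^ 2 * d + 18 * a * c * d) * y +
        (2 * b ^ 2 * c - 12 * a * c ^ 2 + 18 * a * b * d) * z +
        (-4 * b ^ 3 - 54 * a ^ 2 * d + 18 * a * b * c) * t) := by
  unfold disc
  linear_combination (- 27*a^2*t^2 + 18*a*b*z*t + 18*a*c*y*t - 12*a*c*z^2 - 108*a*d*x*t + 18*a*d*y*z - 54*a*x*t^2*P + 18*a*y*z*t*P - 4*a*z^3*P - 12*b^2*y*t + b^2*z^2 + 18*b*c*x*t + 4*b*c*y*z + 18*b*d*x*z - 12*b*d*y^2 + 18*b*x*z*t*P - 12*b*y^2*t*P + 2*b*y*z^2*P - 12*c^2*x*z + c^2*y^2 + 18*c*d*x*y + 18*c*x*y*t*P - 12*c*x*z^2*P + 2*c*y^2*z*P - 27*d^2*x^2 - 54*d*x^2*t*P + 18*d*x*y*z*P - 4*d*y^3*P - 27*x^2*t^2*P^2 + 18*x*y*z*t*P^2 - 4*x*z^3*P^2 - 4*y^3*t*P^2 + y^2*z^2*P^2) * hP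

section Count

variable {p M : ℕ} [Fact p.Prime] [NeZero M]

theorem L3_cast4 (h27 : 27 ≤ M) : ((M - 4 : ℕ) : ZMod M) = -4 := by
  rw [Nat.cast_sub (by omega), ZMod.natCast_self]
  norm_num

theorem L3_cast27 (h27 : 27 ≤ M) : ((M - 27 : ℕ) : ZMod M) = -27 := by
  rw [Nat.cast_sub h27, ZMod.natCast_self]
  norm_num

theorem L3_N_cast (h27 : 27 ≤ M) (a b c d : ℕ) :
    (L3_N M a b c d : ZMod M) = disc (a : ZMod M) b c d := by
  unfold L3_N disc
  push_cast [L3_cast4 h27, L3_cast27 h27]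
  ring

/-- the value of the discriminant at `u + p w` -/
theorem L3_val (h27 : 27 ≤ M) (hM : M = p * p) (a b c d x y z t : ℕ) :
    disc ((a : ZMod M) + p * x) (b + p * y) (c + p * z) (d + p * t) =
      ((L3_N M a b c d + p * (L3_G1 M a b c d * x + L3_G2 M a b c d * y + L3_G3 M a b c d * z +
        L3_G4 M a b c d * t) : ℕ) : ZMod M) := by
  have hP : (p : ZMod M) ^ 2 = 0 := by
    have h1 : ((p * p : ℕ) : ZMod M) = 0 := by rw [← hM, ZMod.natCast_self]
    rw [sq]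
    exact_mod_cast h1
  rw [L3_expand _ _ _ _ _ _ _ _ _ hP]
  push_cast
  rw [L3_N_cast h27]
  unfold L3_G1 L3_G2 L3_G3 L3_G4
  push_cast [L3_cast4 h27, L3_cast27 h27]
  ring

/-- `p`-fold: divisibility -/
theorem L3_zero (hM : M = p * p) {m n : ℕ} (h : ((m : ℕ) : ZMod p) = -(n : ZMod p)) :
    ((p * m + p * n : ℕ) : ZMod M) = 0 := by
  rw [ZMod.natCast_eq_zero_iff, hM]
  rw [← mul_add]
  refine mul_dvd_mul_left p ?_
  rw [← ZMod.natCast_eq_zero_iff, Nat.cast_add, h]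
  ring

/-- the lifts of `(a, b, c, d)` with nonzero discriminant -/
noncomputable def L3_T (p M a b c d : ℕ) [NeZero p] [NeZero M] :
    Finset (ZMod p × ZMod p × ZMod p × ZMod p) :=
  Finset.univ.filter fun w => disc ((a : ZMod M) + p * w.1.val) (b + p * w.2.1.val)
    (c + p * w.2.2.1.val) (d + p * w.2.2.2.val) ≠ 0

theorem L3_card_V : Fintype.card (ZMod p × ZMod p × ZMod p × ZMod p) = p ^ 4 := by
  simp only [Fintype.card_prod, ZMod.card]
  ring

/-- the linear form -/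
def L3_h (g1 g2 g3 g4 : ZMod p) : (ZMod p × ZMod p × ZMod p × ZMod p) →+ ZMod p where
  toFun w := g1 * w.1 + g2 * w.2.1 + g3 * w.2.2.1 + g4 * w.2.2.2
  map_zero' := by simp
  map_add' x y := by
    simp only [Prod.fst_add, Prod.snd_add]
    ring

theorem L3_h_surj {g1 g2 g3 g4 : ZMod p} (h : g1 ≠ 0 ∨ g2 ≠ 0 ∨ g3 ≠ 0 ∨ g4 ≠ 0) (c : ZMod p) :
    c ∈ Set.range (L3_h g1 g2 g3 g4) := by
  rcases h with h | h | h | h
  · exact ⟨(g1⁻¹ * c, 0, 0, 0), by simp [L3_h, mul_inv_cancel_left₀ h]⟩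
  · exact ⟨(0, g2⁻¹ * c, 0, 0), by simp [L3_h, mul_inv_cancel_left₀ h]⟩
  · exact ⟨(0, 0, g3⁻¹ * c, 0), by simp [L3_h, mul_inv_cancel_left₀ h]⟩
  · exact ⟨(0, 0, 0, g4⁻¹ * c), by simp [L3_h, mul_inv_cancel_left₀ h]⟩

theorem L3_fiber {g1 g2 g3 g4 : ZMod p} (h : g1 ≠ 0 ∨ g2 ≠ 0 ∨ g3 ≠ 0 ∨ g4 ≠ 0) (c : ZMod p) :
    (Finset.univ.filter fun w => L3_h g1 g2 g3 g4 w = c).card = p ^ 3 := by
  have hp : 0 < p := (Fact.out : p.Prime).pos
  have h1 : ∀ c' : ZMod p, (Finset.univ.filter fun w => L3_h g1 g2 g3 g4 w = c').card =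
      (Finset.univ.filter fun w => L3_h g1 g2 g3 g4 w = c).card := fun c' =>
    AddMonoidHom.card_fiber_eq_of_mem_range (L3_h g1 g2 g3 g4) (L3_h_surj h c') (L3_h_surj h c)
  have h2 : (Finset.univ : Finset (ZMod p × ZMod p × ZMod p × ZMod p)).card =
      ∑ c' : ZMod p, (Finset.univ.filter fun w => L3_h g1 g2 g3 g4 w = c').card :=
    Finset.card_eq_sum_card_fiberwise fun w _ => Finset.mem_coe.2 (Finset.mem_univ _)
  rw [Finset.sum_congr rfl fun c' _ => h1 c', Finset.sum_const, Finset.card_univ, Finset.card_univ,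
    L3_card_V, ZMod.card, smul_eq_mul] at h2
  have h3 : p * p ^ 3 = p * (Finset.univ.filter fun w => L3_h g1 g2 g3 g4 w = c).card := by
    rw [← h2]; ring
  exact (Nat.eq_of_mul_eq_mul_left hp h3).symm

theorem L3_T_card (h27 : 27 ≤ M) (hM : M = p * p) (a b c d : ℕ) :
    (L3_T p M a b c d).card ≤ L3_f p M a b c d := by
  have hp : 0 < p := (Fact.out : p.Prime).pos
  have htriv : (L3_T p M a b c d).card ≤ p ^ 4 := by
    refine (Finset.card_le_univ _).trans ?_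
    rw [L3_card_V]
  unfold L3_f
  split_ifs with h1 h2 h3
  · exact htriv
  · -- some partial derivative is not zero
    have h1' : p ∣ L3_N M a b c d := Nat.dvd_of_mod_eq_zero (not_not.1 h1)
    obtain ⟨δ, hδ⟩ := h1'
    have hne : ∀ n : ℕ, n % p ≠ 0 → (n : ZMod p) ≠ 0 := fun n hn h0 =>
      hn (Nat.mod_eq_zero_of_dvd ((ZMod.natCast_eq_zero_iff n p).1 h0))
    have h2' : (L3_G1 M a b c d : ZMod p) ≠ 0 ∨ (L3_G2 M a b c d : ZMod p) ≠ 0 ∨
        (L3_G3 M a b c d : ZMod p) ≠ 0 ∨ (L3_G4 M a b c d : ZMod p) ≠ 0 := by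
      rcases h2 with h | h | h | h
      · exact Or.inl (hne _ h)
      · exact Or.inr (Or.inl (hne _ h))
      · exact Or.inr (Or.inr (Or.inl (hne _ h)))
      · exact Or.inr (Or.inr (Or.inr (hne _ h)))
    set Z := Finset.univ.filter fun w => L3_h (L3_G1 M a b c d : ZMod p) (L3_G2 M a b c d : ZMod p)
      (L3_G3 M a b c d : ZMod p) (L3_G4 M a b c d : ZMod p) w = -(δ : ZMod p) with hZ
    have hZc : Z.card = p ^ 3 := L3_fiber h2' _
    have hdisj : L3_T p M a b c d ⊆ Finset.univ \ Z := by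
      intro w hw
      rw [Finset.mem_sdiff]
      refine ⟨Finset.mem_univ _, fun hwZ => ?_⟩
      have hw' := (Finset.mem_filter.1 hw).2
      have hwZ' := (Finset.mem_filter.1 hwZ).2
      apply hw'
      rw [L3_val h27 hM, hδ, add_comm]
      refine L3_zero hM ?_
      rw [← hwZ']
      push_cast
      rw [ZMod.natCast_zmod_val, ZMod.natCast_zmod_val, ZMod.natCast_zmod_val,
        ZMod.natCast_zmod_val]
      rfl
    have h5 := Finset.card_le_card hdisj
    rw [Finset.card_sdiff_of_subset (Finset.subset_univ _), Finset.card_univ, L3_card_V, hZc] at h5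
    exact h5
  · -- all partial derivatives and the discriminant are zero
    rw [Nat.le_zero, Finset.card_eq_zero]
    refine Finset.filter_eq_empty_iff.2 fun w _ => ?_
    rw [not_not, L3_val h27 hM, ZMod.natCast_eq_zero_iff]
    have hM0 : M ∣ L3_N M a b c d := Nat.dvd_of_mod_eq_zero h3
    push Not at h2
    obtain ⟨g1, g2, g3, g4⟩ := h2
    have g1' : p ∣ L3_G1 M a b c d := Nat.dvd_of_mod_eq_zero g1
    have g2' : p ∣ L3_G2 M a b c d := Nat.dvd_of_mod_eq_zero g2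
    have g3' : p ∣ L3_G3 M a b c d := Nat.dvd_of_mod_eq_zero g3
    have g4' : p ∣ L3_G4 M a b c d := Nat.dvd_of_mod_eq_zero g4
    refine dvd_add hM0 ?_
    rw [hM]
    refine mul_dvd_mul_left p ?_
    rw [← hM]
    exact dvd_add (dvd_add (dvd_add (dvd_mul_of_dvd_left g1' _) (dvd_mul_of_dvd_left g2' _))
      (dvd_mul_of_dvd_left g3' _)) (dvd_mul_of_dvd_left g4' _)
  · exact htriv

/-- the vectors with nonzero discriminant -/
noncomputable def L3_S (M : ℕ) [NeZero M] : Finset (ZMod M × ZMod M × ZMod M × ZMod M) :=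
  Finset.univ.filter fun v => disc v.1 v.2.1 v.2.2.1 v.2.2.2 ≠ 0

theorem L3_split (hM : M = p * p) (v : ZMod M) :
    ∃ (u : Fin p) (w : ZMod p), v = (u.val : ZMod M) + p * w.val := by
  have hp : 0 < p := (Fact.out : p.Prime).pos
  have hv : v.val < p * p := by
    rw [← hM]
    exact ZMod.val_lt v
  have hdiv : v.val / p < p := Nat.div_lt_of_lt_mul hv
  refine ⟨⟨v.val % p, Nat.mod_lt _ hp⟩, ((v.val / p : ℕ) : ZMod p), ?_⟩
  rw [ZMod.val_natCast_of_lt hdiv]
  have h1 : v.val % p + p * (v.val / p) = v.val := Nat.mod_add_div _ _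
  have h2 := congrArg (fun n : ℕ => (n : ZMod M)) h1
  simp only [Nat.cast_add, Nat.cast_mul, ZMod.natCast_zmod_val] at h2
  exact h2.symm

theorem L3_S_card (h27 : 27 ≤ M) (hM : M = p * p) :
    (L3_S M).card ≤ L3_sum p fun a => L3_sum p fun b => L3_sum p fun c => L3_sum p fun d =>
      L3_f p M a b c d := by
  classical
  have h1 : L3_S M ⊆ ((Finset.univ : Finset (Fin p × Fin p × Fin p × Fin p)).sigma
      fun u => L3_T p M u.1 u.2.1 u.2.2.1 u.2.2.2).image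
      (fun x => ((x.1.1.val : ZMod M) + p * x.2.1.val, (x.1.2.1.val : ZMod M) + p * x.2.2.1.val,
        (x.1.2.2.1.val : ZMod M) + p * x.2.2.2.1.val,
        (x.1.2.2.2.val : ZMod M) + p * x.2.2.2.2.val)) := by
    intro v hv
    obtain ⟨u1, w1, e1⟩ := L3_split hM v.1
    obtain ⟨u2, w2, e2⟩ := L3_split hM v.2.1
    obtain ⟨u3, w3, e3⟩ := L3_split hM v.2.2.1
    obtain ⟨u4, w4, e4⟩ := L3_split hM v.2.2.2
    refine Finset.mem_image.2 ⟨⟨(u1, u2, u3, u4), (w1, w2, w3, w4)⟩, ?_, ?_⟩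
    · refine Finset.mem_sigma.2 ⟨Finset.mem_univ _, ?_⟩
      refine Finset.mem_filter.2 ⟨Finset.mem_univ _, ?_⟩
      have h2 := (Finset.mem_filter.1 hv).2
      rw [e1, e2, e3, e4] at h2
      exact h2
    · exact Prod.ext e1.symm (Prod.ext e2.symm (Prod.ext e3.symm e4.symm))
  refine (Finset.card_le_card h1).trans (Finset.card_image_le.trans ?_)
  rw [Finset.card_sigma]
  refine (Finset.sum_le_sum fun u _ => L3_T_card h27 hM u.1 u.2.1 u.2.2.1 u.2.2.2).trans ?_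
  simp only [L3_sum_eq]
  rw [Fintype.sum_prod_type]
  simp only [Fintype.sum_prod_type]
  exact le_rfl

end Count

/-- the reduction `ω ↦ r` -/
def L3_ph (M : ℕ) (r : ZMod M) (x : ZMod M × ZMod M) : ZMod M := x.1 + r * x.2

/-- the reduction `ω ↦ r` as a ring homomorphism -/
def L3_hom (M : ℕ) (r : ZMod M) (hr : r ^ 2 = -1 - r) : Eis →+* ZMod M where
  toFun x := L3_ph M r (res M x)
  map_one' := by
    show ((1 : Eis).re : ZMod M) + r * ((1 : Eis).im : ZMod M) = 1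
    have e1 : (1 : Eis).re = 1 := rfl
    have e2 : (1 : Eis).im = 0 := rfl
    rw [e1, e2]
    simp
  map_zero' := by
    show ((0 : Eis).re : ZMod M) + r * ((0 : Eis).im : ZMod M) = 0
    have e1 : (0 : Eis).re = 0 := rfl
    have e2 : (0 : Eis).im = 0 := rfl
    rw [e1, e2]
    simp
  map_add' x y := by
    show ((x + y).re : ZMod M) + r * ((x + y).im : ZMod M) =
      (x.re : ZMod M) + r * (x.im : ZMod M) + ((y.re : ZMod M) + r * (y.im : ZMod M))
    rw [QuadraticAlgebra.re_add, QuadraticAlgebra.im_add]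
    push_cast
    ring
  map_mul' x y := by
    show ((x * y).re : ZMod M) + r * ((x * y).im : ZMod M) =
      ((x.re : ZMod M) + r * (x.im : ZMod M)) * ((y.re : ZMod M) + r * (y.im : ZMod M))
    rw [QuadraticAlgebra.re_mul, QuadraticAlgebra.im_mul]
    push_cast
    linear_combination (-(x.im : ZMod M) * y.im) * hr

theorem L3_map_disc {R S : Type*} [CommRing R] [CommRing S] (f : R →+* S) (a b c d : R) :
    f (disc a b c d) = disc (f a) (f b) (f c) (f d) := by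
  simp only [disc, map_add, map_sub, map_mul, map_pow, map_ofNat]

/-- the general statement -/
theorem L3_main {M : ℕ} [NeZero M] {r1 r2 : ZMod M} (hr1 : r1 ^ 2 = -1 - r1)
    (hr2 : r2 ^ 2 = -1 - r2) (hu : IsUnit (r1 - r2))
    (h1 : ∀ x : Eis, L3_hom M r1 hr1 x = 0 → ∃ π : Eis, Prime π ∧ IsCoprime π 6 ∧ π ^ 2 ∣ x)
    (h2 : ∀ x : Eis, L3_hom M r2 hr2 x = 0 → ∃ π : Eis, Prime π ∧ IsCoprime π 6 ∧ π ^ 2 ∣ x)
    {B : ℕ} (hB : (L3_S M).card ≤ B) :
    ∃ F : Finset (Z4 M), F.card ≤ B ^ 2 ∧ ∀ g : O4, SqF g → res4 M g ∈ F := by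
  classical
  set Q : ZMod M → Z4 M → ZMod M × ZMod M × ZMod M × ZMod M := fun r x =>
    (L3_ph M r x.1, L3_ph M r x.2.1, L3_ph M r x.2.2.1, L3_ph M r x.2.2.2) with hQ
  refine ⟨Finset.univ.filter fun x => Q r1 x ∈ L3_S M ∧ Q r2 x ∈ L3_S M, ?_, ?_⟩
  · have hinj1 : ∀ x y : ZMod M × ZMod M, L3_ph M r1 x = L3_ph M r1 y →
        L3_ph M r2 x = L3_ph M r2 y → x = y := by
      intro x y e1 e2
      unfold L3_ph at e1 e2
      have e3 : (r1 - r2) * x.2 = (r1 - r2) * y.2 := by linear_combination e1 - e2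
      have e4 : x.2 = y.2 := hu.mul_left_cancel e3
      have e5 : x.1 = y.1 := by
        rw [e4] at e1
        exact add_right_cancel e1
      exact Prod.ext e5 e4
    have hle : (Finset.univ.filter fun x => Q r1 x ∈ L3_S M ∧ Q r2 x ∈ L3_S M).card ≤
        (L3_S M ×ˢ L3_S M).card := by
      refine Finset.card_le_card_of_injOn (fun x => (Q r1 x, Q r2 x)) ?_ ?_
      · intro x hx
        exact Finset.mem_coe.2 (Finset.mem_product.2 (Finset.mem_filter.1 (Finset.mem_coe.1 hx)).2)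
      · intro x _ y _ hxy
        simp only [hQ, Prod.mk.injEq] at hxy
        obtain ⟨⟨a1, a2, a3, a4⟩, b1, b2, b3, b4⟩ := hxy
        exact Prod.ext (hinj1 _ _ a1 b1) (Prod.ext (hinj1 _ _ a2 b2)
          (Prod.ext (hinj1 _ _ a3 b3) (hinj1 _ _ a4 b4)))
    refine hle.trans ?_
    rw [Finset.card_product, sq]
    exact Nat.mul_le_mul hB hB
  · intro g hg
    have key : ∀ (r : ZMod M) (hr : r ^ 2 = -1 - r),
        (∀ x : Eis, L3_hom M r hr x = 0 → ∃ π : Eis, Prime π ∧ IsCoprime π 6 ∧ π ^ 2 ∣ x) →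
        Q r (res4 M g) ∈ L3_S M := by
      intro r hr hh
      refine Finset.mem_filter.2 ⟨Finset.mem_univ _, fun h0 => ?_⟩
      have e : disc (Q r (res4 M g)).1 (Q r (res4 M g)).2.1 (Q r (res4 M g)).2.2.1
          (Q r (res4 M g)).2.2.2 = L3_hom M r hr (disc g.1 g.2.1 g.2.2.1 g.2.2.2) := by
        rw [L3_map_disc]
        rfl
      rw [e] at h0
      obtain ⟨π, hπ, h6, hd⟩ := hh _ h0
      exact hg π hπ h6 hd
    exact Finset.mem_filter.2 ⟨Finset.mem_univ _, key r1 hr1 h1, key r2 hr2 h2⟩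

/-- divisibility from the explicit factorisation -/
theorem L3_ker {M : ℕ} {r : ZMod M} (hr : r ^ 2 = -1 - r) (R : ℤ) (hR : (R : ZMod M) = r)
    (q π k1 k2 : Eis) (hM : (M : Eis) = q * k1) (ho : om - (R : Eis) = q * k2) (hq : q = π ^ 2)
    (x : Eis) (hx : L3_hom M r hr x = 0) : π ^ 2 ∣ x := by
  have h1 : (((x.re + R * x.im : ℤ)) : ZMod M) = 0 := by
    have h2 : (x.re : ZMod M) + r * (x.im : ZMod M) = 0 := hx
    push_cast
    rw [hR]
    exact h2
  rw [ZMod.intCast_zmod_eq_zero_iff_dvd] at h1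
  obtain ⟨m, hm⟩ := h1
  have h3 : x = (M : Eis) * (m : Eis) + (x.im : Eis) * (om - (R : Eis)) := by
    have e1 : (x.re : Eis) + (R : Eis) * (x.im : Eis) = (M : Eis) * (m : Eis) := by
      have := congrArg (fun z : ℤ => (z : Eis)) hm
      simp only [Int.cast_add, Int.cast_mul, Int.cast_natCast] at this
      exact this
    have e2 : x = (x.re : Eis) + (x.im : Eis) * om := by
      apply QuadraticAlgebra.ext
      · rw [QuadraticAlgebra.re_add, QuadraticAlgebra.re_mul]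
        have a1 : (om : Eis).re = 0 := rfl
        have a2 : (om : Eis).im = 1 := rfl
        rw [a1, a2, QuadraticAlgebra.re_intCast, QuadraticAlgebra.re_intCast,
          QuadraticAlgebra.im_intCast, Int.cast_id, Int.cast_id]
        ring
      · rw [QuadraticAlgebra.im_add, QuadraticAlgebra.im_mul]
        have a1 : (om : Eis).re = 0 := rfl
        have a2 : (om : Eis).im = 1 := rfl
        rw [a1, a2, QuadraticAlgebra.im_intCast, QuadraticAlgebra.re_intCast,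
          QuadraticAlgebra.im_intCast, Int.cast_id]
        ring
    linear_combination e2 + e1
  rw [h3, hM, ho, ← hq]
  exact ⟨k1 * m + x.im * k2, by ring⟩

/-- a prime of prime norm `> 3` is coprime to `6` -/
theorem L3_coprime {π : Eis} (σ k : Eis) (h : π * σ = 1 + 6 * k) :
    IsCoprime π 6 := by
  refine ⟨σ, -k, ?_⟩
  linear_combination h

/-- L3: the residues modulo `49` -/
theorem sieve49 : ∃ F : Finset (Z4 49), F.card ≤ (2401 * 2304) ^ 2 ∧
    ∀ g : O4, SqF g → res4 49 g ∈ F := by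
  have : Fact (Nat.Prime 7) := ⟨by norm_num⟩
  have hr1 : (18 : ZMod 49) ^ 2 = -1 - 18 := by decide
  have hr2 : (30 : ZMod 49) ^ 2 = -1 - 30 := by decide
  have p1 : Prime (⟨3, 1⟩ : Eis) := a3_prime_of_norm 7 (by norm_num) _ (by decide)
  have p2 : Prime (⟨2, -1⟩ : Eis) := a3_prime_of_norm 7 (by norm_num) _ (by decide)
  refine L3_main hr1 hr2 (isUnit_iff_exists_inv.2 ⟨4, by decide⟩) ?_ ?_ ?_
  · intro x hx
    exact ⟨⟨3, 1⟩, p1, L3_coprime ⟨2, -1⟩ 1 (by decide),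
      L3_ker hr1 18 (by decide) (⟨8, 5⟩) ⟨3, 1⟩ ⟨3, -5⟩ (om * ⟨3, 1⟩) (by decide) (by decide)
        (by decide) x hx⟩
  · intro x hx
    exact ⟨⟨2, -1⟩, p2, L3_coprime ⟨3, 1⟩ 1 (by decide),
      L3_ker hr2 30 (by decide) (⟨3, -5⟩) ⟨2, -1⟩ ⟨8, 5⟩ ⟨-5, -3⟩ (by decide) (by decide)
        (by decide) x hx⟩
  · refine (L3_S_card (p := 7) (M := 49) (by norm_num) (by norm_num)).trans ?_
    decide +kernel

end JGC
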