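import Pool.Agent.JGC.L3

/-!
# [JGC-L4] the residues modulo `169` of the forms with squarefree discriminant
-/

set_option autoImplicit false

namespace JGC

open CM27 CU JZ JC

/-- L4: the residues modulo `169` -/
theorem sieve169 : ∃ F : Finset (Z4 169), F.card ≤ (28561 * 28224) ^ 2 ∧
    ∀ g : O4, SqF g → res4 169 g ∈ F := by
  have : Fact (Nat.Prime 13) := ⟨by norm_num⟩
  have hr1 : (22 : ZMod 169) ^ 2 = -1 - 22 := by decide
  have hr2 : (146 : ZMod 169) ^ 2 = -1 - 146 := by decide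
  have p1 : Prime (⟨4, 1⟩ : Eis) := a3_prime_of_norm 13 (by norm_num) _ (by decide)
  have p2 : Prime (⟨3, -1⟩ : Eis) := a3_prime_of_norm 13 (by norm_num) _ (by decide)
  refine L3_main hr1 hr2 (isUnit_iff_exists_inv.2 ⟨154, by decide⟩) ?_ ?_ ?_
  · intro x hx
    exact ⟨⟨4, 1⟩, p1, L3_coprime ⟨3, -1⟩ 2 (by decide),
      L3_ker hr1 22 (by decide) ⟨15, 7⟩ ⟨4, 1⟩ ⟨8, -7⟩ ⟨-1, 1⟩ (by decide) (by decide)
        (by decide) x hx⟩
  · intro x hx
    exact ⟨⟨3, -1⟩, p2, L3_coprime ⟨4, 1⟩ 2 (by decide),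
      L3_ker hr2 146 (by decide) ⟨8, -7⟩ ⟨3, -1⟩ ⟨15, 7⟩ ⟨-13, -6⟩ (by decide) (by decide)
        (by decide) x hx⟩
  · refine (L3_S_card (p := 13) (M := 169) (by norm_num) (by norm_num)).trans ?_
    decide +kernel

end JGC
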