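import Pool.Agent.JGC.B8
import Pool.Agent.JGC.B9
import Pool.Agent.JGC.L1
import Pool.Agent.JGC.L2
import Pool.Agent.JGC.L4

/-!
# [JGC-Z] assembly: the number of `D` with a form, exact fundamental domain and sieve at 7 and 13
-/

set_option autoImplicit false

namespace JGC

open CM27 CU JZ JC JX JXC MeasureTheory
open scoped Pointwise

/-- the modulus -/
abbrev kM : ℕ := 9 * 4 * 49 * 169

theorem z_sqf {D k : Eis} {N : ℕ} (hD : Squarefree D) (hk : k ∣ 6 ^ N) {g : O4}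
    (h : disc g.1 g.2.1 g.2.2.1 g.2.2.2 = k * D) : SqF g := by
  intro π hπ hc hd
  rw [h] at hd
  have h1 : IsCoprime (π ^ 2) k := IsCoprime.of_isCoprime_of_dvd_right hc.pow hk
  have h2 : π ^ 2 ∣ D := h1.dvd_of_dvd_mul_left hd
  rw [sq] at h2
  exact hπ.not_isUnit (hD π h2)

theorem z_crt (C9 : Finset (Z4 9)) (C4 : Finset (Z4 4)) (C49 : Finset (Z4 49))
    (C169 : Finset (Z4 169)) : ∃ F : Finset (Z4 kM),
      F.card ≤ C9.card * C4.card * C49.card * C169.card ∧ ∀ g : O4, res4 9 g ∈ C9 → res4 4 g ∈ C4 →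
      res4 49 g ∈ C49 → res4 169 g ∈ C169 → res4 kM g ∈ F := by
  obtain ⟨F1, h1, m1⟩ := crt4 (m := 9) (n := 4) (by norm_num) (by norm_num) (by norm_num) C9 C4
  obtain ⟨F2, h2, m2⟩ := crt4 (m := 9 * 4) (n := 49) (by norm_num) (by norm_num) (by norm_num) F1 C49
  obtain ⟨F3, h3, m3⟩ := crt4 (m := 9 * 4 * 49) (n := 169) (by norm_num) (by norm_num) (by norm_num)
    F2 C169
  refine ⟨F3, h3.trans (Nat.mul_le_mul_right _ (h2.trans (Nat.mul_le_mul_right _ h1))),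
    fun g a b c d => m3 g (m2 g (m1 g a b) c) d⟩

/-- all the local conditions -/
theorem exists_TH : ∃ F : Finset (Z4 kM),
    F.card ≤ 209952 * 11520 * (2401 * 2304) ^ 2 * (28561 * 28224) ^ 2 ∧
    ∀ a b c d D p q r s : Eis, Cl D → disc a (la * b) (la ^ 2 * c) (la * d) = 4 * la ^ 4 * D →
      IsUnit (p * s - q * r) →
      (cA a (la * b) (la ^ 2 * c) (la * d) p q r s, cB a (la * b) (la ^ 2 * c) (la * d) p q r s,
        cC a (la * b) (la ^ 2 * c) (la * d) p q r s, cD a (la * b) (la ^ 2 * c) (la * d) p q r s) ∈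
        {g : O4 | res4 kM g ∈ F} := by
  obtain ⟨C9, C4, h9, h4, m94⟩ := exists_T
  obtain ⟨C49, h49, m49⟩ := sieve49
  obtain ⟨C169, h169, m169⟩ := sieve169
  obtain ⟨F, hF, mF⟩ := z_crt C9 C4 C49 C169
  refine ⟨F, hF.trans (Nat.mul_le_mul (Nat.mul_le_mul (Nat.mul_le_mul h9 h4) h49) h169),
    fun a b c d D p q r s hD hd hu => ?_⟩
  have hg := m94 a b c d D p q r s hD hd hu
  have hsq : SqF (cA a (la * b) (la ^ 2 * c) (la * d) p q r s,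
      cB a (la * b) (la ^ 2 * c) (la * d) p q r s, cC a (la * b) (la ^ 2 * c) (la * d) p q r s,
      cD a (la * b) (la ^ 2 * c) (la * d) p q r s) := by
    refine z_sqf (D := D) (k := 4 * la ^ 4) (N := 2) hD.1 ⟨om, by decide⟩ ?_
    show disc (cA a (la * b) (la ^ 2 * c) (la * d) p q r s) _ _ _ = _
    rw [disc_act, unit_six hu, one_mul, hd]
  exact mF _ hg.1 hg.2 (m49 _ hsq) (m169 _ hsq)

theorem exists_TXH : ∃ F : Finset (Z4 kM),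
    F.card ≤ 69984 * 11520 * (2401 * 2304) ^ 2 * (28561 * 28224) ^ 2 ∧
    ∀ a b c d D p q r s : Eis, ClY D → EE a b c d = 4 * D → LC a b c d D →
      IsUnit (p * s - q * r) →
      (cA a (3 * b) (3 * c) d p q r s, cB a (3 * b) (3 * c) d p q r s,
        cC a (3 * b) (3 * c) d p q r s, cD a (3 * b) (3 * c) d p q r s) ∈
        {g : O4 | res4 kM g ∈ F} := by
  obtain ⟨C9, C4, h9, h4, m94⟩ := exists_TX
  obtain ⟨C49, h49, m49⟩ := sieve49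
  obtain ⟨C169, h169, m169⟩ := sieve169
  obtain ⟨F, hF, mF⟩ := z_crt C9 C4 C49 C169
  refine ⟨F, hF.trans (Nat.mul_le_mul (Nat.mul_le_mul (Nat.mul_le_mul h9 h4) h49) h169),
    fun a b c d D p q r s hD hE hL hu => ?_⟩
  have hg := m94 a b c d D p q r s hD hE hL hu
  have hsq : SqF (cA a (3 * b) (3 * c) d p q r s, cB a (3 * b) (3 * c) d p q r s,
      cC a (3 * b) (3 * c) d p q r s, cD a (3 * b) (3 * c) d p q r s) := by
    refine z_sqf (D := D) (k := -27 * 4) (N := 3) hD.1 ⟨-2, by decide⟩ ?_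
    show disc (cA a (3 * b) (3 * c) d p q r s) _ _ _ = _
    rw [disc_act, unit_six hu, one_mul, disc_three, hE]
    ring
  exact mF _ hg.1 hg.2 (m49 _ hsq) (m169 _ hsq)

/-- scaling -/
theorem z_scale {s ε : ℝ} (hs : 0 < s) {v : V4} (hv : v ∈ RegH s) (he : ε * s ≤ ‖v.1‖) :
    v ∈ s • RegHC ε := by
  obtain ⟨h0, z, A, B, ⟨hb, hc, hd⟩, h1, h2, h3, h4⟩ := hv
  have hs' : (s : ℂ) ≠ 0 := by exact_mod_cast hs.ne'
  refine ⟨s⁻¹ • v, ⟨⟨?_, z, A, B, ⟨?_, ?_, ?_⟩, h1, h2, h3, ?_⟩, ?_⟩, ?_⟩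
  · rw [Prod.smul_fst]
    exact smul_ne_zero (inv_ne_zero hs.ne') h0
  · simp only [Prod.smul_fst, Prod.smul_snd, hb, Complex.real_smul]
    ring
  · simp only [Prod.smul_fst, Prod.smul_snd, hc, Complex.real_smul]
    ring
  · simp only [Prod.smul_fst, Prod.smul_snd, hd, Complex.real_smul]
    ring
  · rw [Prod.smul_fst, norm_smul, norm_inv, Real.norm_of_nonneg hs.le, mul_pow, inv_pow]
    rw [one_pow, show 27 * ((s ^ 4)⁻¹ * ‖v.1‖ ^ 4) * ‖A ^ 3 - B ^ 3‖ ^ 2 =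
      (27 * ‖v.1‖ ^ 4 * ‖A ^ 3 - B ^ 3‖ ^ 2) / s ^ 4 by field_simp, div_le_one (by positivity)]
    exact h4
  · rw [Prod.smul_fst, norm_smul, norm_inv, Real.norm_of_nonneg hs.le, ← div_eq_inv_mul,
      le_div_iff₀ hs]
    exact he
  · show s • s⁻¹ • v = v
    rw [smul_smul, mul_inv_cancel₀ hs.ne', one_smul]

/-- the common part of the two counts -/
theorem z_main {k : ℕ} (hk : 0 < k) (F : Finset (Z4 k)) (SS : ℕ → Set Eis) (m : ℕ) (hm : 1 ≤ m)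
    (htw : ∀ (X : ℕ) (s : ℝ), 0 ≤ s → s ^ 8 = m * X →
      {g : O4 | g ∈ {g : O4 | res4 k g ∈ F} ∧ emb4 g ∈ RegH s}.Finite →
      (SS X).Finite ∧ 12 * (SS X).ncard ≤
        {g : O4 | g ∈ {g : O4 | res4 k g ∈ F} ∧ emb4 g ∈ RegH s}.ncard) (δ : ℝ) (hδ : 0 < δ) :
    ∃ X₀ : ℕ, ∀ X : ℕ, X₀ ≤ X → (SS X).Finite ∧ 12 * ((SS X).ncard : ℝ) ≤
      (F.card * (Real.pi ^ 3 / 24 * 1.01514 / ((k : ℝ) ^ 8 * (9 / 16))) * m + δ) * X := by
  obtain ⟨K, hK, hcusp⟩ := cuspH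
  have hk0 : (0 : ℝ) < k := by exact_mod_cast hk
  have hm0 : (0 : ℝ) < m := by exact_mod_cast hm
  have hN0 : (0 : ℝ) ≤ F.card := Nat.cast_nonneg _
  set δ₁ : ℝ := δ / (2 * m) with hδ1
  have hδ1' : 0 < δ₁ := by positivity
  obtain ⟨ε, hε, hε1, hεK⟩ : ∃ ε : ℝ, 0 < ε ∧ ε ≤ 1 ∧ K * √ε ≤ δ₁ := by
    refine ⟨min 1 (δ₁ / K) ^ 2, by positivity, ?_, ?_⟩
    · exact pow_le_one₀ (by positivity) (min_le_left _ _)
    · rw [Real.sqrt_sq (by positivity)]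
      calc K * min 1 (δ₁ / K) ≤ K * (δ₁ / K) :=
            mul_le_mul_of_nonneg_left (min_le_right _ _) hK.le
        _ = δ₁ := by field_simp
  have hη : 0 < δ₁ / (F.card + 1) := by positivity
  obtain ⟨s₀, hlat⟩ := lat_k k hk F (RegHC ε) (regHC_compact ε hε) (δ₁ / (F.card + 1)) hη
  refine ⟨⌈|s₀| ^ 8⌉₊ + 1, fun X hX => ?_⟩
  have hX1 : (1 : ℝ) ≤ X := by
    have : 1 ≤ X := by omega
    exact_mod_cast this
  have hm1 : (1 : ℝ) ≤ m := by exact_mod_cast hm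
  have hXm : (X : ℝ) ≤ m * X := by nlinarith
  have hXs : |s₀| ^ 8 ≤ X := by
    have h1 : ⌈|s₀| ^ 8⌉₊ ≤ X := by omega
    exact (Nat.le_ceil _).trans (by exact_mod_cast h1)
  set s : ℝ := (m * X : ℝ) ^ ((1 : ℝ) / 8) with hs
  have hs0 : 0 ≤ s := by positivity
  have hs8 : s ^ 8 = m * X := by
    rw [hs, ← Real.rpow_natCast, ← Real.rpow_mul (by positivity)]
    norm_num
  have hs1 : 1 ≤ s := by
    by_contra hlt
    have := pow_lt_one₀ hs0 (not_le.1 hlt) (n := 8) (by norm_num)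
    rw [hs8] at this
    linarith
  have hss : s₀ ≤ s := by
    refine (le_abs_self _).trans ?_
    by_contra hlt
    have := pow_lt_pow_left₀ (not_le.1 hlt) hs0 (n := 8) (by norm_num)
    rw [hs8] at this
    linarith
  obtain ⟨f1, n1⟩ := hlat s hss
  obtain ⟨f2, n2⟩ := hcusp s ε hs1 hε hε1
  have hsub : {g : O4 | g ∈ {g : O4 | res4 k g ∈ F} ∧ emb4 g ∈ RegH s} ⊆
      {g : O4 | res4 k g ∈ F ∧ emb4 g ∈ s • RegHC ε} ∪
        {g : O4 | emb4 g ∈ RegH s ∧ ‖emb g.1‖ ≤ ε * s} := by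
    rintro g ⟨h1, h2⟩
    rcases le_total (ε * s) ‖emb g.1‖ with h | h
    · exact Or.inl ⟨h1, z_scale (by linarith) h2 h⟩
    · exact Or.inr ⟨h2, h⟩
  have hfin := (f1.union f2).subset hsub
  obtain ⟨h1, h2⟩ := htw X s hs0 hs8 hfin
  refine ⟨h1, ?_⟩
  set V : ℝ := Real.pi ^ 3 / 24 * 1.01514 with hV
  have hvol : volume.real (RegHC ε) ≤ V := regHC_vol ε hε
  have h4 := (Set.ncard_le_ncard hsub (f1.union f2)).trans (Set.ncard_union_le _ _)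
  have hd : (0 : ℝ) < (k : ℝ) ^ 8 * (9 / 16) := by positivity
  have h5 : (F.card : ℝ) * ((volume.real (RegHC ε) / ((k : ℝ) ^ 8 * (9 / 16)) +
      δ₁ / (F.card + 1)) * s ^ 8) ≤ (F.card * (V / ((k : ℝ) ^ 8 * (9 / 16))) + δ₁) * s ^ 8 := by
    have h6 : (F.card : ℝ) * (δ₁ / (F.card + 1)) ≤ δ₁ := by
      rw [mul_div_assoc', div_le_iff₀ (by positivity)]
      nlinarith
    have h7 : volume.real (RegHC ε) / ((k : ℝ) ^ 8 * (9 / 16)) ≤ V / ((k : ℝ) ^ 8 * (9 / 16)) :=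
      div_le_div_of_nonneg_right hvol hd.le
    have h8 := mul_le_mul_of_nonneg_left h7 hN0
    have h9 : (0 : ℝ) ≤ s ^ 8 := by positivity
    calc (F.card : ℝ) * ((volume.real (RegHC ε) / ((k : ℝ) ^ 8 * (9 / 16)) +
          δ₁ / (F.card + 1)) * s ^ 8) =
          ((F.card : ℝ) * (volume.real (RegHC ε) / ((k : ℝ) ^ 8 * (9 / 16))) +
            (F.card : ℝ) * (δ₁ / (F.card + 1))) * s ^ 8 := by ring
      _ ≤ _ := mul_le_mul_of_nonneg_right (add_le_add h8 h6) h9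
  have h6 : K * √ε * s ^ 8 ≤ δ₁ * s ^ 8 := mul_le_mul_of_nonneg_right hεK (by positivity)
  calc 12 * ((SS X).ncard : ℝ) = ((12 * (SS X).ncard : ℕ) : ℝ) := by push_cast; rfl
    _ ≤ (({g : O4 | g ∈ {g : O4 | res4 k g ∈ F} ∧ emb4 g ∈ RegH s}.ncard : ℕ) : ℝ) :=
        Nat.cast_le.2 h2
    _ ≤ (({g : O4 | res4 k g ∈ F ∧ emb4 g ∈ s • RegHC ε}.ncard +
          {g : O4 | emb4 g ∈ RegH s ∧ ‖emb g.1‖ ≤ ε * s}.ncard : ℕ) : ℝ) := Nat.cast_le.2 h4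
    _ ≤ (F.card : ℝ) * ((volume.real (RegHC ε) / ((k : ℝ) ^ 8 * (9 / 16)) +
          δ₁ / (F.card + 1)) * s ^ 8) + K * √ε * s ^ 8 := by
        push_cast
        exact add_le_add n1 n2
    _ ≤ (F.card * (V / ((k : ℝ) ^ 8 * (9 / 16))) + δ₁) * s ^ 8 + δ₁ * s ^ 8 := add_le_add h5 h6
    _ = _ := by
        rw [hs8, hδ1]
        field_simp
        ring

/-- the constant -/
theorem z_const : 108 * (((209952 * 11520 * (2401 * 2304) ^ 2 * (28561 * 28224) ^ 2 : ℕ) : ℝ) *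
    (Real.pi ^ 3 / 24 * 1.01514 / (((kM : ℕ) : ℝ) ^ 8 * (9 / 16)))) ≤ 0.19413 := by
  have hpi := Real.pi_lt_d6
  have hp0 := Real.pi_pos
  have hp3 : Real.pi ^ 3 ≤ 3.141593 ^ 3 := by
    exact pow_le_pow_left₀ hp0.le hpi.le 3
  have e : 108 * (((209952 * 11520 * (2401 * 2304) ^ 2 * (28561 * 28224) ^ 2 : ℕ) : ℝ) *
      (Real.pi ^ 3 / 24 * 1.01514 / (((kM : ℕ) : ℝ) ^ 8 * (9 / 16)))) =
      Real.pi ^ 3 * (108 * ((209952 * 11520 * (2401 * 2304) ^ 2 * (28561 * 28224) ^ 2 : ℝ) *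
      (1 / 24 * 1.01514 / ((9 * 4 * 49 * 169 : ℝ) ^ 8 * (9 / 16))))) := by
    unfold kM
    push_cast
    ring
  rw [e]
  refine (mul_le_mul_of_nonneg_right hp3 (by norm_num)).trans ?_
  norm_num

theorem count_badH : ∃ X₀ : ℕ, ∀ X : ℕ, X₀ ≤ X → (SB X).Finite ∧
    10000 * (SB X).ncard ≤ 1942 * X := by
  obtain ⟨F, hF, hT⟩ := exists_TH
  obtain ⟨X₀, h⟩ := z_main (k := kM) (by norm_num) F SB 1296 (by norm_num)
    (fun X s hs hX hfin => twelveH {g : O4 | res4 kM g ∈ F} hT X s hs (by rw [hX]; norm_num) hfin)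
    (1 / 10 ^ 5) (by norm_num)
  refine ⟨X₀, fun X hX => ?_⟩
  obtain ⟨h1, h2⟩ := h X hX
  refine ⟨h1, ?_⟩
  have hX0 : (0 : ℝ) ≤ X := Nat.cast_nonneg _
  set W : ℝ := Real.pi ^ 3 / 24 * 1.01514 / (((kM : ℕ) : ℝ) ^ 8 * (9 / 16)) with hW
  have hW0 : 0 ≤ W := by positivity
  have hN : (F.card : ℝ) ≤
      ((209952 * 11520 * (2401 * 2304) ^ 2 * (28561 * 28224) ^ 2 : ℕ) : ℝ) := Nat.cast_le.2 hF
  have hc := z_const
  rw [← hW] at hc
  have h3 : (F.card : ℝ) * W * ((1296 : ℕ) : ℝ) ≤ 12 * 0.19413 := by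
    have h4 := mul_le_mul_of_nonneg_right hN hW0
    push_cast at h4 hc ⊢
    linarith
  have h5 : 12 * ((SB X).ncard : ℝ) ≤ (12 * 0.19413 + 1 / 10 ^ 5) * X :=
    h2.trans (mul_le_mul_of_nonneg_right (by linarith) hX0)
  have h7 : (10000 : ℝ) * ((SB X).ncard : ℝ) ≤ 1942 * X := by linarith
  exact_mod_cast h7

theorem count_badXH : ∃ X₀ : ℕ, ∀ X : ℕ, X₀ ≤ X → (SBX X).Finite ∧
    10000 * (SBX X).ncard ≤ 5825 * X := by
  obtain ⟨F, hF, hT⟩ := exists_TXH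
  obtain ⟨X₀, h⟩ := z_main (k := kM) (by norm_num) F SBX 11664 (by norm_num)
    (fun X s hs hX hfin => twelveXH {g : O4 | res4 kM g ∈ F} hT X s hs (by rw [hX]; norm_num) hfin)
    (1 / 10 ^ 5) (by norm_num)
  refine ⟨X₀, fun X hX => ?_⟩
  obtain ⟨h1, h2⟩ := h X hX
  refine ⟨h1, ?_⟩
  have hX0 : (0 : ℝ) ≤ X := Nat.cast_nonneg _
  set W : ℝ := Real.pi ^ 3 / 24 * 1.01514 / (((kM : ℕ) : ℝ) ^ 8 * (9 / 16)) with hW
  have hW0 : 0 ≤ W := by positivity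
  have hN : (F.card : ℝ) ≤
      ((69984 * 11520 * (2401 * 2304) ^ 2 * (28561 * 28224) ^ 2 : ℕ) : ℝ) := Nat.cast_le.2 hF
  have hc := z_const
  rw [← hW] at hc
  have h3 : (F.card : ℝ) * W * ((11664 : ℕ) : ℝ) ≤ 36 * 0.19413 := by
    have h4 := mul_le_mul_of_nonneg_right hN hW0
    push_cast at h4 hc ⊢
    linarith
  have h5 : 12 * ((SBX X).ncard : ℝ) ≤ (36 * 0.19413 + 1 / 10 ^ 5) * X :=
    h2.trans (mul_le_mul_of_nonneg_right (by linarith) hX0)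
  have h7 : (10000 : ℝ) * ((SBX X).ncard : ℝ) ≤ 5825 * X := by linarith
  exact_mod_cast h7

/-- `#{D : GX D, N D ≤ X} ≥ 0.7193 X`; compare `JC.count_all` : `#{D ≠ 0 : N D ≤ X} ≤ 3.628 X`. -/
theorem count_goodH : ∃ X₀ : ℕ, ∀ X : ℕ, X₀ ≤ X → {D : Eis | GX D ∧ D.norm ≤ X}.Finite ∧
    7193 * X ≤ 10000 * {D : Eis | GX D ∧ D.norm ≤ X}.ncard := by
  obtain ⟨X₁, h₁⟩ := count_badH
  obtain ⟨X₂, h₂⟩ := count_cl
  obtain ⟨X₃, h₃⟩ := count_badXH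
  obtain ⟨X₄, h₄⟩ := count_clY
  refine ⟨X₁ + X₂ + X₃ + X₄, fun X hX => ?_⟩
  obtain ⟨f1, n1⟩ := h₁ X (by omega)
  obtain ⟨f2, n2⟩ := h₂ X (by omega)
  obtain ⟨f3, n3⟩ := h₃ X (by omega)
  obtain ⟨f4, n4⟩ := h₄ X (by omega)
  have hf : {D : Eis | GX D ∧ D.norm ≤ X}.Finite := (norm_fin X).subset fun x hx => hx.2
  refine ⟨hf, ?_⟩
  have hsub : {D : Eis | Cl D ∧ D.norm ≤ X} ∪ {D : Eis | ClY D ∧ D.norm ≤ X} ⊆
      {D : Eis | GX D ∧ D.norm ≤ X} ∪ (SB X ∪ SBX X) := by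
    rintro D (⟨h1, h2⟩ | ⟨h1, h2⟩)
    · by_cases h : HasForm D
      · exact Or.inr (Or.inl ⟨h1, h, h2⟩)
      · exact Or.inl ⟨Or.inl ⟨h1, h⟩, h2⟩
    · by_cases h : HasFormX D
      · exact Or.inr (Or.inr ⟨h1, h, h2⟩)
      · exact Or.inl ⟨Or.inr ⟨h1, h⟩, h2⟩
  have hdis : Disjoint {D : Eis | Cl D ∧ D.norm ≤ X} {D : Eis | ClY D ∧ D.norm ≤ X} :=
    Set.disjoint_left.2 fun D h1 h2 => not_both_cl h1.1 h2.1
  have h5 := Set.ncard_union_eq hdis f2 f4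
  have h6 := (Set.ncard_le_ncard hsub (hf.union (f1.union f3))).trans
    ((Set.ncard_union_le _ _).trans (Nat.add_le_add_left (Set.ncard_union_le _ _) _))
  omega

end JGC
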